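import Pool.Agent.Helper59.PP.TrapA
import Pool.Agent.Helper59.RE.Exp

/-!
# Block PP-TRAPB: the trapezoid, Fourier series

PROOF.  `bt_sum`: `hasSum_one_div_pow_mul_fourier_mul_bernoulliFun` (Mathlib, `Mathlib/NumberTheory/ZetaValues.lean`) for `k = 2` at `fract x ∈ [0, 1)`:
`∑_n 1 / n² e (n x) = - (2 π i)² / 2! * bernoulliFun 2 (fract x) = 2 π² (fract x ² - fract x + 1/6)`; the term `n = 0` is `0` (`1 / 0 = 0`);
`e (h x) = e (h fract x)` because `e` of an integer is `1`.  So `Bt x = ∑_(h ≠ 0) e (h x) / (4 π² h²)`.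
`tz_sum`: linear combination of four translates, `e (h (x - a)) = e (h x) e (- h a)`, and the constant `b - a + η` at `h = 0` (`hasSum_ite_eq` or `hasSum_single`).
`tzc_le`: `e (-h (a-η)) - e (-h a) - e (-h b) + e (-h (b+η)) = (e (- h (a-η)) - e (- h b)) (1 - e (- h η))`, and `‖e s - e t‖ ≤ 2 π |s - t|` (`RE/Exp.lean` has `norm_e_sub`);
so the norm is at most `2 π |h| (b - a + η) * 2 π |h| η`, and also at most `4`.
-/

namespace Pool.Agent.Helper59.PP

open Pool.Agent.Helper59.RE (e)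

/-- The Fourier coefficients of the trapezoid. -/
noncomputable def tzc (a b η : ℝ) (h : ℤ) : ℂ :=
  if h = 0 then ((b - a + η : ℝ) : ℂ) else
    -((e (-(h * (a - η))) - e (-(h * a)) - e (-(h * b)) + e (-(h * (b + η)))) /
      (4 * Real.pi ^ 2 * h ^ 2 * η))

theorem bt_sum (x : ℝ) : HasSum (fun h : ℤ => if h = 0 then (0 : ℂ) else
    e (h * x) / (4 * Real.pi ^ 2 * h ^ 2)) ((Bt x : ℝ) : ℂ) := by
  have hy : Int.fract x ∈ Set.Icc (0 : ℝ) 1 := ⟨Int.fract_nonneg x, (Int.fract_lt_one x).le⟩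
  have h1 := (hasSum_one_div_pow_mul_fourier_mul_bernoulliFun (k := 2) le_rfl hy).mul_left
    (1 / (4 * (Real.pi : ℂ) ^ 2))
  have hpi : (Real.pi : ℂ) ≠ 0 := by exact_mod_cast Real.pi_ne_zero
  have hv : 1 / (4 * (Real.pi : ℂ) ^ 2) * (-(2 * (Real.pi : ℂ) * Complex.I) ^ 2 /
      (Nat.factorial 2 : ℂ) * (bernoulliFun 2 (Int.fract x) : ℂ)) = ((Bt x : ℝ) : ℂ) := by
    rw [bernoulliFun_two]
    unfold Bt
    have hI : (2 * (Real.pi : ℂ) * Complex.I) ^ 2 = -(4 * (Real.pi : ℂ) ^ 2) := by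
      rw [mul_pow, mul_pow, Complex.I_sq]
      ring
    rw [hI, Nat.factorial_two]
    push_cast
    field_simp
  rw [hv] at h1
  refine h1.congr_fun ?_
  intro n
  by_cases hn : n = 0
  · rw [if_pos hn, hn]
    simp
  · rw [if_neg hn]
    have hf : fourier n ((Int.fract x : ℝ) : UnitAddCircle) = e (n * x) := by
      rw [fourier_coe_apply]
      have h2 : (n : ℝ) * x = n * Int.fract x + ((n * ⌊x⌋ : ℤ) : ℝ) := by
        push_cast
        rw [← mul_add, Int.fract_add_floor]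
      rw [h2, Pool.Agent.Helper59.RE.e_add, Pool.Agent.Helper59.RE.e_int, mul_one]
      unfold Pool.Agent.Helper59.RE.e
      congr 1
      push_cast
      ring
    rw [hf]
    have hn' : (n : ℂ) ≠ 0 := by exact_mod_cast hn
    field_simp

theorem tz_sum (a b η : ℝ) (hη : 0 < η) (x : ℝ) :
    HasSum (fun h : ℤ => tzc a b η h * e (h * x)) ((tz a b η x : ℝ) : ℂ) := by
  have hη' : (η : ℂ) ≠ 0 := by exact_mod_cast hη.ne'
  have h1 := bt_sum (x - (a - η))
  have h2 := bt_sum (x - a)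
  have h3 := bt_sum (x - b)
  have h4 := bt_sum (x - (b + η))
  have h5 : HasSum (fun h : ℤ => if h = 0 then ((b - a + η : ℝ) : ℂ) else 0)
      ((b - a + η : ℝ) : ℂ) := by
    have := hasSum_ite_eq (0 : ℤ) ((b - a + η : ℝ) : ℂ)
    exact this
  have h6 := h5.sub ((((h1.sub h2).sub h3).add h4).div_const (η : ℂ))
  have hv : ((b - a + η : ℝ) : ℂ) - (((Bt (x - (a - η)) : ℝ) : ℂ) - ((Bt (x - a) : ℝ) : ℂ) -
      ((Bt (x - b) : ℝ) : ℂ) + ((Bt (x - (b + η)) : ℝ) : ℂ)) / (η : ℂ) =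
      ((tz a b η x : ℝ) : ℂ) := by
    unfold tz
    push_cast
    ring
  rw [hv] at h6
  refine h6.congr_fun ?_
  intro h
  by_cases hh : h = 0
  · simp only [if_pos hh, tzc]
    rw [hh]
    simp [Pool.Agent.Helper59.RE.e_zero]
  · simp only [if_neg hh, tzc]
    have hh' : (h : ℂ) ≠ 0 := by exact_mod_cast hh
    have hpi : (Real.pi : ℂ) ≠ 0 := by exact_mod_cast Real.pi_ne_zero
    have key : ∀ c : ℝ, e (h * (x - c)) = e (-(h * c)) * e (h * x) := by
      intro c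
      rw [← Pool.Agent.Helper59.RE.e_add]
      congr 1
      ring
    rw [key, key, key, key]
    field_simp
    ring

theorem tzc_le (a b η : ℝ) (hab : a ≤ b) (hη : 0 < η) (h : ℤ) : ‖tzc a b η h‖ ≤ b - a + η := by
  by_cases hh : h = 0
  · simp only [tzc, if_pos hh]
    rw [Complex.norm_real, Real.norm_eq_abs, abs_of_nonneg (by linarith)]
  · simp only [tzc, if_neg hh]
    have h1 : ‖e (-(h * (a - η))) - e (-(h * a)) - e (-(h * b)) + e (-(h * (b + η)))‖ ≤
        (2 * Real.pi * (|(h : ℝ)| * (b - a + η))) * (2 * Real.pi * (|(h : ℝ)| * η)) := by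
      have h2 : e (-(h * (a - η))) - e (-(h * a)) - e (-(h * b)) + e (-(h * (b + η))) =
          (e (-(h * (a - η))) - e (-(h * b))) * (e 0 - e (-(h * η))) := by
        have k1 : e (-(h * a)) = e (-(h * (a - η))) * e (-(h * η)) := by
          rw [← Pool.Agent.Helper59.RE.e_add]
          congr 1
          ring
        have k2 : e (-(h * (b + η))) = e (-(h * b)) * e (-(h * η)) := by
          rw [← Pool.Agent.Helper59.RE.e_add]
          congr 1
          ring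
        rw [k1, k2, Pool.Agent.Helper59.RE.e_zero]
        ring
      rw [h2, norm_mul]
      have h3 := Pool.Agent.Helper59.RE.norm_e_sub (-((h : ℝ) * (a - η))) (-((h : ℝ) * b))
      have h4 := Pool.Agent.Helper59.RE.norm_e_sub 0 (-((h : ℝ) * η))
      have e3 : |(-((h : ℝ) * (a - η))) - (-((h : ℝ) * b))| = |(h : ℝ)| * (b - a + η) := by
        rw [show (-((h : ℝ) * (a - η))) - (-((h : ℝ) * b)) = h * (b - a + η) by ring, abs_mul,
          abs_of_nonneg (show 0 ≤ b - a + η by linarith)]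
      have e4 : |(0 : ℝ) - (-((h : ℝ) * η))| = |(h : ℝ)| * η := by
        rw [show (0 : ℝ) - (-((h : ℝ) * η)) = h * η by ring, abs_mul, abs_of_pos hη]
      rw [e3] at h3
      rw [e4] at h4
      exact mul_le_mul h3 h4 (norm_nonneg _) (by
        have : 0 ≤ b - a + η := by linarith
        positivity)
    rw [norm_neg, norm_div]
    have hd : ‖(4 * (Real.pi : ℂ) ^ 2 * (h : ℂ) ^ 2 * (η : ℂ))‖ =
        4 * Real.pi ^ 2 * (h : ℝ) ^ 2 * η := by
      have : (4 * (Real.pi : ℂ) ^ 2 * (h : ℂ) ^ 2 * (η : ℂ)) =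
          ((4 * Real.pi ^ 2 * (h : ℝ) ^ 2 * η : ℝ) : ℂ) := by
        push_cast
        ring
      rw [this, Complex.norm_real, Real.norm_eq_abs, abs_of_nonneg (by positivity)]
    rw [hd]
    have hh' : (h : ℝ) ≠ 0 := by exact_mod_cast hh
    have hpos : 0 < 4 * Real.pi ^ 2 * (h : ℝ) ^ 2 * η := by positivity
    rw [div_le_iff₀ hpos]
    refine h1.trans (le_of_eq ?_)
    have : |(h : ℝ)| * |(h : ℝ)| = (h : ℝ) ^ 2 := by
      rw [← sq, sq_abs]
    calc (2 * Real.pi * (|(h : ℝ)| * (b - a + η))) * (2 * Real.pi * (|(h : ℝ)| * η)) =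
        4 * Real.pi ^ 2 * (|(h : ℝ)| * |(h : ℝ)|) * (b - a + η) * η := by ring
      _ = (b - a + η) * (4 * Real.pi ^ 2 * (h : ℝ) ^ 2 * η) := by rw [this]; ring

theorem tzc_le2 (a b η : ℝ) (hη : 0 < η) (h : ℤ) (h0 : h ≠ 0) :
    ‖tzc a b η h‖ ≤ 1 / (η * (h : ℝ) ^ 2) := by
  simp only [tzc, if_neg h0]
  rw [norm_neg, norm_div]
  have hd : ‖(4 * (Real.pi : ℂ) ^ 2 * (h : ℂ) ^ 2 * (η : ℂ))‖ =
      4 * Real.pi ^ 2 * (h : ℝ) ^ 2 * η := by
    have : (4 * (Real.pi : ℂ) ^ 2 * (h : ℂ) ^ 2 * (η : ℂ)) =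
        ((4 * Real.pi ^ 2 * (h : ℝ) ^ 2 * η : ℝ) : ℂ) := by
      push_cast
      ring
    rw [this, Complex.norm_real, Real.norm_eq_abs, abs_of_nonneg (by positivity)]
  rw [hd]
  have hh' : (h : ℝ) ≠ 0 := by exact_mod_cast h0
  have hpos : 0 < 4 * Real.pi ^ 2 * (h : ℝ) ^ 2 * η := by positivity
  have hN : ‖e (-(h * (a - η))) - e (-(h * a)) - e (-(h * b)) + e (-(h * (b + η)))‖ ≤ 4 := by
    refine (norm_add_le _ _).trans ?_
    have h1 := norm_sub_le (e (-(h * (a - η))) - e (-(h * a))) (e (-(h * b)))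
    have h2 := norm_sub_le (e (-(h * (a - η)))) (e (-(h * a)))
    rw [Pool.Agent.Helper59.RE.norm_e, Pool.Agent.Helper59.RE.norm_e] at h2
    rw [Pool.Agent.Helper59.RE.norm_e] at h1 ⊢
    linarith
  rw [div_le_div_iff₀ hpos (by positivity)]
  have hpi1 : (1 : ℝ) ≤ Real.pi ^ 2 := by
    have := Real.pi_gt_three
    nlinarith
  have hx : 0 < η * (h : ℝ) ^ 2 := by positivity
  calc ‖e (-(h * (a - η))) - e (-(h * a)) - e (-(h * b)) + e (-(h * (b + η)))‖ *
      (η * (h : ℝ) ^ 2) ≤ 4 * (η * (h : ℝ) ^ 2) := mul_le_mul_of_nonneg_right hN hx.le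
    _ ≤ 4 * (Real.pi ^ 2 * (η * (h : ℝ) ^ 2)) := by nlinarith
    _ = 1 * (4 * Real.pi ^ 2 * (h : ℝ) ^ 2 * η) := by ring

end Pool.Agent.Helper59.PP
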