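import Pool.Agent.Helper59.PP.Defs

/-!
# Block PP-ZS: sums over frequencies

PROOF.
* `zs`: on the vectors `h ∈ hz H (q + 1)` the map `h ↦ Fin.tail h` is injective (`h 0 = - ∑ tail`), its values are in `piFinset (fun _ => hs H)`, and
  `∏_l γ (h l) = γ (h 0) ∏ (tail) ≤ M ∏ (tail)` (`Fin.prod_univ_succ`); so the sum is at most `M ∑_(g ∈ piFinset) ∏_l γ (g l) = M (∑_(h ∈ hs H) γ h)^q`
  (`Finset.sum_le_sum_of_injOn`-like: `Finset.sum_image`, `Finset.sum_le_sum_of_subset_of_nonneg`; `Finset.prod_univ_sum`, `Finset.prod_const`).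
* `fs1`: `∑_(h ∈ hs H) ‖c h‖ ≤ 4 C`: the at most `2 N` frequencies with `|h| ≤ N` contribute `≤ 2 C`, the others at most `2 C N ∑_(h > N) 1 / h² ≤ 2 C`
  (`1 / h² ≤ 1 / (h - 1) - 1 / h`, telescoping; by induction on `H`: `∑_(h ∈ Ioc N H) 1 / h² ≤ 1 / N - 1 / H` for `H ≥ N`).  `hs H` is the union of the positive and of
  the negative frequencies.
* `tail1`: for `H ≥ 1` the function `‖c h‖` is summable and the sum over `h ∉ Icc (-H) H` is at most `2 C N / H`; then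
  `φ x - c 0 - ∑_(h ∈ hs H) c h e (h x) = ∑'_(h ∉ Icc (-H) H) ..`.  (For example: for every `H' > H` the sum over `hs H' \ hs H` is at most `2 C N (1/H - 1/H')`
  by telescoping; the sums over `Icc (-H') H'` tend to `φ x` by `HasSum` (`Finset.tendsto_Icc..`, or `HasSum.comp` with the monotone sequence of finite sets
  `Icc (-H') H'` tending to `atTop`), and `le_of_tendsto`.)
-/

namespace Pool.Agent.Helper59.PP

open Finset
open Pool.Agent.Helper59.RE (e)

theorem zs (H q : ℕ) (γ : ℤ → ℝ) (hγ : ∀ h, 0 ≤ γ h) (M : ℝ) (hM : ∀ h, γ h ≤ M) :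
    ∑ h ∈ hz H (q + 1), ∏ l, γ (h l) ≤ M * (∑ h ∈ hs H, γ h) ^ q := by
  have hinj : Set.InjOn (fun h : Fin (q + 1) → ℤ => Fin.tail h) (hz H (q + 1)) := by
    intro h hh h' hh' e
    have h1 : ∑ l, h l = 0 := (mem_filter.1 hh).2
    have h2 : ∑ l, h' l = 0 := (mem_filter.1 hh').2
    have e' : ∀ i : Fin q, h i.succ = h' i.succ := fun i => congrFun e i
    rw [Fin.sum_univ_succ] at h1 h2
    have e2 : ∑ i : Fin q, h i.succ = ∑ i : Fin q, h' i.succ := sum_congr rfl fun i _ => e' i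
    have e0 : h 0 = h' 0 := by omega
    funext i
    refine Fin.cases e0 (fun i => e' i) i
  have hpos : ∀ g : Fin q → ℤ, 0 ≤ ∏ l, γ (g l) := fun g => prod_nonneg fun l _ => hγ _
  calc ∑ h ∈ hz H (q + 1), ∏ l, γ (h l)
      ≤ ∑ h ∈ hz H (q + 1), M * ∏ l, γ (Fin.tail h l) := by
        refine sum_le_sum fun h _ => ?_
        rw [Fin.prod_univ_succ]
        exact mul_le_mul_of_nonneg_right (hM _) (hpos (Fin.tail h))
    _ = M * ∑ g ∈ (hz H (q + 1)).image (fun h => Fin.tail h), ∏ l, γ (g l) := by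
        rw [← mul_sum, sum_image hinj]
    _ ≤ M * ∑ g ∈ Fintype.piFinset (fun _ : Fin q => hs H), ∏ l, γ (g l) := by
        refine mul_le_mul_of_nonneg_left ?_ ((hγ 0).trans (hM 0))
        refine sum_le_sum_of_subset_of_nonneg ?_ (fun g _ _ => hpos g)
        intro g hg
        obtain ⟨h, hh, rfl⟩ := mem_image.1 hg
        rw [Fintype.mem_piFinset]
        intro i
        exact Fintype.mem_piFinset.1 (mem_filter.1 hh).1 i.succ
    _ = M * (∑ h ∈ hs H, γ h) ^ q := by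
        rw [← Finset.prod_univ_sum, prod_const, card_univ, Fintype.card_fin]

private theorem hs_succ {E : Type*} [AddCommMonoid E] (f : ℤ → E) (H : ℕ) :
    ∑ h ∈ hs (H + 1), f h = ∑ h ∈ hs H, f h + (f ((H : ℤ) + 1) + f (-((H : ℤ) + 1))) := by
  have e1 : hs (H + 1) = insert ((H : ℤ) + 1) (insert (-((H : ℤ) + 1)) (hs H)) := by
    ext h
    simp only [hs, mem_erase, mem_Icc, mem_insert]
    push_cast
    omega
  rw [e1, sum_insert, sum_insert]
  · abel
  · simp only [hs, mem_erase, mem_Icc]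
    omega
  · simp only [hs, mem_erase, mem_Icc, mem_insert]
    omega

private theorem tele {H : ℕ} (hH : 1 ≤ H) {a : ℝ} (ha : 0 ≤ a) :
    a / ((H : ℝ) + 1) ^ 2 ≤ a * (1 / (H : ℝ) - 1 / ((H : ℝ) + 1)) := by
  have h1 : (1 : ℝ) ≤ H := by exact_mod_cast hH
  have h2 : 1 / ((H : ℝ) + 1) ^ 2 ≤ 1 / (H : ℝ) - 1 / ((H : ℝ) + 1) := by
    have e : 1 / (H : ℝ) - 1 / ((H : ℝ) + 1) = 1 / ((H : ℝ) * ((H : ℝ) + 1)) := by
      field_simp
      ring
    rw [e]
    apply one_div_le_one_div_of_le (by positivity)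
    nlinarith
  have h3 := mul_le_mul_of_nonneg_left h2 ha
  have e : a / ((H : ℝ) + 1) ^ 2 = a * (1 / ((H : ℝ) + 1) ^ 2) := by ring
  rw [e]
  exact h3

theorem fs1 (C : ℝ) (hC : 0 ≤ C) (N H : ℕ) (hN : 1 ≤ N) (c : ℤ → ℂ) (hb : ∀ h, ‖c h‖ ≤ C / N)
    (hd : ∀ h : ℤ, h ≠ 0 → ‖c h‖ ≤ C * N / (h : ℝ) ^ 2) : ∑ h ∈ hs H, ‖c h‖ ≤ 4 * C := by
  have hN1 : (1 : ℝ) ≤ N := by exact_mod_cast hN
  have hN0 : (0 : ℝ) < N := by linarith
  have small : ∀ H : ℕ, H ≤ N → ∑ h ∈ hs H, ‖c h‖ ≤ 2 * C * (H / N) := by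
    intro H
    induction H with
    | zero =>
      intro _
      have : hs 0 = ∅ := by
        ext h
        simp only [hs, mem_erase, mem_Icc, notMem_empty, iff_false]
        push_cast
        omega
      rw [this]
      simp
    | succ H ih =>
      intro hH
      rw [hs_succ]
      have h1 := ih (by omega)
      have h2 := hb ((H : ℤ) + 1)
      have h3 := hb (-((H : ℤ) + 1))
      push_cast
      have e : 2 * C * (((H : ℝ) + 1) / N) = 2 * C * (H / N) + (C / N + C / N) := by ring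
      rw [e]
      exact add_le_add h1 (add_le_add h2 h3)
  have big : ∀ H : ℕ, N ≤ H → ∑ h ∈ hs H, ‖c h‖ ≤ 4 * C - 2 * C * (N / H) := by
    intro H hH
    induction H, hH using Nat.le_induction with
    | base =>
      have h1 := small N le_rfl
      rw [div_self hN0.ne'] at h1 ⊢
      linarith
    | succ H hH ih =>
      rw [hs_succ]
      have hH1 : 1 ≤ H := hN.trans hH
      have h2 := hd ((H : ℤ) + 1) (by omega)
      have h3 := hd (-((H : ℤ) + 1)) (by omega)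
      push_cast at h2 h3
      have e2 : (-1 + -(H : ℝ)) ^ 2 = ((H : ℝ) + 1) ^ 2 := by ring
      have e2' : (-((H : ℝ) + 1)) ^ 2 = ((H : ℝ) + 1) ^ 2 := by ring
      have h4 := tele hH1 (mul_nonneg hC hN0.le)
      have h3' : ‖c (-((H : ℤ) + 1))‖ ≤ C * N / ((H : ℝ) + 1) ^ 2 := by
        refine h3.trans (le_of_eq ?_)
        congr 1
      push_cast
      have e3 : 4 * C - 2 * C * (N / ((H : ℝ) + 1)) =
          (4 * C - 2 * C * (N / H)) + 2 * (C * N * (1 / (H : ℝ) - 1 / ((H : ℝ) + 1))) := by ring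
      rw [e3]
      linarith
  rcases le_total H N with h | h
  · refine (small H h).trans ?_
    have h1 : (H : ℝ) / N ≤ 1 := by
      rw [div_le_one hN0]
      exact_mod_cast h
    have := mul_le_mul_of_nonneg_left h1 (show 0 ≤ 2 * C by linarith)
    linarith
  · refine (big H h).trans ?_
    have : 0 ≤ 2 * C * ((N : ℝ) / H) := by positivity
    linarith

theorem tail1 {lam C : ℝ} {N : ℕ} {φ : ℝ → ℝ} {c : ℤ → ℂ} (hK : Ker lam C N φ c) (hC : 0 ≤ C)
    (H : ℕ) (hH : 1 ≤ H) (x : ℝ) :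
    ‖((φ x : ℝ) : ℂ) - (c 0 + ∑ h ∈ hs H, c h * e (h * x))‖ ≤ 2 * C * N / H := by
  have hH1 : (1 : ℝ) ≤ H := by exact_mod_cast hH
  have hN0 : (0 : ℝ) ≤ N := Nat.cast_nonneg N
  have hI : ∀ H' : ℕ, ∑ h ∈ Icc (-(H' : ℤ)) H', c h * e (h * x) = c 0 + ∑ h ∈ hs H', c h * e (h * x) := by
    intro H'
    have h0 : (0 : ℤ) ∈ Icc (-(H' : ℤ)) H' := by
      rw [mem_Icc]
      omega
    rw [← add_sum_erase _ _ h0]
    have e0 : e (((0 : ℤ) : ℝ) * x) = 1 := by
      rw [Int.cast_zero, zero_mul]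
      simp [Pool.Agent.Helper59.RE.e]
    rw [e0, mul_one]
    rfl
  have hT : Filter.Tendsto (fun H' : ℕ => Icc (-(H' : ℤ)) (H' : ℤ)) Filter.atTop Filter.atTop := by
    refine Filter.tendsto_atTop_finset_of_monotone ?_ ?_
    · intro a b hab
      apply Icc_subset_Icc
      · have : (a : ℤ) ≤ b := by exact_mod_cast hab
        linarith
      · exact_mod_cast hab
    · intro z
      refine ⟨z.natAbs, ?_⟩
      rw [mem_Icc]
      omega
  have hlim : Filter.Tendsto (fun H' : ℕ => c 0 + ∑ h ∈ hs H', c h * e (h * x)) Filter.atTop (nhds ((φ x : ℝ) : ℂ)) := by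
    have h1 := (hK.sum x).comp hT
    refine h1.congr fun H' => ?_
    exact hI H'
  have hbound : ∀ H' : ℕ, H ≤ H' → ‖(c 0 + ∑ h ∈ hs H', c h * e (h * x)) -
      (c 0 + ∑ h ∈ hs H, c h * e (h * x))‖ ≤ 2 * (C * N * (1 / (H : ℝ) - 1 / H')) := by
    intro H' hH'
    induction H', hH' using Nat.le_induction with
    | base => simp
    | succ K hK' ih =>
      have hK1 : 1 ≤ K := hH.trans hK'
      rw [hs_succ]
      have n1 : ‖c ((K : ℤ) + 1) * e ((((K : ℤ) + 1 : ℤ) : ℝ) * x)‖ ≤ C * N / ((K : ℝ) + 1) ^ 2 := by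
        rw [norm_mul, Pool.Agent.Helper59.RE.norm_e, mul_one]
        refine (hK.cd _ (by omega)).trans (le_of_eq ?_)
        push_cast
        ring
      have n2 : ‖c (-((K : ℤ) + 1)) * e (((-((K : ℤ) + 1) : ℤ) : ℝ) * x)‖ ≤ C * N / ((K : ℝ) + 1) ^ 2 := by
        rw [norm_mul, Pool.Agent.Helper59.RE.norm_e, mul_one]
        refine (hK.cd _ (by omega)).trans (le_of_eq ?_)
        push_cast
        congr 1
        ring
      have h4 := tele hK1 (mul_nonneg hC hN0)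
      have e1 : (c 0 + (∑ h ∈ hs K, c h * e (h * x) + (c ((K : ℤ) + 1) * e ((((K : ℤ) + 1 : ℤ) : ℝ) * x) +
          c (-((K : ℤ) + 1)) * e (((-((K : ℤ) + 1) : ℤ) : ℝ) * x)))) - (c 0 + ∑ h ∈ hs H, c h * e (h * x)) =
          ((c 0 + ∑ h ∈ hs K, c h * e (h * x)) - (c 0 + ∑ h ∈ hs H, c h * e (h * x))) +
          (c ((K : ℤ) + 1) * e ((((K : ℤ) + 1 : ℤ) : ℝ) * x) +
          c (-((K : ℤ) + 1)) * e (((-((K : ℤ) + 1) : ℤ) : ℝ) * x)) := by ring
      rw [e1]
      refine (norm_add_le _ _).trans ?_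
      have n3 := norm_add_le (c ((K : ℤ) + 1) * e ((((K : ℤ) + 1 : ℤ) : ℝ) * x))
        (c (-((K : ℤ) + 1)) * e (((-((K : ℤ) + 1) : ℤ) : ℝ) * x))
      push_cast
      have e3 : 2 * (C * N * (1 / (H : ℝ) - 1 / ((K : ℝ) + 1))) =
          2 * (C * N * (1 / (H : ℝ) - 1 / K)) + 2 * (C * N * (1 / (K : ℝ) - 1 / ((K : ℝ) + 1))) := by ring
      rw [e3]
      push_cast at n3 n1 n2 ih
      linarith
  refine le_of_tendsto (hlim.sub_const (c 0 + ∑ h ∈ hs H, c h * e (h * x))).norm ?_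
  filter_upwards [Filter.eventually_ge_atTop H] with H' hH'
  refine (hbound H' hH').trans ?_
  have h1 : 0 ≤ 1 / (H' : ℝ) := by positivity
  have h2 : 0 ≤ C * N := mul_nonneg hC hN0
  have h3 := mul_le_mul_of_nonneg_left (show 1 / (H : ℝ) - 1 / H' ≤ 1 / H by linarith) h2
  have e : 2 * C * N / H = 2 * (C * N * (1 / (H : ℝ))) := by ring
  rw [e]
  linarith

end Pool.Agent.Helper59.PP
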