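import Pool.Agent.Helper59.PP.Defs

/-!
# Block PP-SQ: a second moment

PROOF.  `‖∑ c_x e(X_x)‖² = ∑_(x, x') c_x conj(c_x') e(X_x - X_x')` (`Complex.mul_conj`, `RE.e_sub`), its integral is at most
`∑_x ‖c_x‖² + ∑_(x ≠ x') ‖c_x‖ ‖c_x'‖ ρ` (`integral_finsetSum`, all functions bounded and measurable (`RE.continuous_e.measurable`), and `‖∫ ..‖ ≤ ρ` for `x ≠ x'`, while the
diagonal terms have `e 0 = 1`).  `ae0`: `∑_j ∫ f_j < ∞` implies `∑_j f_j ω < ∞` almost surely (`lintegral_tsum`, `ae_lt_top`, or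
`MeasureTheory.hasSum_integral_of_summable_norm` / `integrable ...`), so `f_j ω → 0` (`Summable.tendsto_atTop_zero`).
-/

namespace Pool.Agent.Helper59.PP

open Finset MeasureTheory Filter
open scoped Topology
open Pool.Agent.Helper59.RE (e)

theorem sq_bound {Ω : Type*} [MeasurableSpace Ω] (μ : Measure Ω) [IsProbabilityMeasure μ]
    {I : Type*} (T : Finset I) (c : I → ℂ) (X : I → Ω → ℝ) (hX : ∀ x, Measurable (X x)) (ρ : ℝ)
    (hρ : 0 ≤ ρ)
    (h : ∀ x ∈ T, ∀ x' ∈ T, x ≠ x' → ‖∫ ω, e (X x ω - X x' ω) ∂μ‖ ≤ ρ) :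
    ∫ ω, ‖∑ x ∈ T, c x * e (X x ω)‖ ^ 2 ∂μ ≤
      ∑ x ∈ T, ‖c x‖ ^ 2 + (∑ x ∈ T, ‖c x‖) ^ 2 * ρ := by
  classical
  have hint : ∀ x x', Integrable (fun ω => e (X x ω - X x' ω)) μ := by
    intro x x'
    have hm : Measurable (fun ω => e (X x ω - X x' ω)) :=
      RE.continuous_e.measurable.comp ((hX x).sub (hX x'))
    refine Integrable.of_bound hm.aestronglyMeasurable 1 (Eventually.of_forall fun ω => ?_)
    rw [RE.norm_e]
  have hbd : ∀ x ∈ T, ∀ x' ∈ T, ‖∫ ω, e (X x ω - X x' ω) ∂μ‖ ≤ (if x = x' then 1 else 0) + ρ := by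
    intro x hx x' hx'
    by_cases hxx : x = x'
    · subst hxx
      have h1 : ‖∫ ω, e (X x ω - X x ω) ∂μ‖ ≤ 1 := by
        simp only [sub_self, RE.e_zero]
        simp
      rw [if_pos rfl]
      linarith
    · rw [if_neg hxx, zero_add]
      exact h x hx x' hx' hxx
  have hexp : ∀ ω, ((‖∑ x ∈ T, c x * e (X x ω)‖ ^ 2 : ℝ) : ℂ) =
      ∑ x ∈ T, ∑ x' ∈ T, (c x * (starRingEnd ℂ) (c x')) * e (X x ω - X x' ω) := by
    intro ω
    have h1 : ((‖∑ x ∈ T, c x * e (X x ω)‖ ^ 2 : ℝ) : ℂ) =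
        (∑ x ∈ T, c x * e (X x ω)) * (starRingEnd ℂ) (∑ x ∈ T, c x * e (X x ω)) := by
      rw [Complex.mul_conj, Complex.normSq_eq_norm_sq]
    rw [h1, map_sum, Finset.sum_mul_sum]
    refine Finset.sum_congr rfl fun x _ => Finset.sum_congr rfl fun x' _ => ?_
    rw [map_mul, RE.e_sub]
    ring
  have hI : ((∫ ω, ‖∑ x ∈ T, c x * e (X x ω)‖ ^ 2 ∂μ : ℝ) : ℂ) =
      ∑ x ∈ T, ∑ x' ∈ T, (c x * (starRingEnd ℂ) (c x')) * ∫ ω, e (X x ω - X x' ω) ∂μ := by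
    rw [← integral_complex_ofReal]
    simp only [hexp]
    rw [integral_finsetSum]
    · refine Finset.sum_congr rfl fun x _ => ?_
      rw [integral_finsetSum]
      · refine Finset.sum_congr rfl fun x' _ => ?_
        exact integral_const_mul _ _
      · intro x' _
        exact (hint x x').const_mul _
    · intro x _
      exact integrable_finsetSum _ fun x' _ => (hint x x').const_mul _
  have h0 : 0 ≤ ∫ ω, ‖∑ x ∈ T, c x * e (X x ω)‖ ^ 2 ∂μ := integral_nonneg fun ω => by positivity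
  calc ∫ ω, ‖∑ x ∈ T, c x * e (X x ω)‖ ^ 2 ∂μ
      = ‖((∫ ω, ‖∑ x ∈ T, c x * e (X x ω)‖ ^ 2 ∂μ : ℝ) : ℂ)‖ := by
        rw [Complex.norm_real, Real.norm_of_nonneg h0]
    _ ≤ ∑ x ∈ T, ∑ x' ∈ T, (‖c x‖ * ‖c x'‖) * ((if x = x' then 1 else 0) + ρ) := by
        rw [hI]
        refine (norm_sum_le _ _).trans (Finset.sum_le_sum fun x hx => ?_)
        refine (norm_sum_le _ _).trans (Finset.sum_le_sum fun x' hx' => ?_)
        rw [norm_mul, norm_mul, RCLike.norm_conj]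
        exact mul_le_mul_of_nonneg_left (hbd x hx x' hx') (by positivity)
    _ = ∑ x ∈ T, ‖c x‖ ^ 2 + (∑ x ∈ T, ‖c x‖) ^ 2 * ρ := by
        have e1 : ∀ x ∈ T, ∑ x' ∈ T, (‖c x‖ * ‖c x'‖) * ((if x = x' then 1 else 0) + ρ) =
            ‖c x‖ ^ 2 + ‖c x‖ * (∑ x' ∈ T, ‖c x'‖) * ρ := by
          intro x hx
          have e2 : ∀ x' ∈ T, (‖c x‖ * ‖c x'‖) * ((if x = x' then 1 else 0) + ρ) =
              (if x = x' then ‖c x‖ * ‖c x'‖ else 0) + ‖c x‖ * ‖c x'‖ * ρ := by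
            intro x' _
            split_ifs <;> ring
          rw [Finset.sum_congr rfl e2, Finset.sum_add_distrib, Finset.sum_ite_eq, if_pos hx,
            ← Finset.sum_mul, ← Finset.mul_sum]
          ring
        rw [Finset.sum_congr rfl e1, Finset.sum_add_distrib, ← Finset.sum_mul, ← Finset.sum_mul]
        ring

theorem ae0 {Ω : Type*} [MeasurableSpace Ω] (μ : Measure Ω) [IsProbabilityMeasure μ]
    (f : ℕ → Ω → ℝ) (hf : ∀ j, Integrable (f j) μ) (h0 : ∀ j ω, 0 ≤ f j ω) (b : ℕ → ℝ)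
    (hb : Summable b) (j₀ : ℕ) (h : ∀ j, j₀ ≤ j → ∫ ω, f j ω ∂μ ≤ b j) :
    ∀ᵐ ω ∂μ, Tendsto (fun j => f j ω) atTop (𝓝 0) := by
  have hb0 : ∀ j, j₀ ≤ j → 0 ≤ b j := fun j hj =>
    (integral_nonneg (fun ω => h0 j ω)).trans (h j hj)
  have hm : ∀ j, AEMeasurable (fun ω => ENNReal.ofReal (f (j + j₀) ω)) μ := fun j =>
    (hf (j + j₀)).aestronglyMeasurable.aemeasurable.ennreal_ofReal
  have h1 : ∑' j, ∫⁻ ω, ENNReal.ofReal (f (j + j₀) ω) ∂μ ≠ ⊤ := by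
    have h2 : ∀ j, ∫⁻ ω, ENNReal.ofReal (f (j + j₀) ω) ∂μ ≤ ENNReal.ofReal (b (j + j₀)) := by
      intro j
      rw [← ofReal_integral_eq_lintegral_ofReal (hf _) (Eventually.of_forall (h0 _))]
      exact ENNReal.ofReal_le_ofReal (h _ (Nat.le_add_left _ _))
    refine ne_top_of_le_ne_top ?_ (ENNReal.tsum_le_tsum h2)
    have h3 : Summable (fun j => b (j + j₀)) := (summable_nat_add_iff j₀).mpr hb
    rw [← ENNReal.ofReal_tsum_of_nonneg (fun j => hb0 _ (Nat.le_add_left _ _)) h3]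
    exact ENNReal.ofReal_ne_top
  have h4 : ∫⁻ ω, ∑' j, ENNReal.ofReal (f (j + j₀) ω) ∂μ ≠ ⊤ := by
    rw [lintegral_tsum hm]
    exact h1
  have h5 := ae_lt_top' (AEMeasurable.ennreal_tsum hm) h4
  filter_upwards [h5] with ω hω
  have h6 := ENNReal.tendsto_atTop_zero_of_tsum_ne_top hω.ne
  have h7 : Tendsto (fun j => f (j + j₀) ω) atTop (𝓝 0) := by
    have h8 := (ENNReal.tendsto_toReal ENNReal.zero_ne_top).comp h6
    have h9 : (ENNReal.toReal ∘ fun j => ENNReal.ofReal (f (j + j₀) ω)) =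
        fun j => f (j + j₀) ω := by
      funext j
      exact ENNReal.toReal_ofReal (h0 _ _)
    rw [h9] at h8
    simpa using h8
  exact (tendsto_add_atTop_iff_nat j₀).mp h7

end Pool.Agent.Helper59.PP
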