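import Pool.Agent.Helper59.PP.Defs

/-!
# Project PP: the counts as cardinalities of sets
-/

namespace Pool.Agent.Helper59.PP

open Finset MeasureTheory Filter

theorem cnt_ncard {r : ℕ} (v : ℕ → ℝ) (α β : Fin r → ℝ) (n : ℕ) (t : ℝ) :
    cntS v α β (range n) n t = {i : ℕ | i < n ∧ ∃ l : Fin r, ∃ m : ℤ,
      α l ≤ n * (v i - t + m) ∧ n * (v i - t + m) < β l}.ncard := by
  classical
  unfold cntS
  rw [← Set.ncard_coe_finset]
  congr 1
  ext i
  rw [mem_coe, mem_filter, mem_range]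
  exact Iff.rfl

theorem gap_ncard (v : ℕ → ℝ) (n : ℕ) (s : ℝ) :
    ((range n).filter (fun i => ∀ l < n, l ≠ i → s < n * Int.fract (v l - v i))).card =
      {i : ℕ | i < n ∧ ∀ l < n, l ≠ i → s < n * Int.fract (v l - v i)}.ncard := by
  rw [← Set.ncard_coe_finset]
  congr 1
  ext i
  rw [mem_coe, mem_filter, mem_range]
  exact Iff.rfl

end Pool.Agent.Helper59.PP
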