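import Pool.Agent.Helper59.PP.Defs

/-!
# Block PP-BONF: factorial moments determine the Poisson law

PROOF.  Let `p_j i = volume.real {t ∈ [0,1) | C j t = i}` and `F_j k = ∫_0^1 (C j t).choose k`.
1. For naturals `c, i, M`, `i ≤ M`: `|1_(c = i) - ∑_(k ∈ Icc i M) (-1)^(k-i) (k.choose i) (c.choose k)| ≤ ((M+1).choose i) (c.choose (M+1))`.
   Indeed `(k.choose i)(c.choose k) = (c.choose i)((c-i).choose (k-i))` (`Nat.choose_mul`), so the sum is `(c.choose i) ∑_(r ≤ M - i) (-1)^r ((c-i).choose r)`, which is `1_(c=i)` if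
   `c ≤ i`, and for `c > i` it is `(c.choose i) (-1)^(M-i) ((c-i-1).choose (M-i))` (`Int.alternating_sum_range_choose_eq_choose`, or induction on `M`), whose absolute value is at most
   `(c.choose i) ((c-i).choose (M+1-i))` if `c ≥ M + 1`, while for `i < c ≤ M` it is `0`: note `(c-i-1).choose (M-i) ≤ (c-i).choose (M+1-i)` by Pascal's rule.
2. Integrate: `|p_j i - ∑_(k ∈ Icc i M) (-1)^(k-i) (k.choose i) F_j k| ≤ ((M+1).choose i) F_j (M+1)`.
3. `j → ∞`: the sum tends to `∑_(k ∈ Icc i M) (-1)^(k-i) (k.choose i) lam^k / k! = lam^i / i! ∑_(r ≤ M-i) (-lam)^r / r!`, the error to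
   `((M+1).choose i) lam^(M+1) / (M+1)!`, which tends to `0` as `M → ∞` (it is `lam^(M+1) / (i! (M+1-i)!)`), and `∑_(r ≤ M-i) (-lam)^r / r! → exp (-lam)`
   (`NormedSpace.expSeries_..` / `Real.hasSum_exp`).  `ε / 3` argument.
-/

namespace Pool.Agent.Helper59.PP

open Finset MeasureTheory Filter
open scoped Topology

private theorem alt_h54 (n m : ℕ) :
    ∑ r ∈ range (m + 1), (-1 : ℝ) ^ r * ((n + 1).choose r : ℝ) = (-1) ^ m * (n.choose m : ℝ) := by
  induction m with
  | zero => simp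
  | succ m ih =>
    rw [sum_range_succ, ih, Nat.choose_succ_succ' n m]
    push_cast
    ring

/-- The pointwise Bonferroni inequality. -/
private theorem pt_h54 (c i m : ℕ) :
    |(if c = i then (1 : ℝ) else 0) -
      ∑ r ∈ range (m + 1), (-1 : ℝ) ^ r * (((i + r).choose i : ℝ) * (c.choose (i + r) : ℝ))| ≤
      ((i + m + 1).choose i : ℝ) * (c.choose (i + m + 1) : ℝ) := by
  have hk : ∀ r : ℕ, ((i + r).choose i : ℝ) * (c.choose (i + r) : ℝ) =
      (c.choose i : ℝ) * ((c - i).choose r : ℝ) := by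
    intro r
    have h := Nat.choose_mul (n := c) (k := i + r) (s := i) (Nat.le_add_right i r)
    rw [Nat.add_sub_cancel_left] at h
    have h2 : ((c.choose (i + r) * (i + r).choose i : ℕ) : ℝ) = ((c.choose i * (c - i).choose r : ℕ) : ℝ) := by
      rw [h]
    push_cast at h2
    rw [mul_comm, h2]
  have hs : ∑ r ∈ range (m + 1), (-1 : ℝ) ^ r * (((i + r).choose i : ℝ) * (c.choose (i + r) : ℝ)) =
      (c.choose i : ℝ) * ∑ r ∈ range (m + 1), (-1 : ℝ) ^ r * ((c - i).choose r : ℝ) := by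
    rw [mul_sum]
    refine sum_congr rfl fun r _ => ?_
    rw [hk r]
    ring
  rw [hs, show i + m + 1 = i + (m + 1) from rfl, hk (m + 1)]
  rcases Nat.lt_trichotomy c i with hci | hci | hci
  · rw [if_neg hci.ne, Nat.choose_eq_zero_of_lt hci]
    simp
  · subst hci
    rw [if_pos rfl, Nat.sub_self, Nat.choose_self, sum_range_succ']
    have h0 : ∑ k ∈ range m, (-1 : ℝ) ^ (k + 1) * ((Nat.choose 0 (k + 1) : ℕ) : ℝ) = 0 :=
      sum_eq_zero fun k _ => by simp
    rw [h0]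
    simp
  · rw [if_neg hci.ne']
    obtain ⟨n, hn⟩ : ∃ n, c - i = n + 1 := ⟨c - i - 1, by omega⟩
    rw [hn, alt_h54, zero_sub, abs_neg, abs_mul, abs_mul, abs_pow, abs_neg, abs_one, one_pow, one_mul,
      Nat.abs_cast, Nat.abs_cast, Nat.choose_succ_succ' n m]
    refine mul_le_mul_of_nonneg_left ?_ (Nat.cast_nonneg _)
    push_cast
    linarith [(Nat.cast_nonneg (n.choose (m + 1)) : (0 : ℝ) ≤ _)]

private theorem intg_h54 {C : ℝ → ℕ} (hm : Measurable C) {M : ℕ} (hb : ∀ t, C t ≤ M) (g : ℕ → ℝ) :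
    IntervalIntegrable (fun t => g (C t)) volume 0 1 := by
  have h1 : Measurable fun t => g (C t) := (measurable_from_nat (f := g)).comp hm
  refine (intervalIntegrable_const (c := ∑ k ∈ range (M + 1), |g k|)).mono_fun h1.aestronglyMeasurable
    (ae_of_all _ fun t => ?_)
  change ‖g (C t)‖ ≤ ‖∑ k ∈ range (M + 1), |g k|‖
  rw [Real.norm_eq_abs, Real.norm_eq_abs]
  refine le_trans ?_ (le_abs_self _)
  exact single_le_sum (f := fun k => |g k|) (fun k _ => abs_nonneg _)
    (mem_range.2 (Nat.lt_succ_of_le (hb t)))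

private theorem vol_h54 {C : ℝ → ℕ} (hm : Measurable C) (i : ℕ) :
    volume.real {t : ℝ | t ∈ Set.Ico (0 : ℝ) 1 ∧ C t = i} =
      ∫ t in (0 : ℝ)..1, (if C t = i then (1 : ℝ) else 0) := by
  have hS : MeasurableSet {t : ℝ | C t = i} := hm (measurableSet_singleton i)
  rw [intervalIntegral.integral_of_le zero_le_one, ← integral_Ico_eq_integral_Ioc]
  have h1 : (fun t => if C t = i then (1 : ℝ) else 0) = {t : ℝ | C t = i}.indicator 1 := by
    funext t
    by_cases h : C t = i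
    · rw [Set.indicator_of_mem (show t ∈ {t : ℝ | C t = i} from h), if_pos h]
      rfl
    · rw [Set.indicator_of_notMem (show t ∉ {t : ℝ | C t = i} from h), if_neg h]
  rw [h1, integral_indicator_one hS, measureReal_restrict_apply hS]
  congr 1
  ext t
  exact and_comm

private theorem int_h54 {C : ℝ → ℕ} (hm : Measurable C) {M : ℕ} (hb : ∀ t, C t ≤ M) (i m : ℕ) :
    |volume.real {t : ℝ | t ∈ Set.Ico (0 : ℝ) 1 ∧ C t = i} -
      ∑ r ∈ range (m + 1), (-1 : ℝ) ^ r * (((i + r).choose i : ℝ) *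
        ∫ t in (0 : ℝ)..1, ((C t).choose (i + r) : ℝ))| ≤
      ((i + m + 1).choose i : ℝ) * ∫ t in (0 : ℝ)..1, ((C t).choose (i + m + 1) : ℝ) := by
  rw [vol_h54 hm i]
  have e1 : ∑ r ∈ range (m + 1), (-1 : ℝ) ^ r * (((i + r).choose i : ℝ) *
        ∫ t in (0 : ℝ)..1, ((C t).choose (i + r) : ℝ)) =
      ∫ t in (0 : ℝ)..1, ∑ r ∈ range (m + 1), (-1 : ℝ) ^ r *
        (((i + r).choose i : ℝ) * ((C t).choose (i + r) : ℝ)) := by
    rw [intervalIntegral.integral_finsetSum fun r _ => intg_h54 hm hb fun c =>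
      (-1 : ℝ) ^ r * (((i + r).choose i : ℝ) * (c.choose (i + r) : ℝ))]
    refine sum_congr rfl fun r _ => ?_
    rw [intervalIntegral.integral_const_mul, intervalIntegral.integral_const_mul]
  rw [e1, ← intervalIntegral.integral_sub (intg_h54 hm hb fun c => if c = i then (1 : ℝ) else 0)
    (intg_h54 hm hb fun c => ∑ r ∈ range (m + 1), (-1 : ℝ) ^ r *
        (((i + r).choose i : ℝ) * (c.choose (i + r) : ℝ)))]
  rw [← intervalIntegral.integral_const_mul]
  refine (intervalIntegral.abs_integral_le_integral_abs zero_le_one).trans ?_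
  refine intervalIntegral.integral_mono_on zero_le_one
    (intg_h54 hm hb fun c => |(if c = i then (1 : ℝ) else 0) -
      ∑ r ∈ range (m + 1), (-1 : ℝ) ^ r * (((i + r).choose i : ℝ) * (c.choose (i + r) : ℝ))|)
    (intg_h54 hm hb fun c => ((i + m + 1).choose i : ℝ) * (c.choose (i + m + 1) : ℝ)) ?_
  intro t _
  exact pt_h54 (C t) i m

private theorem cf_h54 (i r : ℕ) (lam : ℝ) :
    ((i + r).choose i : ℝ) * (lam ^ (i + r) / (i + r).factorial) =
      lam ^ i / i.factorial * (lam ^ r / r.factorial) := by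
  have h1 := Nat.add_choose_mul_factorial_mul_factorial i r
  rw [← Nat.choose_symm_add] at h1
  have h2 : ((i + r).choose i : ℝ) * (i.factorial : ℝ) * (r.factorial : ℝ) = ((i + r).factorial : ℝ) := by
    exact_mod_cast h1
  have h3 : (i.factorial : ℝ) ≠ 0 := Nat.cast_ne_zero.2 (Nat.factorial_ne_zero _)
  have h4 : (r.factorial : ℝ) ≠ 0 := Nat.cast_ne_zero.2 (Nat.factorial_ne_zero _)
  have h5 : ((i + r).factorial : ℝ) ≠ 0 := Nat.cast_ne_zero.2 (Nat.factorial_ne_zero _)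
  rw [pow_add]
  field_simp
  rw [← h2]
  ring

theorem bonf (C : ℕ → ℝ → ℕ) (hm : ∀ j, Measurable (C j)) (hb : ∀ j, ∃ M, ∀ t, C j t ≤ M)
    (lam : ℝ) (h : ∀ k : ℕ, Tendsto (fun j => ∫ t in (0 : ℝ)..1, ((C j t).choose k : ℝ)) atTop
      (𝓝 (lam ^ k / k.factorial))) (i : ℕ) :
    Tendsto (fun j => volume.real {t : ℝ | t ∈ Set.Ico (0 : ℝ) 1 ∧ C j t = i}) atTop
      (𝓝 (Real.exp (-lam) * lam ^ i / i.factorial)) := by
  set p : ℕ → ℝ := fun j => volume.real {t : ℝ | t ∈ Set.Ico (0 : ℝ) 1 ∧ C j t = i} with hp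
  set S : ℕ → ℕ → ℝ := fun m j => ∑ r ∈ range (m + 1), (-1 : ℝ) ^ r * (((i + r).choose i : ℝ) *
        ∫ t in (0 : ℝ)..1, ((C j t).choose (i + r) : ℝ)) with hSd
  set E : ℕ → ℕ → ℝ := fun m j => ((i + m + 1).choose i : ℝ) *
    ∫ t in (0 : ℝ)..1, ((C j t).choose (i + m + 1) : ℝ) with hEd
  have hmain : ∀ m j, |p j - S m j| ≤ E m j := by
    intro m j
    obtain ⟨M, hM⟩ := hb j
    exact int_h54 (hm j) hM i m
  have hS : ∀ m, Tendsto (S m) atTop (𝓝 (lam ^ i / i.factorial *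
      ∑ r ∈ range (m + 1), (-lam) ^ r / r.factorial)) := by
    intro m
    have h1 : Tendsto (S m) atTop (𝓝 (∑ r ∈ range (m + 1), (-1 : ℝ) ^ r * (((i + r).choose i : ℝ) *
        (lam ^ (i + r) / (i + r).factorial)))) :=
      tendsto_finsetSum _ fun r _ => ((h (i + r)).const_mul _).const_mul _
    have h2 : ∑ r ∈ range (m + 1), (-1 : ℝ) ^ r * (((i + r).choose i : ℝ) *
        (lam ^ (i + r) / (i + r).factorial)) = lam ^ i / i.factorial *
        ∑ r ∈ range (m + 1), (-lam) ^ r / r.factorial := by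
      rw [mul_sum]
      refine sum_congr rfl fun r _ => ?_
      rw [cf_h54, neg_pow lam r]
      ring
    rwa [h2] at h1
  have hE : ∀ m, Tendsto (E m) atTop (𝓝 (lam ^ i / i.factorial *
      (lam ^ (m + 1) / (m + 1).factorial))) := by
    intro m
    have h1 : Tendsto (E m) atTop (𝓝 (((i + m + 1).choose i : ℝ) *
        (lam ^ (i + m + 1) / (i + m + 1).factorial))) := (h (i + m + 1)).const_mul _
    have h2 := cf_h54 i (m + 1) lam
    rw [← add_assoc] at h2
    rwa [h2] at h1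
  have hS2 : Tendsto (fun m : ℕ => lam ^ i / i.factorial *
      ∑ r ∈ range (m + 1), (-lam) ^ r / r.factorial) atTop
      (𝓝 (Real.exp (-lam) * lam ^ i / i.factorial)) := by
    have h1 := (NormedSpace.expSeries_div_hasSum_exp (-lam : ℝ)).tendsto_sum_nat
    rw [← Real.exp_eq_exp_ℝ] at h1
    have h2 := ((tendsto_add_atTop_iff_nat 1).2 h1).const_mul (lam ^ i / i.factorial)
    have h3 : lam ^ i / (i.factorial : ℝ) * Real.exp (-lam) = Real.exp (-lam) * lam ^ i / i.factorial := by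
      ring
    rw [h3] at h2
    exact h2
  have hE2 : Tendsto (fun m : ℕ => lam ^ i / i.factorial * (lam ^ (m + 1) / (m + 1).factorial)) atTop
      (𝓝 0) := by
    have h1 := FloorSemiring.tendsto_pow_div_factorial_atTop (lam : ℝ)
    have h2 := ((tendsto_add_atTop_iff_nat 1).2 h1).const_mul (lam ^ i / i.factorial)
    rw [mul_zero] at h2
    exact h2
  rw [Metric.tendsto_nhds]
  intro ε hε
  have hε3 : 0 < ε / 4 := by positivity
  have a1 := (Metric.tendsto_nhds.1 hS2) (ε / 4) hε3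
  have a2 := (Metric.tendsto_nhds.1 hE2) (ε / 4) hε3
  obtain ⟨m, hm1, hm2⟩ := (a1.and a2).exists
  filter_upwards [(Metric.tendsto_nhds.1 (hS m)) (ε / 4) hε3,
    (Metric.tendsto_nhds.1 (hE m)) (ε / 4) hε3] with j h1 h2
  rw [Real.dist_eq] at hm1 hm2 h1 h2 ⊢
  have h3 := hmain m j
  rw [sub_zero] at hm2
  have b1 := abs_lt.1 hm1
  have b2 := abs_lt.1 hm2
  have b3 := abs_lt.1 h1
  have b4 := abs_lt.1 h2
  have b5 := abs_le.1 h3
  rw [abs_lt]
  constructor <;> linarith [b1.1, b1.2, b2.1, b2.2, b3.1, b3.2, b4.1, b4.2, b5.1, b5.2]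

end Pool.Agent.Helper59.PP
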