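import Pool.Agent.Helper59.PP.Esym

/-!
# Block PP-CNT: counting points in `U / N`

PROOF.
* `meas_inU`: `{x | InU α β N x} = ⋃_l ⋃_m {x | α l ≤ N (x + m) ∧ N (x + m) < β l}` (`MeasurableSet.iUnion`, countable).
* `meas_cnt`: for `j : ℕ` the set `{t | cntS .. t = j}` is measurable: `cntS .. t = ∑_(i ∈ S) if InU (v i - t) then 1 else 0` (`Finset.card_filter`), a finite sum of measurable
  functions (`Measurable.ite`, `Finset.measurable_sum`).
* `cnt_le_fm`, `fm_le_cnt`: `(cntS .. t).choose k = es S k (indicator)` (`es_ind`) and `es_mono`, then `intervalIntegral.integral_mono_on` (bounded measurable functions on `[0, 1]`;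
  `φ` continuous).
* `vol_inU`: `{t ∈ [0,1) | InU α β N (x - t)}` has measure `≤ ∑_l (β l - α l) / N`: for each `l` the set of `t ∈ [0, 1)` with
  `x - t + m ∈ [α l / N, β l / N)` for some integer `m`; `∑_m vol ((x + m - [α/N, β/N)) ∩ [0, 1)) = vol (interval)`: the function `t ↦ ∑_m 1_I (t - m)`..; a convenient way: the set of
  `t ∈ [0,1)` whose class modulo one meets an interval `I` has measure at most `vol I` (`measure_iUnion_le`, translation invariance: `∑_m vol ((I + m) ∩ [0,1))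
  = ∑_m vol (I ∩ [-m, 1-m)) = vol I`, `measure_iUnion`).
* `vol_add`: for measurable `A ⊆ [0,1)` etc. see the statement.
-/

namespace Pool.Agent.Helper59.PP

open Finset MeasureTheory

theorem meas_inU {r : ℕ} (α β : Fin r → ℝ) (N : ℕ) : MeasurableSet {x : ℝ | InU α β N x} := by
  have h : {x : ℝ | InU α β N x} =
      ⋃ l : Fin r, ⋃ m : ℤ, {x : ℝ | α l ≤ N * (x + m) ∧ N * (x + m) < β l} := by
    ext x
    simp [InU]
  rw [h]
  refine MeasurableSet.iUnion fun l => MeasurableSet.iUnion fun m => ?_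
  have hm : Measurable fun x : ℝ => (N : ℝ) * (x + m) := by fun_prop
  exact (measurableSet_le measurable_const hm).inter (measurableSet_lt hm measurable_const)

theorem meas_cnt {r : ℕ} (v : ℕ → ℝ) (α β : Fin r → ℝ) (S : Finset ℕ) (N : ℕ) :
    Measurable (fun t : ℝ => cntS v α β S N t) := by
  classical
  have h : (fun t : ℝ => cntS v α β S N t) =
      fun t => ∑ i ∈ S, if InU α β N (v i - t) then 1 else 0 := by
    funext t
    unfold cntS
    rw [Finset.card_filter]
  rw [h]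
  refine Finset.measurable_sum _ fun i _ => Measurable.ite ?_ measurable_const measurable_const
  exact (by fun_prop : Measurable fun t : ℝ => v i - t) (meas_inU α β N)

private theorem int_cnt_h5 {r : ℕ} (v : ℕ → ℝ) (α β : Fin r → ℝ) (S : Finset ℕ) (N k : ℕ) :
    IntervalIntegrable (fun t : ℝ => ((cntS v α β S N t).choose k : ℝ)) volume 0 1 := by
  rw [intervalIntegrable_iff_integrableOn_Ioc_of_le zero_le_one]
  refine Measure.integrableOn_of_bounded (M := (S.card.choose k : ℝ)) (by simp) ?_ ?_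
  · refine Measurable.aestronglyMeasurable ?_
    exact (Measurable.of_discrete (f := fun n : ℕ => (n.choose k : ℝ))).comp (meas_cnt v α β S N)
  · refine Filter.Eventually.of_forall fun t => ?_
    rw [Real.norm_of_nonneg (Nat.cast_nonneg _)]
    have h : cntS v α β S N t ≤ S.card := by
      classical
      unfold cntS
      exact Finset.card_filter_le _ _
    exact_mod_cast Nat.choose_le_choose k h

private theorem int_es_h5 (v : ℕ → ℝ) (S : Finset ℕ) (k : ℕ) (φ : ℝ → ℝ) (hφ : Continuous φ) :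
    IntervalIntegrable (fun t : ℝ => es S k (fun i => φ (v i - t))) volume 0 1 := by
  refine Continuous.intervalIntegrable ?_ _ _
  unfold es
  exact continuous_finsetSum _ fun B _ => continuous_finsetProd _ fun i _ =>
    hφ.comp (by fun_prop)

open Classical in
private theorem cnt_eq_h5 {r : ℕ} (v : ℕ → ℝ) (α β : Fin r → ℝ) (S : Finset ℕ) (N k : ℕ) (t : ℝ) :
    ((cntS v α β S N t).choose k : ℝ) =
      es S k (fun i => if InU α β N (v i - t) then (1 : ℝ) else 0) := by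
  rw [es_ind]
  rfl

theorem cnt_le_fm {r : ℕ} (v : ℕ → ℝ) (α β : Fin r → ℝ) (S : Finset ℕ) (N k : ℕ) (φ : ℝ → ℝ)
    (hφ : Continuous φ) (h0 : ∀ x, 0 ≤ φ x) (h1 : ∀ x, InU α β N x → 1 ≤ φ x) :
    ∫ t in (0 : ℝ)..1, ((cntS v α β S N t).choose k : ℝ) ≤ FM φ S k v := by
  classical
  unfold FM
  refine intervalIntegral.integral_mono_on zero_le_one (int_cnt_h5 v α β S N k)
    (int_es_h5 v S k φ hφ) fun t _ => ?_
  rw [cnt_eq_h5]
  refine es_mono S k _ _ (fun i _ => ?_) fun i _ => ?_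
  · split_ifs <;> norm_num
  · split_ifs with h
    · exact h1 _ h
    · exact h0 _

theorem fm_le_cnt {r : ℕ} (v : ℕ → ℝ) (α β : Fin r → ℝ) (S : Finset ℕ) (N k : ℕ) (φ : ℝ → ℝ)
    (hφ : Continuous φ) (h0 : ∀ x, 0 ≤ φ x) (h1 : ∀ x, φ x ≤ 1 ∧ (φ x ≠ 0 → InU α β N x)) :
    FM φ S k v ≤ ∫ t in (0 : ℝ)..1, ((cntS v α β S N t).choose k : ℝ) := by
  classical
  unfold FM
  refine intervalIntegral.integral_mono_on zero_le_one (int_es_h5 v S k φ hφ)
    (int_cnt_h5 v α β S N k) fun t _ => ?_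
  rw [cnt_eq_h5]
  refine es_mono S k _ _ (fun i _ => h0 _) fun i _ => ?_
  split_ifs with h
  · exact (h1 _).1
  · by_contra hc
    exact h ((h1 _).2 (fun e => hc (le_of_eq e)))

private theorem vol_one_h5 (a b : ℝ) :
    volume {t : ℝ | t ∈ Set.Ico (0 : ℝ) 1 ∧ ∃ m : ℤ, t + m ∈ Set.Ioc a b} ≤ ENNReal.ofReal (b - a) := by
  have h : {t : ℝ | t ∈ Set.Ico (0 : ℝ) 1 ∧ ∃ m : ℤ, t + m ∈ Set.Ioc a b} ⊆
      ⋃ m : ℤ, (fun t : ℝ => t + (m : ℝ)) ⁻¹' (Set.Ioc a b ∩ Set.Ico (m : ℝ) (m + 1)) := by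
    rintro t ⟨ht, m, hm⟩
    refine Set.mem_iUnion.2 ⟨m, hm, ?_, ?_⟩
    · linarith [ht.1]
    · linarith [ht.2]
  refine (measure_mono h).trans ((measure_iUnion_le _).trans ?_)
  have h2 : ∀ m : ℤ, volume ((fun t : ℝ => t + (m : ℝ)) ⁻¹' (Set.Ioc a b ∩ Set.Ico (m : ℝ) (m + 1))) =
      volume (Set.Ioc a b ∩ Set.Ico (m : ℝ) (m + 1)) := fun m => measure_preimage_add_right _ _ _
  simp only [h2]
  rw [← measure_iUnion, ← Set.inter_iUnion, iUnion_Ico_intCast, Set.inter_univ, Real.volume_Ioc]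
  · exact fun i j hij => (Set.pairwise_disjoint_Ico_intCast ℝ hij).mono Set.inter_subset_right
      Set.inter_subset_right
  · exact fun m => measurableSet_Ioc.inter measurableSet_Ico

theorem vol_inU {r : ℕ} (α β : Fin r → ℝ) (hαβ : ∀ l, α l ≤ β l) (N : ℕ) (hN : 1 ≤ N) (x : ℝ) :
    volume.real {t : ℝ | t ∈ Set.Ico (0 : ℝ) 1 ∧ InU α β N (x - t)} ≤ (∑ l, (β l - α l)) / N := by
  have hN0 : (0 : ℝ) < N := by exact_mod_cast hN
  have hnn : ∀ l, 0 ≤ (β l - α l) / N := fun l => div_nonneg (by linarith [hαβ l]) hN0.le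
  have hsub : {t : ℝ | t ∈ Set.Ico (0 : ℝ) 1 ∧ InU α β N (x - t)} ⊆
      ⋃ l : Fin r, {t : ℝ | t ∈ Set.Ico (0 : ℝ) 1 ∧ ∃ m : ℤ, t + m ∈ Set.Ioc (x - β l / N) (x - α l / N)} := by
    rintro t ⟨ht, l, m, h1, h2⟩
    refine Set.mem_iUnion.2 ⟨l, ht, -m, ?_, ?_⟩
    · have h3 : x - t + m < β l / N := by
        rw [lt_div_iff₀ hN0]
        linarith
      push_cast
      linarith
    · have h3 : α l / N ≤ x - t + m := by
        rw [div_le_iff₀ hN0]
        linarith
      push_cast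
      linarith
  have hle : volume {t : ℝ | t ∈ Set.Ico (0 : ℝ) 1 ∧ InU α β N (x - t)} ≤
      ENNReal.ofReal ((∑ l, (β l - α l)) / N) := by
    refine (measure_mono hsub).trans ((measure_iUnion_le _).trans ?_)
    rw [tsum_fintype, Finset.sum_div, ENNReal.ofReal_sum_of_nonneg fun l _ => hnn l]
    refine Finset.sum_le_sum fun l _ => (vol_one_h5 _ _).trans (le_of_eq ?_)
    congr 1
    ring
  refine ENNReal.toReal_le_of_le_ofReal ?_ hle
  rw [Finset.sum_div]
  exact Finset.sum_nonneg fun l _ => hnn l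

end Pool.Agent.Helper59.PP
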