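import Pool.Agent.Helper59.PP.TrapB

/-!
# Block PP-KERP: smooth majorants and minorants of the set `U / N`

PROOF.  `φ x = ∑_l tz (a l) (b l) η x`, `c h = ∑_l tzc (a l) (b l) η h`.
* `ker_plus`: `a l = α l / N`, `b l = β l / N`, `η = ε / N`; `c 0 = ∑ (β l - α l + ε) / N`; `C = ∑_l (β l - α l + ε) + r / ε + r`; `N₀ ≥ 1` such that
  `β l - α l + 2 ε ≤ N₀` for all `l`.  `InU`: `α l ≤ N (x + m) < β l` gives `tz .. = 1` by `tz_one`, the others are `≥ 0`.
* `ker_minus`: `a l = (α l + ε) / N`, `b l = (β l - ε) / N`, `η = ε / N`; `c 0 = ∑ (β l - α l - ε) / N`; `C` as before.  `N₀` such that also `β l - α l' < N₀` for all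
  `l, l'`.  If `tz (a l) (b l) η x ≠ 0` and `tz (a l') (b l') η x ≠ 0` then `α l < N (x + m) < β l`, `α l' < N (x + m') < β l'` by `tz_supp`; if `m = m'` and `l ≠ l'`
  this contradicts `hsep`, and if `m ≠ m'` then `N ≤ N |m - m'| < max (β l - α l') (β l' - α l) < N₀`.  So at most one summand is not zero and `φ x ≤ 1`.
-/

namespace Pool.Agent.Helper59.PP

open Finset
open Pool.Agent.Helper59.RE (e)

private lemma ker_core (r : ℕ) (a b : Fin r → ℝ) (ε : ℝ) (hε : 0 < ε) (hab : ∀ l, a l ≤ b l) (N : ℕ) (hN : 1 ≤ N)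
    (hsm : ∀ l, b l - a l + 2 * ε ≤ N) (lam C : ℝ) (hlam : ∑ l, (b l - a l + ε) = lam)
    (hC : ∑ l, (b l - a l + ε) + r / ε + r ≤ C) :
    Ker lam C N (fun x => ∑ l, tz (a l / N) (b l / N) (ε / N) x)
      (fun h => ∑ l, tzc (a l / N) (b l / N) (ε / N) h) := by
  have hN0 : (0 : ℝ) < N := by exact_mod_cast hN
  have hη : 0 < ε / N := by positivity
  have hab' : ∀ l, a l / N ≤ b l / N := fun l => div_le_div_of_nonneg_right (hab l) hN0.le
  have hsm' : ∀ l, b l / N - a l / N + 2 * (ε / N) ≤ 1 := by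
    intro l
    have h : b l / N - a l / N + 2 * (ε / N) = (b l - a l + 2 * ε) / N := by ring
    rw [h, div_le_one hN0]
    exact hsm l
  have hs0 : 0 ≤ ∑ l, (b l - a l + ε) := Finset.sum_nonneg (fun l _ => by linarith [hab l])
  have hr0 : (0 : ℝ) ≤ r := Nat.cast_nonneg r
  have hre : 0 ≤ (r : ℝ) / ε := by positivity
  have hsum : ∑ l, (b l / N - a l / N + ε / N) = (∑ l, (b l - a l + ε)) / N := by
    rw [Finset.sum_div]
    exact Finset.sum_congr rfl (fun l _ => by ring)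
  constructor
  · intro x
    exact Finset.sum_nonneg (fun l _ => (tz_nn _ _ _ (hab' l) hη (hsm' l) x).1)
  · intro x
    calc ∑ l, tz (a l / N) (b l / N) (ε / N) x ≤ ∑ l : Fin r, (1 : ℝ) :=
          Finset.sum_le_sum (fun l _ => (tz_nn _ _ _ (hab' l) hη (hsm' l) x).2)
      _ = r := by simp
      _ ≤ C := by linarith
  · have h1 : ∀ l, tzc (a l / N) (b l / N) (ε / N) 0 = ((b l / N - a l / N + ε / N : ℝ) : ℂ) := by
      intro l
      simp [tzc]
    simp only [h1]
    rw [← Complex.ofReal_sum, hsum, hlam]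
  · intro h
    calc ‖∑ l, tzc (a l / N) (b l / N) (ε / N) h‖ ≤ ∑ l, ‖tzc (a l / N) (b l / N) (ε / N) h‖ := norm_sum_le _ _
      _ ≤ ∑ l, (b l / N - a l / N + ε / N) := Finset.sum_le_sum (fun l _ => tzc_le _ _ _ (hab' l) hη h)
      _ = (∑ l, (b l - a l + ε)) / N := hsum
      _ ≤ C / N := div_le_div_of_nonneg_right (by linarith) hN0.le
  · intro h h0
    have hh : (0 : ℝ) < (h : ℝ) ^ 2 := by positivity
    calc ‖∑ l, tzc (a l / N) (b l / N) (ε / N) h‖ ≤ ∑ l, ‖tzc (a l / N) (b l / N) (ε / N) h‖ := norm_sum_le _ _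
      _ ≤ ∑ l : Fin r, 1 / (ε / N * (h : ℝ) ^ 2) := Finset.sum_le_sum (fun l _ => tzc_le2 _ _ _ hη h h0)
      _ = r / ε * N / (h : ℝ) ^ 2 := by
          simp only [Finset.sum_const, Finset.card_univ, Fintype.card_fin, nsmul_eq_mul]
          field_simp
      _ ≤ C * N / (h : ℝ) ^ 2 := by
          apply div_le_div_of_nonneg_right _ hh.le
          apply mul_le_mul_of_nonneg_right _ hN0.le
          linarith
  · intro x
    have h1 : HasSum (fun h : ℤ => ∑ l, tzc (a l / N) (b l / N) (ε / N) h * e (h * x))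
        (∑ l, ((tz (a l / N) (b l / N) (ε / N) x : ℝ) : ℂ)) :=
      hasSum_sum (fun l _ => tz_sum _ _ _ hη x)
    have h2 : (((∑ l, tz (a l / N) (b l / N) (ε / N) x : ℝ)) : ℂ) =
        ∑ l, ((tz (a l / N) (b l / N) (ε / N) x : ℝ) : ℂ) := by
      push_cast
      rfl
    rw [h2]
    refine h1.congr_fun ?_
    intro h
    rw [Finset.sum_mul]

theorem ker_plus (r : ℕ) (α β : Fin r → ℝ) (hαβ : ∀ l, α l < β l) (ε : ℝ) (hε : 0 < ε) :
    ∃ (C : ℝ) (N₀ : ℕ), 0 ≤ C ∧ ∀ N : ℕ, N₀ ≤ N → ∃ (φ : ℝ → ℝ) (c : ℤ → ℂ),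
      Ker (∑ l, (β l - α l) + r * ε) C N φ c ∧ ∀ x, InU α β N x → 1 ≤ φ x := by
  set M : ℝ := ∑ l, |β l - α l| with hM
  have hMl : ∀ l, β l - α l ≤ M := by
    intro l
    calc β l - α l ≤ |β l - α l| := le_abs_self _
      _ ≤ M := Finset.single_le_sum (f := fun l => |β l - α l|) (fun l _ => abs_nonneg _) (Finset.mem_univ l)
  have hs0 : 0 ≤ ∑ l, (β l - α l + ε) := Finset.sum_nonneg (fun l _ => by linarith [hαβ l])
  have hr0 : (0 : ℝ) ≤ r := Nat.cast_nonneg r
  have hre : 0 ≤ (r : ℝ) / ε := by positivity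
  refine ⟨∑ l, (β l - α l + ε) + r / ε + r, ⌈M + 2 * ε⌉₊ + 1, by linarith, ?_⟩
  intro N hN
  have hN1 : 1 ≤ N := by omega
  have hN0 : (0 : ℝ) < N := by exact_mod_cast hN1
  have hNM : M + 2 * ε ≤ N := by
    have h1 := Nat.le_ceil (M + 2 * ε)
    have h2 : ((⌈M + 2 * ε⌉₊ : ℕ) : ℝ) ≤ N := by exact_mod_cast (by omega : ⌈M + 2 * ε⌉₊ ≤ N)
    linarith
  have hsm : ∀ l, β l - α l + 2 * ε ≤ N := fun l => by linarith [hMl l]
  refine ⟨_, _, ker_core r α β ε hε (fun l => (hαβ l).le) N hN1 hsm _ _ ?_ le_rfl, ?_⟩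
  · rw [Finset.sum_add_distrib]
    simp
  · rintro x ⟨l, m, h1, h2⟩
    have hη : 0 < ε / N := by positivity
    have hab' : ∀ l, α l / N ≤ β l / N := fun l => div_le_div_of_nonneg_right (hαβ l).le hN0.le
    have hsm' : ∀ l, β l / N - α l / N + 2 * (ε / N) ≤ 1 := by
      intro l
      have h : β l / N - α l / N + 2 * (ε / N) = (β l - α l + 2 * ε) / N := by ring
      rw [h, div_le_one hN0]
      exact hsm l
    have h3 : tz (α l / N) (β l / N) (ε / N) x = 1 := by
      apply tz_one _ _ _ (hab' l) hη (hsm' l) x m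
      · rw [div_le_iff₀ hN0]
        linarith
      · rw [le_div_iff₀ hN0]
        linarith
    rw [← h3]
    exact Finset.single_le_sum (f := fun l => tz (α l / N) (β l / N) (ε / N) x)
      (fun l _ => (tz_nn _ _ _ (hab' l) hη (hsm' l) x).1) (Finset.mem_univ l)

theorem ker_minus (r : ℕ) (α β : Fin r → ℝ) (ε : ℝ) (hε : 0 < ε)
    (hαβ : ∀ l, 2 * ε ≤ β l - α l) (hsep : ∀ l l', l ≠ l' → β l < α l' ∨ β l' < α l) :
    ∃ (C : ℝ) (N₀ : ℕ), 0 ≤ C ∧ ∀ N : ℕ, N₀ ≤ N → ∃ (φ : ℝ → ℝ) (c : ℤ → ℂ),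
      Ker (∑ l, (β l - α l) - r * ε) C N φ c ∧ ∀ x, φ x ≤ 1 ∧ (φ x ≠ 0 → InU α β N x) := by
  set M : ℝ := ∑ l, (|α l| + |β l|) with hM
  have hMl : ∀ l, |α l| + |β l| ≤ M := fun l =>
    Finset.single_le_sum (f := fun l => |α l| + |β l|) (fun l _ => by positivity) (Finset.mem_univ l)
  have hM2 : ∀ l l', β l - α l' ≤ M := by
    intro l l'
    by_cases hll : l = l'
    · subst hll
      have h1 := le_abs_self (β l)
      have h2 := neg_abs_le (α l)
      linarith [hMl l]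
    · have h1 := le_abs_self (β l)
      have h2 := neg_abs_le (α l')
      have h3 : (|α l| + |β l|) + (|α l'| + |β l'|) ≤ M := by
        rw [hM, ← Finset.sum_pair (f := fun l => |α l| + |β l|) hll]
        exact Finset.sum_le_sum_of_subset_of_nonneg (Finset.subset_univ _) (fun i _ _ => by positivity)
      have h4 := abs_nonneg (α l)
      have h5 := abs_nonneg (β l')
      linarith
  have hs0 : 0 ≤ ∑ l, ((β l - ε) - (α l + ε) + ε) := Finset.sum_nonneg (fun l _ => by linarith [hαβ l])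
  have hr0 : (0 : ℝ) ≤ r := Nat.cast_nonneg r
  have hre : 0 ≤ (r : ℝ) / ε := by positivity
  refine ⟨∑ l, ((β l - ε) - (α l + ε) + ε) + r / ε + r, ⌈M⌉₊ + 1, by linarith, ?_⟩
  intro N hN
  have hN1 : 1 ≤ N := by omega
  have hN0 : (0 : ℝ) < N := by exact_mod_cast hN1
  have hNM : M < N := by
    have h1 := Nat.le_ceil M
    have h2 : ((⌈M⌉₊ + 1 : ℕ) : ℝ) ≤ N := by exact_mod_cast hN
    push_cast at h2
    linarith
  have hab : ∀ l, α l + ε ≤ β l - ε := fun l => by linarith [hαβ l]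
  have hsm : ∀ l, (β l - ε) - (α l + ε) + 2 * ε ≤ N := fun l => by linarith [hM2 l l]
  have hη : 0 < ε / N := by positivity
  have hab' : ∀ l, (α l + ε) / N ≤ (β l - ε) / N := fun l => div_le_div_of_nonneg_right (hab l) hN0.le
  have hsm' : ∀ l, (β l - ε) / N - (α l + ε) / N + 2 * (ε / N) ≤ 1 := by
    intro l
    have h : (β l - ε) / N - (α l + ε) / N + 2 * (ε / N) = ((β l - ε) - (α l + ε) + 2 * ε) / N := by ring
    rw [h, div_le_one hN0]
    exact hsm l
  have hsupp : ∀ l x, tz ((α l + ε) / N) ((β l - ε) / N) (ε / N) x ≠ 0 →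
      ∃ m : ℤ, α l < N * (x + m) ∧ N * (x + m) < β l := by
    intro l x hx
    obtain ⟨m, h1, h2⟩ := tz_supp _ _ _ (hab' l) hη (hsm' l) x hx
    refine ⟨m, ?_, ?_⟩
    · have h3 : (α l + ε) / N - ε / N = α l / N := by ring
      rw [h3, div_lt_iff₀ hN0] at h1
      linarith
    · have h3 : (β l - ε) / N + ε / N = β l / N := by ring
      rw [h3, lt_div_iff₀ hN0] at h2
      linarith
  refine ⟨_, _, ker_core r (fun l => α l + ε) (fun l => β l - ε) ε hε hab N hN1 hsm _ _ ?_ le_rfl, ?_⟩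
  · have h : ∀ l, (β l - ε) - (α l + ε) + ε = (β l - α l) - ε := fun l => by ring
    simp only [h]
    rw [Finset.sum_sub_distrib]
    simp
  · intro x
    by_cases hz : ∀ l, tz ((α l + ε) / N) ((β l - ε) / N) (ε / N) x = 0
    · simp only [hz, Finset.sum_const_zero]
      exact ⟨by norm_num, fun h => absurd rfl h⟩
    · push Not at hz
      obtain ⟨l, hl⟩ := hz
      obtain ⟨m, h1, h2⟩ := hsupp l x hl
      have hothers : ∀ l', l' ≠ l → tz ((α l' + ε) / N) ((β l' - ε) / N) (ε / N) x = 0 := by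
        intro l' hl'
        by_contra hne
        obtain ⟨m', h3, h4⟩ := hsupp l' x hne
        by_cases hmm : m = m'
        · subst hmm
          rcases hsep l l' (Ne.symm hl') with h5 | h5 <;> linarith
        · have h5 : m + 1 ≤ m' ∨ m' + 1 ≤ m := by omega
          rcases h5 with h5 | h5
          · have h6 : (m : ℝ) + 1 ≤ m' := by exact_mod_cast h5
            have h7 : (N : ℝ) * 1 ≤ N * ((m' : ℝ) - m) := mul_le_mul_of_nonneg_left (by linarith) hN0.le
            have h8 := hM2 l' l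
            linarith
          · have h6 : (m' : ℝ) + 1 ≤ m := by exact_mod_cast h5
            have h7 : (N : ℝ) * 1 ≤ N * ((m : ℝ) - m') := mul_le_mul_of_nonneg_left (by linarith) hN0.le
            have h8 := hM2 l l'
            linarith
      have hsum : ∑ l, tz ((α l + ε) / N) ((β l - ε) / N) (ε / N) x =
          tz ((α l + ε) / N) ((β l - ε) / N) (ε / N) x :=
        Finset.sum_eq_single l (fun l' _ h => hothers l' h) (fun h => absurd (Finset.mem_univ l) h)
      simp only [hsum]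
      exact ⟨(tz_nn _ _ _ (hab' l) hη (hsm' l) x).2, fun _ => ⟨l, m, h1.le, h2⟩⟩

end Pool.Agent.Helper59.PP
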