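import Pool.Agent.Helper59.PP.FmLim
import Pool.Agent.Helper59.PP.Cnt
import Pool.Agent.Helper59.PP.Bonf
import Pool.Agent.Helper59.PP.KerP

/-!
# Block PP-CNTLIM: the counts are asymptotically Poisson along the squares

PROOF.
* `cnt_lim`: put `Λ = ∑ (β l - α l)`.  For every `q ≥ q₀` let `ε = 1 / q` (`2 ε ≤ β l - α l` for all `l`); `ker_plus`, `ker_minus` give kernels (`choose` functions
  of `N`; below `N₀` take anything) and `fm_lim` gives: almost surely `FM⁺ → (Λ + r ε)^k / k!` and `FM⁻ → (Λ - r ε)^k / k!` for all `q ≥ q₀` (countable).  By `cnt_le_fm` and `fm_le_cnt`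
  (`ker_cont`) the moment of the counts lies between the two for `j` large; let `q → ∞` (squeeze: for every `δ > 0` eventually in the `δ`-neighbourhood).
* `cnt_pois`: `bonf` for `C j t = cntS (u ω) α β (SN (j²)) (j²) t` (`meas_cnt`; `cntS ≤ card`), for all `k` (countable intersection).
* `cnt_full`: `range N = range (sqrt N) ∪ SN N`; the set of `t ∈ [0,1)` with `cntS (range N) ≠ cntS (SN N)` is contained in the union over `i < sqrt N` of `{t | InU (v i - t)}`,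
  which has measure `≤ sqrt N Λ / N → 0` (`vol_inU`, `measureReal_biUnion_finset_le`); so the two measures differ by at most that.
-/

namespace Pool.Agent.Helper59.PP

open Finset MeasureTheory Filter
open scoped Topology

private theorem upper14 {Ω : Type*} [MeasurableSpace Ω] (μ : Measure Ω) [IsProbabilityMeasure μ]
    (u : ℕ → Ω → ℝ) (hu : ∀ n, Measurable (u n)) (hd : Decor μ u) (r : ℕ) (α β : Fin r → ℝ)
    (hαβ : ∀ l, α l < β l) (ε : ℝ) (hε : 0 < ε) (k : ℕ) :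
    ∀ᵐ ω ∂μ, ∃ g : ℕ → ℝ, Tendsto g atTop (𝓝 ((∑ l, (β l - α l) + r * ε) ^ k / k.factorial)) ∧
      ∀ᶠ j : ℕ in atTop, ∫ t in (0 : ℝ)..1,
        ((cntS (fun i => u i ω) α β (SN (j ^ 2)) (j ^ 2) t).choose k : ℝ) ≤ g j := by
  obtain ⟨C, N₀, hC, h⟩ := ker_plus r α β hαβ ε hε
  have h' : ∀ N : ℕ, ∃ (φ : ℝ → ℝ) (c : ℤ → ℂ), N₀ ≤ N →
      (Ker (∑ l, (β l - α l) + r * ε) C N φ c ∧ ∀ x, InU α β N x → 1 ≤ φ x) := by
    intro N
    by_cases hN : N₀ ≤ N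
    · obtain ⟨φ, c, h1⟩ := h N hN
      exact ⟨φ, c, fun _ => h1⟩
    · exact ⟨0, 0, fun h => absurd h hN⟩
  choose φ c hφ using h'
  filter_upwards [fm_lim μ u hu hd _ C hC N₀ φ c (fun N hN => (hφ N hN).1) k] with ω hω
  refine ⟨_, hω, ?_⟩
  filter_upwards [eventually_ge_atTop (N₀ + 1)] with j hj
  have hjN : N₀ ≤ j ^ 2 := by nlinarith
  exact cnt_le_fm _ α β _ _ k _ (ker_cont (hφ _ hjN).1) (hφ _ hjN).1.nn (hφ _ hjN).2

private theorem lower14 {Ω : Type*} [MeasurableSpace Ω] (μ : Measure Ω) [IsProbabilityMeasure μ]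
    (u : ℕ → Ω → ℝ) (hu : ∀ n, Measurable (u n)) (hd : Decor μ u) (r : ℕ) (α β : Fin r → ℝ)
    (hsep : ∀ l l', l ≠ l' → β l < α l' ∨ β l' < α l) (ε : ℝ) (hε : 0 < ε)
    (hαβ : ∀ l, 2 * ε ≤ β l - α l) (k : ℕ) :
    ∀ᵐ ω ∂μ, ∃ g : ℕ → ℝ, Tendsto g atTop (𝓝 ((∑ l, (β l - α l) - r * ε) ^ k / k.factorial)) ∧
      ∀ᶠ j : ℕ in atTop, g j ≤ ∫ t in (0 : ℝ)..1,
        ((cntS (fun i => u i ω) α β (SN (j ^ 2)) (j ^ 2) t).choose k : ℝ) := by
  obtain ⟨C, N₀, hC, h⟩ := ker_minus r α β ε hε hαβ hsep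
  have h' : ∀ N : ℕ, ∃ (φ : ℝ → ℝ) (c : ℤ → ℂ), N₀ ≤ N →
      (Ker (∑ l, (β l - α l) - r * ε) C N φ c ∧ ∀ x, φ x ≤ 1 ∧ (φ x ≠ 0 → InU α β N x)) := by
    intro N
    by_cases hN : N₀ ≤ N
    · obtain ⟨φ, c, h1⟩ := h N hN
      exact ⟨φ, c, fun _ => h1⟩
    · exact ⟨0, 0, fun h => absurd h hN⟩
  choose φ c hφ using h'
  filter_upwards [fm_lim μ u hu hd _ C hC N₀ φ c (fun N hN => (hφ N hN).1) k] with ω hω
  refine ⟨_, hω, ?_⟩
  filter_upwards [eventually_ge_atTop (N₀ + 1)] with j hj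
  have hjN : N₀ ≤ j ^ 2 := by nlinarith
  exact fm_le_cnt _ α β _ _ k _ (ker_cont (hφ _ hjN).1) (hφ _ hjN).1.nn (hφ _ hjN).2

private theorem exists_gap14 {r : ℕ} (α β : Fin r → ℝ) (hαβ : ∀ l, α l < β l) :
    ∃ δ : ℝ, 0 < δ ∧ ∀ l, 2 * δ ≤ β l - α l := by
  by_cases hne : Nonempty (Fin r)
  · obtain ⟨l₀, hl₀⟩ := Finite.exists_min (fun l => β l - α l)
    refine ⟨(β l₀ - α l₀) / 2, by linarith [hαβ l₀], fun l => ?_⟩
    linarith [hl₀ l]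
  · exact ⟨1, one_pos, fun l => absurd ⟨l⟩ hne⟩

private theorem eps14 (Λ s δ : ℝ) (k : ℕ) :
    Tendsto (fun q : ℕ => (Λ + s * (δ / ((q : ℝ) + 1))) ^ k / (k.factorial : ℝ)) atTop
      (𝓝 (Λ ^ k / k.factorial)) := by
  have h1 : Tendsto (fun q : ℕ => δ / ((q : ℝ) + 1)) atTop (𝓝 0) := by
    have h2 := (tendsto_one_div_add_atTop_nhds_zero_nat (𝕜 := ℝ)).const_mul δ
    rw [mul_zero] at h2
    refine h2.congr fun q => ?_
    rw [mul_one_div]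
  have h2 := (((h1.const_mul s).const_add Λ).pow k).div_const (k.factorial : ℝ)
  rw [mul_zero, add_zero] at h2
  exact h2

theorem cnt_lim {Ω : Type*} [MeasurableSpace Ω] (μ : Measure Ω) [IsProbabilityMeasure μ]
    (u : ℕ → Ω → ℝ) (hu : ∀ n, Measurable (u n)) (hd : Decor μ u) (r : ℕ) (α β : Fin r → ℝ)
    (hαβ : ∀ l, α l < β l) (hsep : ∀ l l', l ≠ l' → β l < α l' ∨ β l' < α l) (k : ℕ) :
    ∀ᵐ ω ∂μ, Tendsto (fun j : ℕ => ∫ t in (0 : ℝ)..1,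
      ((cntS (fun i => u i ω) α β (SN (j ^ 2)) (j ^ 2) t).choose k : ℝ)) atTop
      (𝓝 ((∑ l, (β l - α l)) ^ k / k.factorial)) := by
  obtain ⟨δ, hδ, hδ'⟩ := exists_gap14 α β hαβ
  have hq : ∀ q : ℕ, 0 < δ / ((q : ℝ) + 1) ∧ δ / ((q : ℝ) + 1) ≤ δ := by
    intro q
    have h1 : (1 : ℝ) ≤ (q : ℝ) + 1 := by linarith [Nat.cast_nonneg (α := ℝ) q]
    exact ⟨by positivity, div_le_self hδ.le h1⟩
  have hU : ∀ᵐ ω ∂μ, ∀ q : ℕ, ∃ g : ℕ → ℝ,
      Tendsto g atTop (𝓝 ((∑ l, (β l - α l) + r * (δ / ((q : ℝ) + 1))) ^ k / k.factorial)) ∧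
      ∀ᶠ j : ℕ in atTop, ∫ t in (0 : ℝ)..1,
        ((cntS (fun i => u i ω) α β (SN (j ^ 2)) (j ^ 2) t).choose k : ℝ) ≤ g j := by
    rw [ae_all_iff]
    intro q
    exact upper14 μ u hu hd r α β hαβ _ (hq q).1 k
  have hL : ∀ᵐ ω ∂μ, ∀ q : ℕ, ∃ g : ℕ → ℝ,
      Tendsto g atTop (𝓝 ((∑ l, (β l - α l) - r * (δ / ((q : ℝ) + 1))) ^ k / k.factorial)) ∧
      ∀ᶠ j : ℕ in atTop, g j ≤ ∫ t in (0 : ℝ)..1,
        ((cntS (fun i => u i ω) α β (SN (j ^ 2)) (j ^ 2) t).choose k : ℝ) := by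
    rw [ae_all_iff]
    intro q
    refine lower14 μ u hu hd r α β hsep _ (hq q).1 (fun l => ?_) k
    linarith [hδ' l, (hq q).2]
  filter_upwards [hU, hL] with ω h1 h2
  rw [tendsto_order]
  constructor
  · intro a ha
    have h3 := eps14 (∑ l, (β l - α l)) (-(r : ℝ)) δ k
    obtain ⟨q, hqa⟩ := (h3.eventually (lt_mem_nhds ha)).exists
    obtain ⟨g, hg, hg'⟩ := h2 q
    have h4 : (∑ l, (β l - α l)) + -(r : ℝ) * (δ / ((q : ℝ) + 1)) =
        ∑ l, (β l - α l) - r * (δ / ((q : ℝ) + 1)) := by ring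
    rw [h4] at hqa
    filter_upwards [hg.eventually (lt_mem_nhds hqa), hg'] with j h5 h6
    exact lt_of_lt_of_le h5 h6
  · intro a ha
    have h3 := eps14 (∑ l, (β l - α l)) (r : ℝ) δ k
    obtain ⟨q, hqa⟩ := (h3.eventually (gt_mem_nhds ha)).exists
    obtain ⟨g, hg, hg'⟩ := h1 q
    filter_upwards [hg.eventually (gt_mem_nhds hqa), hg'] with j h5 h6
    exact lt_of_le_of_lt h6 h5

theorem cnt_pois {Ω : Type*} [MeasurableSpace Ω] (μ : Measure Ω) [IsProbabilityMeasure μ]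
    (u : ℕ → Ω → ℝ) (hu : ∀ n, Measurable (u n)) (hd : Decor μ u) (r : ℕ) (α β : Fin r → ℝ)
    (hαβ : ∀ l, α l < β l) (hsep : ∀ l l', l ≠ l' → β l < α l' ∨ β l' < α l) :
    ∀ᵐ ω ∂μ, ∀ i : ℕ, Tendsto (fun j : ℕ => volume.real {t : ℝ | t ∈ Set.Ico (0 : ℝ) 1 ∧
      cntS (fun i => u i ω) α β (SN (j ^ 2)) (j ^ 2) t = i}) atTop
      (𝓝 (Real.exp (-∑ l, (β l - α l)) * (∑ l, (β l - α l)) ^ i / i.factorial)) := by
  classical
  have h : ∀ᵐ ω ∂μ, ∀ k : ℕ, Tendsto (fun j : ℕ => ∫ t in (0 : ℝ)..1,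
      ((cntS (fun i => u i ω) α β (SN (j ^ 2)) (j ^ 2) t).choose k : ℝ)) atTop
      (𝓝 ((∑ l, (β l - α l)) ^ k / k.factorial)) := by
    rw [ae_all_iff]
    intro k
    exact cnt_lim μ u hu hd r α β hαβ hsep k
  filter_upwards [h] with ω hω i
  refine bonf (fun (j : ℕ) (t : ℝ) => cntS (fun i => u i ω) α β (SN (j ^ 2)) (j ^ 2) t)
    (fun j => meas_cnt _ α β _ _) (fun j => ⟨(SN (j ^ 2)).card, fun t => ?_⟩) _ hω i
  unfold cntS
  exact Finset.card_filter_le _ _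

theorem cnt_full (v : ℕ → ℝ) (r : ℕ) (α β : Fin r → ℝ) (hαβ : ∀ l, α l < β l) (i : ℕ) (x : ℝ)
    (h : Tendsto (fun j : ℕ => volume.real {t : ℝ | t ∈ Set.Ico (0 : ℝ) 1 ∧
      cntS v α β (SN (j ^ 2)) (j ^ 2) t = i}) atTop (𝓝 x)) :
    Tendsto (fun j : ℕ => volume.real {t : ℝ | t ∈ Set.Ico (0 : ℝ) 1 ∧
      cntS v α β (range (j ^ 2)) (j ^ 2) t = i}) atTop (𝓝 x) := by
  classical
  have hsum0 : 0 ≤ ∑ l, (β l - α l) := Finset.sum_nonneg fun l _ => by linarith [hαβ l]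
  -- the exceptional set
  let E : ℕ → Set ℝ := fun j => ⋃ i' ∈ range j, {t : ℝ | t ∈ Set.Ico (0 : ℝ) 1 ∧ InU α β (j ^ 2) (v i' - t)}
  have hEI : ∀ j, E j ⊆ Set.Ico (0 : ℝ) 1 := by
    intro j t ht
    obtain ⟨i', _, ht'⟩ := Set.mem_iUnion₂.1 ht
    exact ht'.1
  have hIfin : volume (Set.Ico (0 : ℝ) 1) ≠ ⊤ := by simp
  have hEfin : ∀ j, volume (E j) ≠ ⊤ := fun j => measure_ne_top_of_subset (hEI j) hIfin
  have hE : ∀ j : ℕ, 1 ≤ j → volume.real (E j) ≤ (∑ l, (β l - α l)) / j := by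
    intro j hj
    have hj0 : (0 : ℝ) < j := by exact_mod_cast hj
    have h1 : volume.real (E j) ≤ ∑ i' ∈ range j,
        volume.real {t : ℝ | t ∈ Set.Ico (0 : ℝ) 1 ∧ InU α β (j ^ 2) (v i' - t)} :=
      measureReal_biUnion_finset_le _ _
    have h2 : ∑ i' ∈ range j,
        volume.real {t : ℝ | t ∈ Set.Ico (0 : ℝ) 1 ∧ InU α β (j ^ 2) (v i' - t)} ≤
        ∑ i' ∈ range j, (∑ l, (β l - α l)) / ((j ^ 2 : ℕ) : ℝ) :=
      Finset.sum_le_sum fun i' _ => vol_inU α β (fun l => (hαβ l).le) (j ^ 2) (Nat.one_le_pow _ _ hj) (v i')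
    refine (h1.trans h2).trans (le_of_eq ?_)
    rw [Finset.sum_const, Finset.card_range, nsmul_eq_mul]
    push_cast
    field_simp
  -- the counts agree outside
  have hcnt : ∀ (j : ℕ) (t : ℝ), t ∈ Set.Ico (0 : ℝ) 1 → t ∉ E j →
      cntS v α β (range (j ^ 2)) (j ^ 2) t = cntS v α β (SN (j ^ 2)) (j ^ 2) t := by
    intro j t ht htE
    unfold cntS
    congr 1
    ext i'
    simp only [Finset.mem_filter, Finset.mem_range, SN, Finset.mem_Ico]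
    constructor
    · rintro ⟨h1, h2⟩
      refine ⟨⟨?_, h1⟩, h2⟩
      by_contra hc
      rw [Nat.sqrt_eq', not_le] at hc
      exact htE (Set.mem_iUnion₂.2 ⟨i', Finset.mem_range.2 hc, ht, h2⟩)
    · rintro ⟨⟨_, h1⟩, h2⟩
      exact ⟨h1, h2⟩
  have hdiff : ∀ j : ℕ, 1 ≤ j →
      |volume.real {t : ℝ | t ∈ Set.Ico (0 : ℝ) 1 ∧ cntS v α β (range (j ^ 2)) (j ^ 2) t = i} -
        volume.real {t : ℝ | t ∈ Set.Ico (0 : ℝ) 1 ∧ cntS v α β (SN (j ^ 2)) (j ^ 2) t = i}| ≤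
      (∑ l, (β l - α l)) / j := by
    intro j hj
    have key : ∀ f g : ℝ → ℕ, (∀ t, t ∈ Set.Ico (0 : ℝ) 1 → t ∉ E j → f t = g t) →
        volume.real {t : ℝ | t ∈ Set.Ico (0 : ℝ) 1 ∧ f t = i} ≤
          volume.real {t : ℝ | t ∈ Set.Ico (0 : ℝ) 1 ∧ g t = i} + (∑ l, (β l - α l)) / j := by
      intro f g hfg
      have hsub : {t : ℝ | t ∈ Set.Ico (0 : ℝ) 1 ∧ f t = i} ⊆
          {t : ℝ | t ∈ Set.Ico (0 : ℝ) 1 ∧ g t = i} ∪ E j := by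
        rintro t ⟨ht, hf⟩
        by_cases hE' : t ∈ E j
        · exact Or.inr hE'
        · exact Or.inl ⟨ht, by rw [← hfg t ht hE']; exact hf⟩
      have hfin : volume ({t : ℝ | t ∈ Set.Ico (0 : ℝ) 1 ∧ g t = i} ∪ E j) ≠ ⊤ :=
        measure_ne_top_of_subset (Set.union_subset (fun t ht => ht.1) (hEI j)) hIfin
      refine (measureReal_mono hsub hfin).trans ((measureReal_union_le _ _).trans ?_)
      linarith [hE j hj]
    have k1 := key _ _ (fun t ht htE => hcnt j t ht htE)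
    have k2 := key _ _ (fun t ht htE => (hcnt j t ht htE).symm)
    rw [abs_le]
    constructor <;> linarith
  have hlim : Tendsto (fun j : ℕ => (∑ l, (β l - α l)) / (j : ℝ)) atTop (𝓝 0) :=
    tendsto_const_div_atTop_nhds_zero_nat _
  have h0 : Tendsto (fun j : ℕ =>
      volume.real {t : ℝ | t ∈ Set.Ico (0 : ℝ) 1 ∧ cntS v α β (range (j ^ 2)) (j ^ 2) t = i} -
        volume.real {t : ℝ | t ∈ Set.Ico (0 : ℝ) 1 ∧ cntS v α β (SN (j ^ 2)) (j ^ 2) t = i}) atTop (𝓝 0) := by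
    refine squeeze_zero_norm' ?_ hlim
    filter_upwards [eventually_ge_atTop 1] with j hj
    rw [Real.norm_eq_abs]
    exact hdiff j hj
  have h1 := h0.add h
  rw [zero_add] at h1
  refine h1.congr fun j => ?_
  ring

end Pool.Agent.Helper59.PP
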