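import Pool.Agent.Helper59.RE.Defs

/-!
# Project PP (MP_9056e9_nt): Poissonian powers.  Definitions for the first half

A random sequence `u n` of reals such that `∫ e (∑_l w l u l) dμ` is very small for all integer vectors `w ≠ 0` with few
nonzero entries, of polynomial size, whose last index is large (`Decor`), is almost surely Poissonian modulo one (`Poiss`), and its
gaps have the exponential distribution (`GapLaw`).
-/

namespace Pool.Agent.Helper59.PP

open Finset MeasureTheory Filter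
open scoped Topology
open Pool.Agent.Helper59.RE (e)

/-- Decorrelation: integer combinations of the `u l` with few terms and last index `n` are nearly uniform modulo one. -/
def Decor {Ω : Type*} [MeasurableSpace Ω] (μ : Measure Ω) (u : ℕ → Ω → ℝ) : Prop :=
  ∀ B : ℕ, ∃ n₀ : ℕ, ∀ n : ℕ, n₀ ≤ n → ∀ w : ℕ → ℤ, w n ≠ 0 →
    ((range (n + 1)).filter (fun l => w l ≠ 0)).card ≤ B →
    (∀ l, |(w l : ℝ)| ≤ (n : ℝ) ^ B) →
    ‖∫ ω, e (∑ l ∈ range (n + 1), (w l : ℝ) * u l ω) ∂μ‖ ≤ 1 / (n : ℝ) ^ B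

/-- `x` lies, modulo one, in `U / N`, where `U` is the union of the intervals `[α l, β l)`. -/
def InU {r : ℕ} (α β : Fin r → ℝ) (N : ℕ) (x : ℝ) : Prop :=
  ∃ l : Fin r, ∃ m : ℤ, α l ≤ N * (x + m) ∧ N * (x + m) < β l

open Classical in
/-- The number of `i < N` (`i ∈ S`) such that `v i - t` lies, modulo one, in `U / N`. -/
noncomputable def cntS {r : ℕ} (v : ℕ → ℝ) (α β : Fin r → ℝ) (S : Finset ℕ) (N : ℕ) (t : ℝ) : ℕ :=
  (S.filter (fun i => InU α β N (v i - t))).card

/-- The points `v i`, `i < N`, seen from a random point of the circle and rescaled by `N`, converge to a Poisson process: the number of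
points in every finite union of intervals is asymptotically Poisson. -/
def Poiss (v : ℕ → ℝ) : Prop :=
  ∀ (r : ℕ) (α β : Fin r → ℝ), (∀ l, α l < β l) → (∀ l l', l ≠ l' → β l < α l' ∨ β l' < α l) →
    ∀ j : ℕ, Tendsto (fun N : ℕ =>
      volume.real {t : ℝ | t ∈ Set.Ico (0 : ℝ) 1 ∧ cntS v α β (range N) N t = j}) atTop
      (𝓝 (Real.exp (-∑ l, (β l - α l)) * (∑ l, (β l - α l)) ^ j / j.factorial))

/-- The gaps are exponentially distributed: the proportion of `i < N` such that the next point is at a distance `> s / N` tends to `exp (-s)`. -/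
def GapLaw (v : ℕ → ℝ) : Prop :=
  ∀ s : ℝ, 0 ≤ s → Tendsto (fun N : ℕ =>
    (((range N).filter (fun i => ∀ l < N, l ≠ i → s < N * Int.fract (v l - v i))).card : ℝ) / N) atTop
      (𝓝 (Real.exp (-s)))

/-- A smooth majorant or minorant of `U / N` with its Fourier coefficients. -/
structure Ker (lam C : ℝ) (N : ℕ) (φ : ℝ → ℝ) (c : ℤ → ℂ) : Prop where
  nn : ∀ x, 0 ≤ φ x
  bd : ∀ x, φ x ≤ C
  c0 : c 0 = ((lam / N : ℝ) : ℂ)
  cb : ∀ h, ‖c h‖ ≤ C / N
  cd : ∀ h : ℤ, h ≠ 0 → ‖c h‖ ≤ C * N / (h : ℝ) ^ 2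
  sum : ∀ x : ℝ, HasSum (fun h : ℤ => c h * e (h * x)) ((φ x : ℝ) : ℂ)

/-- The nonzero frequencies up to `H`. -/
noncomputable def hs (H : ℕ) : Finset ℤ := (Icc (-(H : ℤ)) H).erase 0

/-- The vectors of `p` nonzero frequencies up to `H` with sum zero. -/
noncomputable def hz (H p : ℕ) : Finset (Fin p → ℤ) :=
  (Fintype.piFinset (fun _ : Fin p => hs H)).filter (fun h => ∑ l, h l = 0)

/-- The `p`-th elementary symmetric function of the `y i`, `i ∈ S`. -/
def es {R : Type*} [CommSemiring R] (S : Finset ℕ) (p : ℕ) (y : ℕ → R) : R :=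
  ∑ B ∈ powersetCard p S, ∏ i ∈ B, y i

/-- The `l`-th element of `B`. -/
noncomputable def el (B : Finset ℕ) (l : ℕ) : ℕ := (B.sort (· ≤ ·)).getD l 0

/-- The oscillating part of order `p`. -/
noncomputable def V (c : ℤ → ℂ) (H : ℕ) (S : Finset ℕ) (p : ℕ) (v : ℕ → ℝ) : ℂ :=
  ∫ t in (0 : ℝ)..1, es S p (fun i => ∑ h ∈ hs H, c h * e (h * (v i - t)))

/-- The factorial moment of order `k`. -/
noncomputable def FM (φ : ℝ → ℝ) (S : Finset ℕ) (k : ℕ) (v : ℕ → ℝ) : ℝ :=
  ∫ t in (0 : ℝ)..1, es S k (fun i => φ (v i - t))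

/-- The indices used for `N` points. -/
def SN (N : ℕ) : Finset ℕ := Ico (Nat.sqrt N) N

end Pool.Agent.Helper59.PP
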