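import Pool.Agent.Helper59.PP.Defs

/-!
# Block PP-EL: the enumeration of a finite set
-/

namespace Pool.Agent.Helper59.PP

open Finset

theorem el_get {B : Finset ℕ} {p : ℕ} (hB : B.card = p) (l : Fin p) :
    ∃ h : (l : ℕ) < (B.sort (· ≤ ·)).length, el B l = (B.sort (· ≤ ·))[(l : ℕ)] := by
  have h : (l : ℕ) < (B.sort (· ≤ ·)).length := by
    rw [Finset.length_sort, hB]
    exact l.isLt
  exact ⟨h, List.getD_eq_getElem _ _ h⟩

theorem el_mem {B : Finset ℕ} {p : ℕ} (hB : B.card = p) (l : Fin p) : el B l ∈ B := by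
  obtain ⟨h, e⟩ := el_get hB l
  rw [e, ← Finset.mem_sort (· ≤ ·)]
  exact List.getElem_mem h

theorem el_inj {B : Finset ℕ} {p : ℕ} (hB : B.card = p) (l l' : Fin p) (h : el B l = el B l') :
    l = l' := by
  obtain ⟨h1, e1⟩ := el_get hB l
  obtain ⟨h2, e2⟩ := el_get hB l'
  rw [e1, e2] at h
  exact Fin.ext ((List.Nodup.getElem_inj_iff (Finset.sort_nodup _ _)).1 h)

theorem el_surj {B : Finset ℕ} {p : ℕ} (hB : B.card = p) (n : ℕ) (hn : n ∈ B) :
    ∃ l : Fin p, el B l = n := by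
  rw [← Finset.mem_sort (· ≤ ·), List.mem_iff_getElem] at hn
  obtain ⟨i, hi, h⟩ := hn
  have hi' : i < p := by
    rw [Finset.length_sort, hB] at hi
    exact hi
  refine ⟨⟨i, hi'⟩, ?_⟩
  obtain ⟨h1, e1⟩ := el_get hB ⟨i, hi'⟩
  rw [e1]
  exact h

theorem el_prod {M : Type*} [CommMonoid M] {B : Finset ℕ} {p : ℕ} (hB : B.card = p) (f : ℕ → M) :
    ∏ i ∈ B, f i = ∏ l : Fin p, f (el B l) := by
  symm
  refine Finset.prod_bij (fun l _ => el B l) (fun l _ => el_mem hB l)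
    (fun l _ l' _ h => el_inj hB l l' h) (fun n hn => ?_) (fun _ _ => rfl)
  obtain ⟨l, hl⟩ := el_surj hB n hn
  exact ⟨l, mem_univ _, hl⟩

theorem el_sum {M : Type*} [AddCommMonoid M] {B : Finset ℕ} {p : ℕ} (hB : B.card = p)
    (f : ℕ → M) : ∑ i ∈ B, f i = ∑ l : Fin p, f (el B l) := by
  symm
  refine Finset.sum_bij (fun l _ => el B l) (fun l _ => el_mem hB l)
    (fun l _ l' _ h => el_inj hB l l' h) (fun n hn => ?_) (fun _ _ => rfl)
  obtain ⟨l, hl⟩ := el_surj hB n hn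
  exact ⟨l, mem_univ _, hl⟩

end Pool.Agent.Helper59.PP
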