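import Pool.Agent.Helper59.PP.Defs

/-!
# Block PP-ESYM: elementary symmetric functions

PROOF.
* `es_shift`: `∏_(i ∈ A) (c + y i) = ∑_(B ⊆ A) c^(|A| - |B|) ∏_(i ∈ B) y i` (`Finset.prod_add`, `Finset.prod_const`, `Finset.card_sdiff_of_subset`; or
  `Finset.prod_pow_mul..`); exchange the sums over `A` (in `powersetCard k S`) and `B ⊆ A`: for a fixed `B ⊆ S` with `p ≤ k` elements the number of `A ∈ powersetCard k S`
  with `B ⊆ A` is `(|S| - p).choose (k - p)` (bijection `A ↦ A \ B` onto `powersetCard (k - p) (S \ B)`).  Group the `B` by `p = |B|`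
  (`Finset.sum_powerset`, or `Finset.sum_comm'`).
* `es_ind`: the product over `A` of the indicators of `i ∈ F` is `1` if `A ⊆ F`, else `0`; `powersetCard k S` filtered by `A ⊆ F` is `powersetCard k (S.filter (· ∈ F))`.
* `es_mono`: `Finset.sum_le_sum`, `Finset.prod_le_prod`.
* `es_diff`: for `|x i|, |y i| ≤ M`, `|x i - y i| ≤ η` a product of `k` factors changes by at most `k M^(k-1) η` (induction on the set `B`; there may be a lemma
  `Finset.prod_sub_prod..`; write `k = k' + 1` if `k > 0`), and there are `|S|.choose k ≤ |S|^k` sets.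
-/

namespace Pool.Agent.Helper59.PP

open Finset

private theorem card26 (S B : Finset ℕ) (k : ℕ) (hB : B ⊆ S) (hk : B.card ≤ k) :
    ((powersetCard k S).filter (fun A => B ⊆ A)).card = (S.card - B.card).choose (k - B.card) := by
  have h1 : ((powersetCard k S).filter (fun A => B ⊆ A)).card =
      (powersetCard (k - B.card) (S \ B)).card := by
    refine Finset.card_bij' (fun A _ => A \ B) (fun D _ => D ∪ B) ?_ ?_ ?_ ?_
    · intro A hA
      rw [mem_filter, mem_powersetCard] at hA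
      obtain ⟨⟨h1, h2⟩, h3⟩ := hA
      rw [mem_powersetCard]
      exact ⟨sdiff_subset_sdiff h1 (Subset.refl B), by rw [card_sdiff_of_subset h3, h2]⟩
    · intro D hD
      rw [mem_powersetCard] at hD
      obtain ⟨h1, h2⟩ := hD
      rw [mem_filter, mem_powersetCard]
      refine ⟨⟨union_subset (h1.trans sdiff_subset) hB, ?_⟩, subset_union_right⟩
      rw [card_union_of_disjoint, h2]
      · omega
      · exact disjoint_of_subset_left h1 sdiff_disjoint
    · intro A hA
      rw [mem_filter] at hA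
      exact sdiff_union_of_subset hA.2
    · intro D hD
      rw [mem_powersetCard] at hD
      have h1 : Disjoint D B := disjoint_of_subset_left hD.1 sdiff_disjoint
      exact union_sdiff_cancel_right h1
  rw [h1, card_powersetCard, card_sdiff_of_subset hB]

theorem es_shift (S : Finset ℕ) (k : ℕ) (c : ℂ) (y : ℕ → ℂ) :
    es S k (fun i => c + y i) =
      ∑ p ∈ range (k + 1), ((S.card - p).choose (k - p) : ℂ) * c ^ (k - p) * es S p y := by
  classical
  unfold es
  have h1 : ∀ A ∈ powersetCard k S, ∏ i ∈ A, (c + y i) =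
      ∑ p ∈ range (k + 1), ∑ B ∈ powersetCard p A, c ^ (k - p) * ∏ i ∈ B, y i := by
    intro A hA
    rw [mem_powersetCard] at hA
    simp only [add_comm c]
    rw [Finset.prod_add, Finset.sum_powerset, hA.2]
    refine sum_congr rfl fun p _ => sum_congr rfl fun B hB => ?_
    rw [mem_powersetCard] at hB
    rw [prod_const, card_sdiff_of_subset hB.1, hA.2, hB.2, mul_comm]
  rw [sum_congr rfl h1, sum_comm]
  refine sum_congr rfl fun p hp => ?_
  rw [mem_range] at hp
  rw [sum_comm' (t' := powersetCard p S) (s' := fun B => (powersetCard k S).filter fun A => B ⊆ A),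
    mul_sum]
  · refine sum_congr rfl fun B hB => ?_
    rw [mem_powersetCard] at hB
    rw [sum_const, card26 S B k hB.1 (by omega), hB.2, nsmul_eq_mul]
    ring
  · intro A B
    rw [mem_filter]
    simp only [mem_powersetCard]
    constructor
    · rintro ⟨⟨h1, h2⟩, h3, h4⟩
      exact ⟨⟨⟨h1, h2⟩, h3⟩, h3.trans h1, h4⟩
    · rintro ⟨⟨⟨h1, h2⟩, h3⟩, h4, h5⟩
      exact ⟨⟨h1, h2⟩, h3, h5⟩

open Classical in
theorem es_ind (S : Finset ℕ) (k : ℕ) (F : ℕ → Prop) :
    es S k (fun i => if F i then (1 : ℝ) else 0) = (((S.filter F).card.choose k : ℕ) : ℝ) := by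
  unfold es
  have h1 : ∀ A ∈ powersetCard k S, (∏ i ∈ A, if F i then (1 : ℝ) else 0) =
      if (∀ i ∈ A, F i) then 1 else 0 := fun A _ => Finset.prod_boole
  rw [sum_congr rfl h1, Finset.sum_boole]
  congr 1
  rw [← card_powersetCard]
  congr 1
  ext A
  rw [mem_filter, mem_powersetCard, mem_powersetCard]
  constructor
  · rintro ⟨⟨h2, h3⟩, h4⟩
    exact ⟨fun i hi => mem_filter.2 ⟨h2 hi, h4 i hi⟩, h3⟩
  · rintro ⟨h2, h3⟩
    exact ⟨⟨fun i hi => (mem_filter.1 (h2 hi)).1, h3⟩, fun i hi => (mem_filter.1 (h2 hi)).2⟩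

theorem es_mono (S : Finset ℕ) (k : ℕ) (x y : ℕ → ℝ) (h0 : ∀ i ∈ S, 0 ≤ x i)
    (h : ∀ i ∈ S, x i ≤ y i) : es S k x ≤ es S k y := by
  unfold es
  refine sum_le_sum fun A hA => ?_
  rw [mem_powersetCard] at hA
  exact prod_le_prod (fun i hi => h0 i (hA.1 hi)) (fun i hi => h i (hA.1 hi))

theorem es_diff (S : Finset ℕ) (k : ℕ) (x y : ℕ → ℂ) (M η : ℝ) (hM : 1 ≤ M) (hη : 0 ≤ η)
    (hx : ∀ i ∈ S, ‖x i‖ ≤ M) (hy : ∀ i ∈ S, ‖y i‖ ≤ M) (h : ∀ i ∈ S, ‖x i - y i‖ ≤ η) :
    ‖es S k x - es S k y‖ ≤ (S.card : ℝ) ^ k * (k * M ^ k * η) := by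
  have hM0 : 0 ≤ M := zero_le_one.trans hM
  have key : ∀ B : Finset ℕ, B ⊆ S →
      ‖∏ i ∈ B, y i‖ ≤ M ^ B.card ∧ ‖∏ i ∈ B, x i - ∏ i ∈ B, y i‖ ≤ B.card * M ^ B.card * η := by
    intro B
    induction B using Finset.induction_on with
    | empty =>
      intro _
      simp
    | insert a B ha ih =>
      intro hS
      obtain ⟨h1, h2⟩ := ih ((subset_insert a B).trans hS)
      have haS : a ∈ S := hS (mem_insert_self a B)
      rw [prod_insert ha, prod_insert ha, card_insert_of_notMem ha]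
      refine ⟨?_, ?_⟩
      · rw [norm_mul, pow_succ, mul_comm (M ^ B.card)]
        exact mul_le_mul (hy a haS) h1 (norm_nonneg _) hM0
      · have e1 : x a * ∏ i ∈ B, x i - y a * ∏ i ∈ B, y i =
            x a * (∏ i ∈ B, x i - ∏ i ∈ B, y i) + (x a - y a) * ∏ i ∈ B, y i := by ring
        rw [e1]
        refine (norm_add_le _ _).trans ?_
        rw [norm_mul, norm_mul]
        have h3 : ‖x a‖ * ‖∏ i ∈ B, x i - ∏ i ∈ B, y i‖ ≤ M * (B.card * M ^ B.card * η) :=
          mul_le_mul (hx a haS) h2 (norm_nonneg _) hM0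
        have h4 : ‖x a - y a‖ * ‖∏ i ∈ B, y i‖ ≤ η * M ^ B.card :=
          mul_le_mul (h a haS) h1 (norm_nonneg _) hη
        have h5 : η * M ^ B.card ≤ η * M ^ (B.card + 1) :=
          mul_le_mul_of_nonneg_left (pow_le_pow_right₀ hM (Nat.le_succ _)) hη
        push_cast
        calc _ ≤ M * (B.card * M ^ B.card * η) + η * M ^ (B.card + 1) := by linarith
          _ = _ := by ring
  unfold es
  rw [← sum_sub_distrib]
  refine (norm_sum_le _ _).trans ?_
  have h1 : ∀ B ∈ powersetCard k S, ‖∏ i ∈ B, x i - ∏ i ∈ B, y i‖ ≤ k * M ^ k * η := by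
    intro B hB
    rw [mem_powersetCard] at hB
    have := (key B hB.1).2
    rwa [hB.2] at this
  refine (sum_le_sum h1).trans ?_
  rw [sum_const, card_powersetCard, nsmul_eq_mul]
  have h2 : ((S.card.choose k : ℕ) : ℝ) ≤ (S.card : ℝ) ^ k := by
    exact_mod_cast Nat.choose_le_pow S.card k
  have h3 : 0 ≤ (k : ℝ) * M ^ k * η := by positivity
  exact mul_le_mul_of_nonneg_right h2 h3

end Pool.Agent.Helper59.PP
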