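import Pool.Agent.Helper59.PP.Zs
import Pool.Agent.Helper59.PP.Esym

/-!
# Block PP-FM: factorial moments and oscillating parts

PROOF.
* `ker_cont`: `φ x = ∑ c h e (h x)`, `‖c h e (h x)‖ ≤ ‖c h‖`, summable by `cd`: `continuous_tsum`.
* `fm_approx`: `H = N^(k+2)`.  `φ~ x = c 0 + ∑_(h ∈ hs H) c h e (h x)`, `‖φ x - φ~ x‖ ≤ 2 C N / H` (`tail1`), `|φ| ≤ C`, `‖φ~‖ ≤ C + 2 C` (`N ≤ H`), so `M = 3 C + 1`.
  By `es_diff` `‖es S k (φ (v i - t)) - es S k (φ~ (v i - t))‖ ≤ N^k k M^k 2 C N / N^(k+2) = 2 C k M^k / N`; integrate over `[0, 1]` (everything is continuous in `t`;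
  `FM` as a complex integral: `intervalIntegral.integral_ofReal`).  `es_shift` for `φ~` and the definition of `V`.
* `V_zero`: `es S 0 = 1`.
* `main_lim`: with `n = N - sqrt N`: `n.choose k (lam / N)^k → lam^k / k!`: `(n - k)^k / N^k ≤ k! n.choose k / N^k ≤ n^k / N^k` (`Nat.descFactorial` bounds:
  `Nat.pow_sub_le_descFactorial`, `Nat.descFactorial_le_pow`, `Nat.descFactorial_eq_factorial_mul_choose`) and `n / N → 1`.
* `coef_le`: `((n - p).choose (k - p)) |lam / N|^(k-p) ≤ |lam|^(k-p)` because `(n-p).choose (k-p) ≤ N^(k-p)` (`Nat.choose_le_pow`).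
-/

namespace Pool.Agent.Helper59.PP

open Finset MeasureTheory Filter
open scoped Topology
open Pool.Agent.Helper59.RE (e)

private theorem es_cast97 (S : Finset ℕ) (k : ℕ) (x : ℕ → ℝ) :
    ((es S k x : ℝ) : ℂ) = es S k (fun i => ((x i : ℝ) : ℂ)) := by
  unfold es
  push_cast
  rfl

private theorem es_cont97 (S : Finset ℕ) (k : ℕ) {x : ℕ → ℝ → ℂ} (h : ∀ i, Continuous (x i)) :
    Continuous (fun t => es S k (fun i => x i t)) := by
  unfold es
  exact continuous_finsetSum _ fun B _ => continuous_finsetProd _ fun i _ => h i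

theorem ker_cont {lam C : ℝ} {N : ℕ} {φ : ℝ → ℝ} {c : ℤ → ℂ} (hK : Ker lam C N φ c) :
    Continuous φ := by
  have hs : Summable (fun h : ℤ => ‖c h‖) := by
    have h1 := (hK.sum 0).summable.norm
    refine h1.congr fun h => ?_
    rw [mul_zero, Pool.Agent.Helper59.RE.e_zero, mul_one]
  have h2 : Continuous (fun x : ℝ => ∑' h : ℤ, c h * e (h * x)) := by
    refine continuous_tsum (u := fun h : ℤ => ‖c h‖) (fun h => ?_) hs (fun h x => ?_)
    · exact continuous_const.mul (Pool.Agent.Helper59.RE.continuous_e.comp (by fun_prop))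
    · rw [norm_mul, Pool.Agent.Helper59.RE.norm_e, mul_one]
  have h3 : (fun x : ℝ => ∑' h : ℤ, c h * e (h * x)) = fun x => ((φ x : ℝ) : ℂ) := by
    funext x
    exact (hK.sum x).tsum_eq
  rw [h3] at h2
  have h4 := Complex.continuous_re.comp h2
  exact h4

theorem fm_approx (lam C : ℝ) (hC : 0 ≤ C) (k : ℕ) : ∃ K : ℝ, ∀ N : ℕ, 1 ≤ N →
    ∀ (φ : ℝ → ℝ) (c : ℤ → ℂ), Ker lam C N φ c → ∀ v : ℕ → ℝ,
      ‖((FM φ (SN N) k v : ℝ) : ℂ) - ∑ p ∈ range (k + 1),
        (((SN N).card - p).choose (k - p) : ℂ) * (c 0) ^ (k - p) * V c (N ^ (k + 2)) (SN N) p v‖ ≤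
        K / N := by
  refine ⟨2 * C * k * (3 * C + 1) ^ k, ?_⟩
  intro N hN φ c hK v
  set H : ℕ := N ^ (k + 2) with hH
  set S := SN N with hS
  have hN0 : (0 : ℝ) < N := by exact_mod_cast hN
  have hH1 : 1 ≤ H := Nat.one_le_pow _ _ (by omega)
  have hNH : N ≤ H := by
    rw [hH]
    exact Nat.le_self_pow (by omega) N
  have hNHr : (N : ℝ) ≤ H := by exact_mod_cast hNH
  have hH0 : (0 : ℝ) < H := by exact_mod_cast hH1
  set ψ : ℝ → ℂ := fun x => ∑ h ∈ hs H, c h * e (h * x) with hψ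
  have hψc : Continuous ψ := by
    rw [hψ]
    exact continuous_finsetSum _ fun h _ =>
      continuous_const.mul (Pool.Agent.Helper59.RE.continuous_e.comp (by fun_prop))
  have hφc := ker_cont hK
  have e1 : ((FM φ S k v : ℝ) : ℂ) = ∫ t in (0 : ℝ)..1, es S k (fun i => ((φ (v i - t) : ℝ) : ℂ)) := by
    unfold FM
    rw [← intervalIntegral.integral_ofReal]
    refine intervalIntegral.integral_congr fun t _ => ?_
    exact es_cast97 _ _ _
  have hVc : ∀ p, Continuous (fun t : ℝ => es S p (fun i => ψ (v i - t))) := fun p =>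
    es_cont97 S p (fun i => hψc.comp (by fun_prop))
  have e2 : ∑ p ∈ range (k + 1), ((S.card - p).choose (k - p) : ℂ) * (c 0) ^ (k - p) * V c H S p v =
      ∫ t in (0 : ℝ)..1, es S k (fun i => c 0 + ψ (v i - t)) := by
    have h1 : ∀ t : ℝ, es S k (fun i => c 0 + ψ (v i - t)) =
        ∑ p ∈ range (k + 1), ((S.card - p).choose (k - p) : ℂ) * (c 0) ^ (k - p) *
          es S p (fun i => ψ (v i - t)) := fun t => es_shift S k (c 0) (fun i => ψ (v i - t))
    simp only [h1]
    rw [intervalIntegral.integral_finsetSum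
      (f := fun (p : ℕ) (t : ℝ) => ((S.card - p).choose (k - p) : ℂ) * (c 0) ^ (k - p) *
          es S p (fun i => ψ (v i - t))) (fun p _ =>
      (continuous_const.mul (hVc p)).intervalIntegrable _ _)]
    refine Finset.sum_congr rfl fun p _ => ?_
    rw [intervalIntegral.integral_const_mul]
    rfl
  rw [e1, e2, ← intervalIntegral.integral_sub]
  · have hbound : ∀ t ∈ Set.uIoc (0 : ℝ) 1, ‖es S k (fun i => ((φ (v i - t) : ℝ) : ℂ)) -
        es S k (fun i => c 0 + ψ (v i - t))‖ ≤ 2 * C * k * (3 * C + 1) ^ k / N := by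
      intro t _
      have hη : (0 : ℝ) ≤ 2 * C * N / H := by positivity
      have hη2 : 2 * C * N / H ≤ 2 * C := by
        rw [div_le_iff₀ hH0]
        exact mul_le_mul_of_nonneg_left hNHr (by positivity)
      have hd : ∀ x, ‖((φ x : ℝ) : ℂ) - (c 0 + ψ x)‖ ≤ 2 * C * N / H := fun x => tail1 hK hC H hH1 x
      have hx : ∀ x, ‖((φ x : ℝ) : ℂ)‖ ≤ C := fun x => by
        rw [Complex.norm_real, Real.norm_of_nonneg (hK.nn x)]
        exact hK.bd x
      have hy : ∀ x, ‖c 0 + ψ x‖ ≤ 3 * C := fun x => by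
        have h1 : c 0 + ψ x = ((φ x : ℝ) : ℂ) - (((φ x : ℝ) : ℂ) - (c 0 + ψ x)) := by ring
        rw [h1]
        refine (norm_sub_le _ _).trans ?_
        have := hd x
        have := hx x
        linarith
      have h1 := es_diff S k (fun i => ((φ (v i - t) : ℝ) : ℂ)) (fun i => c 0 + ψ (v i - t))
        (3 * C + 1) (2 * C * N / H) (by linarith) hη
        (fun i _ => (hx _).trans (by linarith)) (fun i _ => (hy _).trans (by linarith))
        (fun i _ => hd _)
      refine h1.trans ?_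
      have hcard : (S.card : ℝ) ≤ N := by
        have : S.card ≤ N := by
          rw [hS]
          unfold SN
          rw [Nat.card_Ico]
          omega
        exact_mod_cast this
      calc (S.card : ℝ) ^ k * (k * (3 * C + 1) ^ k * (2 * C * N / H)) ≤
            (N : ℝ) ^ k * (k * (3 * C + 1) ^ k * (2 * C * N / H)) := by
            refine mul_le_mul_of_nonneg_right (pow_le_pow_left₀ (Nat.cast_nonneg _) hcard k) ?_
            positivity
        _ = 2 * C * k * (3 * C + 1) ^ k / N := by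
            rw [hH]
            push_cast
            rw [pow_add]
            field_simp
    have h2 := intervalIntegral.norm_integral_le_of_norm_le_const hbound
    rwa [sub_zero, abs_one, mul_one] at h2
  · refine Continuous.intervalIntegrable ?_ _ _
    exact es_cont97 S k (fun i => Complex.continuous_ofReal.comp (hφc.comp (by fun_prop)))
  · refine Continuous.intervalIntegrable ?_ _ _
    exact es_cont97 S k (fun i => continuous_const.add (hψc.comp (by fun_prop)))

theorem V_zero (c : ℤ → ℂ) (H : ℕ) (S : Finset ℕ) (v : ℕ → ℝ) : V c H S 0 v = 1 := by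
  unfold V es
  simp

theorem main_lim (lam : ℝ) (k : ℕ) : Tendsto (fun N : ℕ =>
    (((SN N).card.choose k : ℕ) : ℝ) * (lam / N) ^ k) atTop (𝓝 (lam ^ k / k.factorial)) := by
  have hcard : ∀ N : ℕ, (SN N).card = N - Nat.sqrt N := fun N => by
    unfold SN
    rw [Nat.card_Ico]
  have hsq : Tendsto (fun N : ℕ => ((Nat.sqrt N : ℕ) : ℝ) / N) atTop (𝓝 0) := by
    have h1 : Tendsto (fun N : ℕ => (Real.sqrt N)⁻¹) atTop (𝓝 0) :=
      (tendsto_inv_atTop_zero.comp Real.tendsto_sqrt_atTop).comp tendsto_natCast_atTop_atTop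
    refine squeeze_zero' (Eventually.of_forall fun N => by positivity) ?_ h1
    filter_upwards [eventually_gt_atTop 0] with N hN
    have hN0 : (0 : ℝ) < N := by exact_mod_cast hN
    have h2 : ((Nat.sqrt N : ℕ) : ℝ) ≤ Real.sqrt N := Real.nat_sqrt_le_real_sqrt
    rw [div_le_iff₀ hN0]
    refine h2.trans (le_of_eq ?_)
    have h3 : 0 < Real.sqrt N := Real.sqrt_pos.2 hN0
    have h4 : Real.sqrt N * Real.sqrt N = N := Real.mul_self_sqrt hN0.le
    rw [inv_mul_eq_div, eq_div_iff h3.ne', h4]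
  have hfac : ∀ i : ℕ, Tendsto (fun N : ℕ => (((N - Nat.sqrt N - i : ℕ)) : ℝ) / N) atTop (𝓝 1) := by
    intro i
    have hlow : Tendsto (fun N : ℕ => 1 - ((Nat.sqrt N : ℕ) : ℝ) / N - (i : ℝ) / N) atTop (𝓝 1) := by
      have h1 := (hsq.const_sub 1).sub (tendsto_const_div_atTop_nhds_zero_nat (i : ℝ))
      simpa using h1
    refine tendsto_of_tendsto_of_tendsto_of_le_of_le' hlow tendsto_const_nhds ?_ ?_
    · filter_upwards [eventually_gt_atTop 0] with N hN
      have hN0 : (0 : ℝ) < N := by exact_mod_cast hN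
      rw [le_div_iff₀ hN0]
      have h2 : (1 - ((Nat.sqrt N : ℕ) : ℝ) / N - (i : ℝ) / N) * N = N - (Nat.sqrt N : ℕ) - i := by
        field_simp
      rw [h2]
      have h3 : N ≤ (N - Nat.sqrt N - i) + (Nat.sqrt N + i) := by omega
      have h4 : (N : ℝ) ≤ ((N - Nat.sqrt N - i : ℕ) : ℝ) + ((Nat.sqrt N : ℕ) + i) := by exact_mod_cast h3
      linarith
    · filter_upwards [eventually_gt_atTop 0] with N hN
      have hN0 : (0 : ℝ) < N := by exact_mod_cast hN
      rw [div_le_one hN0]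
      have h3 : N - Nat.sqrt N - i ≤ N := by omega
      exact_mod_cast h3
  have hprod : Tendsto (fun N : ℕ => ∏ i ∈ range k, (((N - Nat.sqrt N - i : ℕ)) : ℝ) / N) atTop (𝓝 1) := by
    have h1 := tendsto_finsetProd (range k) (fun i _ => hfac i)
    rwa [Finset.prod_const_one] at h1
  have h2 := hprod.const_mul (lam ^ k / k.factorial)
  rw [mul_one] at h2
  refine h2.congr fun N => ?_
  have hf : ((k.factorial : ℕ) : ℝ) ≠ 0 := by exact_mod_cast k.factorial_ne_zero
  have h3 : ((((N - Nat.sqrt N).descFactorial k : ℕ)) : ℝ) =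
      k.factorial * (((N - Nat.sqrt N).choose k : ℕ) : ℝ) := by
    exact_mod_cast Nat.descFactorial_eq_factorial_mul_choose (N - Nat.sqrt N) k
  rw [Finset.prod_div_distrib, Finset.prod_const, Finset.card_range, ← Nat.cast_prod,
    ← Nat.descFactorial_eq_prod_range, h3, hcard, div_pow]
  field_simp

theorem coef_le (lam : ℝ) (N k p : ℕ) (hN : 1 ≤ N) :
    ((((SN N).card - p).choose (k - p) : ℕ) : ℝ) * |lam / N| ^ (k - p) ≤ |lam| ^ (k - p) := by
  have hN0 : (0 : ℝ) < N := by exact_mod_cast hN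
  set j := k - p with hj
  have h1 : ((SN N).card - p).choose j ≤ N ^ j := by
    refine (Nat.choose_le_pow _ _).trans (Nat.pow_le_pow_left ?_ j)
    unfold SN
    rw [Nat.card_Ico]
    omega
  have h2 : ((((SN N).card - p).choose j : ℕ) : ℝ) ≤ (N : ℝ) ^ j := by exact_mod_cast h1
  calc ((((SN N).card - p).choose j : ℕ) : ℝ) * |lam / N| ^ j ≤ (N : ℝ) ^ j * |lam / N| ^ j :=
        mul_le_mul_of_nonneg_right h2 (by positivity)
    _ = |lam| ^ j := by
        rw [← mul_pow, abs_div, Nat.abs_cast, mul_div_cancel₀ _ hN0.ne']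

end Pool.Agent.Helper59.PP
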