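import Pool.Agent.Helper59.PP.VSq
import Pool.Agent.Helper59.PP.Fm

/-!
# Block PP-FMLIM: the factorial moments converge almost surely along the squares

PROOF.  For `1 ≤ p ≤ k` `V_sq` (with `k + 2` in the place of `k`) gives `K, N₁`; `f j ω = ‖V (c (j²)) ((j²)^(k+2)) (SN (j²)) p (u ω)‖²`, `∫ f j ≤ K / j²` for `j` large
(`ker.cb`, `ker.cd`); `ae0` (`V_int`, `Real.summable_one_div_nat_pow`) gives `f j ω → 0` almost surely, so `V → 0`.  For `ω` in the intersection over `p ≤ k`: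
`fm_approx` for `N = j²`, `V_zero`, `main_lim` (composed with `j ↦ j²`), `coef_le` (`‖c 0‖ = |lam / N|`): the sum over `p` tends to `lam^k / k!`
(term `p = 0`: `main_lim`; `p ≥ 1`: bounded times `V → 0`), and the real part of the limit.
-/

namespace Pool.Agent.Helper59.PP

open Finset MeasureTheory Filter
open scoped Topology
open Pool.Agent.Helper59.RE (e)

/-- the oscillating parts tend to zero along the squares -/
private theorem fmlim_V {Ω : Type*} [MeasurableSpace Ω] (μ : Measure Ω) [IsProbabilityMeasure μ]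
    (u : ℕ → Ω → ℝ) (hu : ∀ n, Measurable (u n)) (hd : Decor μ u) (lam C : ℝ) (hC : 0 ≤ C)
    (N₀ : ℕ) (φ : ℕ → ℝ → ℝ) (c : ℕ → ℤ → ℂ) (hK : ∀ N, N₀ ≤ N → Ker lam C N (φ N) (c N))
    (k p : ℕ) (hp : 1 ≤ p) :
    ∀ᵐ ω ∂μ, Tendsto (fun j : ℕ => V (c (j ^ 2)) ((j ^ 2) ^ (k + 2)) (SN (j ^ 2)) p
      (fun i => u i ω)) atTop (𝓝 0) := by
  obtain ⟨K, N₁, h⟩ := V_sq μ u hu hd p (k + 2) hp C hC
  have hb : Summable (fun j : ℕ => K / (j : ℝ) ^ 2) := by
    have h1 : Summable (fun j : ℕ => 1 / (j : ℝ) ^ 2) :=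
      Real.summable_one_div_nat_pow.2 (by norm_num)
    have h2 := h1.mul_left K
    refine h2.congr (fun j => ?_)
    rw [mul_one_div]
  have h0 := ae0 μ (fun (j : ℕ) (ω : Ω) => ‖V (c (j ^ 2)) ((j ^ 2) ^ (k + 2)) (SN (j ^ 2)) p
    (fun i => u i ω)‖ ^ 2) (fun j => V_int μ u hu _ _ _ _) (fun j ω => by positivity)
    (fun j : ℕ => K / (j : ℝ) ^ 2) hb (N₀ + N₁ + 1) (by
      intro j hj
      have hj1 : 1 ≤ j := by omega
      have hj2 : j ≤ j ^ 2 := by nlinarith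
      have hk := hK (j ^ 2) (by omega)
      have h3 := h (j ^ 2) (by omega) (c (j ^ 2)) hk.cb hk.cd
      push_cast at h3
      exact h3)
  filter_upwards [h0] with ω hω
  rw [tendsto_zero_iff_norm_tendsto_zero]
  have h4 : Tendsto (fun j : ℕ => Real.sqrt (‖V (c (j ^ 2)) ((j ^ 2) ^ (k + 2)) (SN (j ^ 2)) p
      (fun i => u i ω)‖ ^ 2)) atTop (𝓝 (Real.sqrt 0)) :=
    (Real.continuous_sqrt.tendsto 0).comp hω
  rw [Real.sqrt_zero] at h4
  refine h4.congr (fun j => ?_)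
  rw [Real.sqrt_sq (norm_nonneg _)]

theorem fm_lim {Ω : Type*} [MeasurableSpace Ω] (μ : Measure Ω) [IsProbabilityMeasure μ]
    (u : ℕ → Ω → ℝ) (hu : ∀ n, Measurable (u n)) (hd : Decor μ u) (lam C : ℝ) (hC : 0 ≤ C)
    (N₀ : ℕ) (φ : ℕ → ℝ → ℝ) (c : ℕ → ℤ → ℂ) (hK : ∀ N, N₀ ≤ N → Ker lam C N (φ N) (c N))
    (k : ℕ) :
    ∀ᵐ ω ∂μ, Tendsto (fun j : ℕ => FM (φ (j ^ 2)) (SN (j ^ 2)) k (fun i => u i ω)) atTop
      (𝓝 (lam ^ k / k.factorial)) := by
  have hV : ∀ᵐ ω ∂μ, ∀ p : ℕ, 1 ≤ p → Tendsto (fun j : ℕ => V (c (j ^ 2)) ((j ^ 2) ^ (k + 2))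
      (SN (j ^ 2)) p (fun i => u i ω)) atTop (𝓝 0) := by
    rw [ae_all_iff]
    intro p
    by_cases hp : 1 ≤ p
    · filter_upwards [fmlim_V μ u hu hd lam C hC N₀ φ c hK k p hp] with ω hω _
      exact hω
    · exact Filter.Eventually.of_forall (fun ω h => absurd h hp)
  obtain ⟨K, hFM⟩ := fm_approx lam C hC k
  have hsq : Tendsto (fun j : ℕ => j ^ 2) atTop atTop := tendsto_pow_atTop (by norm_num)
  filter_upwards [hV] with ω hω
  set v : ℕ → ℝ := fun i => u i ω with hv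
  set A : ℕ → ℕ → ℂ := fun p j => (((SN (j ^ 2)).card - p).choose (k - p) : ℂ) *
    (c (j ^ 2) 0) ^ (k - p) * V (c (j ^ 2)) ((j ^ 2) ^ (k + 2)) (SN (j ^ 2)) p v with hA
  have hlarge : ∀ᶠ j : ℕ in atTop, 1 ≤ j ∧ N₀ ≤ j ^ 2 := by
    filter_upwards [eventually_ge_atTop (N₀ + 1)] with j hj
    have hj1 : 1 ≤ j := by omega
    exact ⟨hj1, by nlinarith⟩
  -- the main term
  have hA0 : Tendsto (A 0) atTop (𝓝 (((lam ^ k / k.factorial : ℝ)) : ℂ)) := by
    have h1 := (main_lim lam k).comp hsq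
    have h2 : Tendsto (fun j : ℕ => (((((SN (j ^ 2)).card.choose k : ℕ) : ℝ) *
        (lam / ((j ^ 2 : ℕ) : ℝ)) ^ k : ℝ) : ℂ)) atTop (𝓝 (((lam ^ k / k.factorial : ℝ)) : ℂ)) :=
      (Complex.continuous_ofReal.tendsto _).comp h1
    refine h2.congr' ?_
    filter_upwards [hlarge] with j hj
    have hk := hK (j ^ 2) hj.2
    simp only [hA, V_zero, mul_one, Nat.sub_zero, hk.c0]
    push_cast
    ring
  -- the other terms
  have hAp : ∀ p : ℕ, p + 1 ≤ k → Tendsto (A (p + 1)) atTop (𝓝 0) := by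
    intro p _
    have h1 : Tendsto (fun j : ℕ => |lam| ^ (k - (p + 1)) * ‖V (c (j ^ 2)) ((j ^ 2) ^ (k + 2))
        (SN (j ^ 2)) (p + 1) v‖) atTop (𝓝 0) := by
      have h2 := (hω (p + 1) (by omega)).norm.const_mul (|lam| ^ (k - (p + 1)))
      rw [norm_zero, mul_zero] at h2
      exact h2
    refine squeeze_zero_norm' ?_ h1
    filter_upwards [hlarge] with j hj
    have hk := hK (j ^ 2) hj.2
    simp only [hA]
    rw [norm_mul]
    refine mul_le_mul_of_nonneg_right ?_ (norm_nonneg _)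
    have h3 := coef_le lam (j ^ 2) k (p + 1) (Nat.one_le_pow _ _ hj.1)
    rw [norm_mul, norm_pow, hk.c0, Complex.norm_real, Real.norm_eq_abs, Complex.norm_natCast]
    exact h3
  have hsum : Tendsto (fun j => ∑ p ∈ range (k + 1), A p j) atTop
      (𝓝 (((lam ^ k / k.factorial : ℝ)) : ℂ)) := by
    have h1 : Tendsto (fun j => ∑ p ∈ range k, A (p + 1) j) atTop (𝓝 (∑ p ∈ range k, (0 : ℂ))) :=
      tendsto_finset_sum _ (fun p hp => hAp p (Finset.mem_range.1 hp))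
    rw [Finset.sum_const_zero] at h1
    have h2 := h1.add hA0
    rw [zero_add] at h2
    refine h2.congr (fun j => ?_)
    rw [Finset.sum_range_succ' (fun p => A p j) k]
  -- the difference
  have hdiff : Tendsto (fun j : ℕ => ((FM (φ (j ^ 2)) (SN (j ^ 2)) k v : ℝ) : ℂ) -
      ∑ p ∈ range (k + 1), A p j) atTop (𝓝 0) := by
    have h1 : Tendsto (fun j : ℕ => K / ((j ^ 2 : ℕ) : ℝ)) atTop (𝓝 0) :=
      (tendsto_const_div_atTop_nhds_zero_nat K).comp hsq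
    refine squeeze_zero_norm' ?_ h1
    filter_upwards [hlarge] with j hj
    exact hFM (j ^ 2) (Nat.one_le_pow _ _ hj.1) _ _ (hK (j ^ 2) hj.2) v
  have htot := hdiff.add hsum
  rw [zero_add] at htot
  have hre := (Complex.continuous_re.tendsto _).comp htot
  rw [Complex.ofReal_re] at hre
  refine hre.congr (fun j => ?_)
  simp

end Pool.Agent.Helper59.PP
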