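import Pool.Agent.Helper59.PP.Cnt

/-!
# Block PP-GAPA: gaps and void probabilities, for fixed `N`

`vd v N s` is the measure of the `t ∈ [0, 1)` such that there is no point `v i` (`i < N`) in `[t - s/N, t)` modulo one, i.e. no `i` with `0 < fract (t - v i) ≤ s / N`.
`gp v N s` is the number of `i < N` such that `fract (v l - v i) > s / N` for all `l < N`, `l ≠ i`.  `dp v N` is the number of `i < N` such that `fract (v l - v i) ≠ 0` for all
`l < i` (the number of different points modulo one).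

PROOF.  Elementary rules: `fract (x - y) = fract (fract x - fract y)`; if `0 ≤ b ≤ a < 1`, `fract (x - z) = a`, `fract (x - y) = b` then `fract (y - z) = a - b`.
* `vol_arc`: for `0 ≤ a ≤ b < 1` the set of `t ∈ [0, 1)` with `a < fract (t - x) ≤ b` has measure `b - a` (a rotation of the interval `(a, b]`; it is a union of at most two
  intervals; or use `measurePreserving` of the rotation of `AddCircle`, or the periodicity of the indicator: `Function.Periodic.intervalIntegral_add_eq`).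
* `gap_le` (lower bound for the difference of the voids): for `i` counted by `gp v N s'` the sets `E i = {t ∈ [0,1) | s / N < fract (t - v i) ≤ s' / N}` are disjoint: if `t` is in `E i` and
  in `E l`, `d_i = fract (t - v i) ≥ d_l`, then `fract (v l - v i) = d_i - d_l < s' / N`, contradiction.  And `E i` is contained in (no point in `[t - s/N, t)`, some point
  in `[t - s'/N, t)`): a point `l` with `0 < fract (t - v l) ≤ s / N` has `fract (v l - v i) = fract (t - v i) - fract (t - v l) < s' / N`.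
  So `(s' - s) / N * gp v N s' ≤ vd v N s - vd v N s'`.
* `void_le`: a `t` with no point in `[t - s/N, t)` but a point in `[t - s'/N, t)`: choose `i` with `d = fract (t - v i)` in `(s/N, s'/N]` minimal among the positive ones, and among
  those with the same value the smallest index `i`.  For every `l` with `fract (v l - v i) ≠ 0`: if `fract (v l - v i) < d` then `fract (t - v l) = d - fract (v l - v i)` is positive and
  smaller than `d`, contradiction; so `fract (v l - v i) ≥ d > s / N`.  So `i` is counted by `dp`, and either by `gp v N s` or it has a partner `l > i` with `fract (v l - v i) = 0`; there are at most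
  `N - dp v N` such `i` (map `i` to the smallest partner `l > i`, which is not counted by `dp`; this is injective).  The set of such `t` is the union over these `i` of `E i`, so
  `vd v N s - vd v N s' ≤ (s' - s) / N * (gp v N s + (N - dp v N))`.
* `dp_ge`: `1 - vd v N s ≤ dp v N * (s / N)`: if there is a point in `[t - s/N, t)` there is one counted by `dp` at the same place.
-/

namespace Pool.Agent.Helper59.PP

open Finset MeasureTheory

/-- The void probability. -/
noncomputable def vd (v : ℕ → ℝ) (N : ℕ) (s : ℝ) : ℝ :=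
  volume.real {t : ℝ | t ∈ Set.Ico (0 : ℝ) 1 ∧
    ∀ i < N, ¬ (0 < Int.fract (t - v i) ∧ Int.fract (t - v i) ≤ s / N)}

/-- The number of gaps longer than `s / N`. -/
noncomputable def gp (v : ℕ → ℝ) (N : ℕ) (s : ℝ) : ℕ :=
  ((range N).filter (fun i => ∀ l < N, l ≠ i → s < N * Int.fract (v l - v i))).card

/-- The number of different points. -/
noncomputable def dp (v : ℕ → ℝ) (N : ℕ) : ℕ :=
  ((range N).filter (fun i => ∀ l < i, Int.fract (v l - v i) ≠ 0)).card

private lemma fr65 (t x y : ℝ) (h : Int.fract (t - y) ≤ Int.fract (t - x)) :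
    Int.fract (y - x) = Int.fract (t - x) - Int.fract (t - y) := by
  rw [Int.fract_eq_iff]
  refine ⟨by linarith, by linarith [Int.fract_lt_one (t - x), Int.fract_nonneg (t - y)],
    ⌊t - x⌋ - ⌊t - y⌋, ?_⟩
  have h1 := Int.floor_add_fract (t - x)
  have h2 := Int.floor_add_fract (t - y)
  push_cast
  linarith

private lemma fr65' (t x y : ℝ) (h : Int.fract (y - x) ≤ Int.fract (t - x)) :
    Int.fract (t - y) = Int.fract (t - x) - Int.fract (y - x) := by
  rw [Int.fract_eq_iff]
  refine ⟨by linarith, by linarith [Int.fract_lt_one (t - x), Int.fract_nonneg (y - x)],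
    ⌊t - x⌋ - ⌊y - x⌋, ?_⟩
  have h1 := Int.floor_add_fract (t - x)
  have h2 := Int.floor_add_fract (y - x)
  push_cast
  linarith

private lemma fr0_symm65 {x y : ℝ} (h : Int.fract (x - y) = 0) : Int.fract (y - x) = 0 := by
  obtain ⟨z, hz⟩ := Int.fract_eq_zero_iff.1 h
  exact Int.fract_eq_zero_iff.2 ⟨-z, by push_cast; linarith⟩

private lemma fr0_trans65 {x y z : ℝ} (h : Int.fract (x - y) = 0) (h' : Int.fract (y - z) = 0) :
    Int.fract (x - z) = 0 := by
  obtain ⟨a, ha⟩ := Int.fract_eq_zero_iff.1 h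
  obtain ⟨b, hb⟩ := Int.fract_eq_zero_iff.1 h'
  exact Int.fract_eq_zero_iff.2 ⟨a + b, by push_cast; linarith⟩

private lemma mfr65 (x : ℝ) : Measurable fun t : ℝ => Int.fract (t - x) :=
  (measurable_id.sub_const x).fract

private lemma marc65 (x a b : ℝ) :
    MeasurableSet {t : ℝ | a < Int.fract (t - x) ∧ Int.fract (t - x) ≤ b} :=
  (measurableSet_lt measurable_const (mfr65 x)).inter (measurableSet_le (mfr65 x) measurable_const)

private lemma mE65 (x a b : ℝ) : MeasurableSet {t : ℝ | t ∈ Set.Ico (0 : ℝ) 1 ∧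
    a < Int.fract (t - x) ∧ Int.fract (t - x) ≤ b} :=
  measurableSet_Ico.inter (marc65 x a b)

theorem vol_arc (x a b : ℝ) (ha : 0 ≤ a) (hab : a ≤ b) (hb : b < 1) :
    volume.real {t : ℝ | t ∈ Set.Ico (0 : ℝ) 1 ∧ a < Int.fract (t - x) ∧ Int.fract (t - x) ≤ b} =
      b - a := by
  obtain ⟨P, hP⟩ : ∃ P : Set ℝ, P = {t : ℝ | a < Int.fract (t - x) ∧ Int.fract (t - x) ≤ b} :=
    ⟨_, rfl⟩
  have hPm : MeasurableSet P := by
    rw [hP]
    exact marc65 x a b
  have h1 : {t : ℝ | t ∈ Set.Ico (0 : ℝ) 1 ∧ a < Int.fract (t - x) ∧ Int.fract (t - x) ≤ b} =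
      P ∩ Set.Ico (0 : ℝ) 1 := by
    rw [hP, Set.inter_comm]
    rfl
  have h2 : ∀ s : Set ℝ, ∫ t in s, P.indicator (1 : ℝ → ℝ) t = volume.real (P ∩ s) := by
    intro s
    rw [integral_indicator_one hPm, measureReal_restrict_apply hPm]
  have hper : Function.Periodic (P.indicator (1 : ℝ → ℝ)) 1 := by
    intro t
    have h3 : t + 1 ∈ P ↔ t ∈ P := by
      rw [hP]
      have h4 : t + 1 - x = t - x + 1 := by ring
      simp only [Set.mem_ofPred_eq, h4, Int.fract_add_one]
    by_cases h4 : t ∈ P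
    · rw [Set.indicator_of_mem h4, Set.indicator_of_mem (h3.2 h4)]
      rfl
    · rw [Set.indicator_of_notMem h4, Set.indicator_of_notMem (fun h5 => h4 (h3.1 h5))]
  have h3 := hper.intervalIntegral_add_eq 0 x
  rw [zero_add, intervalIntegral.integral_of_le zero_le_one,
    intervalIntegral.integral_of_le (by linarith), ← integral_Ico_eq_integral_Ioc, h2, h2] at h3
  rw [h1, h3]
  have h4 : P ∩ Set.Ioc x (x + 1) = Set.Ioc (x + a) (x + b) := by
    ext t
    rw [hP]
    simp only [Set.mem_inter_iff, Set.mem_ofPred_eq, Set.mem_Ioc]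
    constructor
    · rintro ⟨⟨h5, h6⟩, h7, h8⟩
      rcases h8.lt_or_eq with h8 | h8
      · have h9 : Int.fract (t - x) = t - x := Int.fract_eq_self.2 ⟨by linarith, by linarith⟩
        rw [h9] at h5 h6
        constructor <;> linarith
      · have h9 : t - x = 1 := by linarith
        rw [h9, Int.fract_one] at h5
        linarith
    · rintro ⟨h5, h6⟩
      have h9 : Int.fract (t - x) = t - x := Int.fract_eq_self.2 ⟨by linarith, by linarith⟩
      rw [h9]
      refine ⟨⟨?_, ?_⟩, ?_, ?_⟩ <;> linarith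
  rw [h4, Real.volume_real_Ioc_of_le (by linarith)]
  ring

private def V65 (v : ℕ → ℝ) (N : ℕ) (s : ℝ) : Set ℝ := {t : ℝ | t ∈ Set.Ico (0 : ℝ) 1 ∧
    ∀ i < N, ¬ (0 < Int.fract (t - v i) ∧ Int.fract (t - v i) ≤ s / N)}

private lemma mV65 (v : ℕ → ℝ) (N : ℕ) (s : ℝ) : MeasurableSet (V65 v N s) := by
  have h1 : V65 v N s = Set.Ico (0 : ℝ) 1 ∩ ⋂ i, ⋂ (_ : i < N),
      {t : ℝ | 0 < Int.fract (t - v i) ∧ Int.fract (t - v i) ≤ s / N}ᶜ := by
    ext t
    simp only [V65, Set.mem_ofPred_eq, Set.mem_inter_iff, Set.mem_iInter, Set.mem_compl_iff]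
  rw [h1]
  exact measurableSet_Ico.inter (MeasurableSet.iInter fun i => MeasurableSet.iInter fun _ =>
    (marc65 (v i) 0 (s / N)).compl)

private lemma V_fin65 (v : ℕ → ℝ) (N : ℕ) (s : ℝ) : volume (V65 v N s) ≠ ⊤ :=
  measure_ne_top_of_subset (fun _ ht => ht.1) (by rw [Real.volume_Ico]; exact ENNReal.ofReal_ne_top :
    volume (Set.Ico (0 : ℝ) 1) ≠ ⊤)

private lemma E_fin65 (x a b : ℝ) : volume {t : ℝ | t ∈ Set.Ico (0 : ℝ) 1 ∧
    a < Int.fract (t - x) ∧ Int.fract (t - x) ≤ b} ≠ ⊤ :=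
  measure_ne_top_of_subset (fun _ ht => ht.1) (by rw [Real.volume_Ico]; exact ENNReal.ofReal_ne_top :
    volume (Set.Ico (0 : ℝ) 1) ≠ ⊤)

private lemma vd_sub65 (v : ℕ → ℝ) (N : ℕ) (s s' : ℝ) (hss : s ≤ s') :
    vd v N s - vd v N s' = volume.real (V65 v N s \ V65 v N s') := by
  have h1 := measureReal_inter_add_sdiff (μ := volume) (s := V65 v N s) (mV65 v N s') (V_fin65 v N s)
  have h2 : V65 v N s ∩ V65 v N s' = V65 v N s' := by
    apply Set.inter_eq_self_of_subset_right
    intro t ht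
    refine ⟨ht.1, fun i hi h => ht.2 i hi ⟨h.1, h.2.trans ?_⟩⟩
    exact div_le_div_of_nonneg_right hss (Nat.cast_nonneg _)
  rw [h2] at h1
  change volume.real (V65 v N s) - volume.real (V65 v N s') = _
  linarith

theorem gap_le (v : ℕ → ℝ) (N : ℕ) (s s' : ℝ) (hs : 0 ≤ s) (hss : s ≤ s') (hN : s' < N) :
    (s' - s) / N * gp v N s' ≤ vd v N s - vd v N s' := by
  have hN0 : (0 : ℝ) < N := by linarith
  rw [vd_sub65 v N s s' hss]
  obtain ⟨E, hE⟩ : ∃ E : ℕ → Set ℝ, ∀ i, E i = {t : ℝ | t ∈ Set.Ico (0 : ℝ) 1 ∧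
    s / N < Int.fract (t - v i) ∧ Int.fract (t - v i) ≤ s' / N} := ⟨_, fun _ => rfl⟩
  obtain ⟨G, hG⟩ : ∃ G : Finset ℕ, G = (range N).filter
    (fun i => ∀ l < N, l ≠ i → s' < N * Int.fract (v l - v i)) := ⟨_, rfl⟩
  have hGm : ∀ i ∈ G, i < N ∧ ∀ l < N, l ≠ i → s' < N * Int.fract (v l - v i) := by
    intro i hi
    rw [hG, mem_filter, mem_range] at hi
    exact hi
  have h0 : ∀ i, volume.real (E i) = (s' - s) / N := by
    intro i
    rw [hE, vol_arc (v i) (s / N) (s' / N) (by positivity)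
      (div_le_div_of_nonneg_right hss hN0.le) (by rw [div_lt_one hN0]; exact hN)]
    ring
  have hs0 : 0 ≤ s' / N := div_nonneg (hs.trans hss) hN0.le
  have h1 : volume.real (⋃ i ∈ G, E i) = ∑ i ∈ G, volume.real (E i) := by
    apply measureReal_biUnion_finset
    · intro i hi l hl hil
      rw [Function.onFun, Set.disjoint_left]
      intro t hti htl
      rw [hE] at hti htl
      obtain ⟨hiN, hi2⟩ := hGm i hi
      obtain ⟨hlN, hl2⟩ := hGm l hl
      obtain ⟨-, a1, a2⟩ := hti
      obtain ⟨-, b1, b2⟩ := htl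
      rcases le_total (Int.fract (t - v l)) (Int.fract (t - v i)) with h | h
      · have h3 := hi2 l hlN (Ne.symm hil)
        rw [fr65 t (v i) (v l) h] at h3
        have h4 : s' / N < Int.fract (t - v i) - Int.fract (t - v l) := by
          rw [div_lt_iff₀ hN0]
          linarith
        linarith [Int.fract_nonneg (t - v l)]
      · have h3 := hl2 i hiN hil
        rw [fr65 t (v l) (v i) h] at h3
        have h4 : s' / N < Int.fract (t - v l) - Int.fract (t - v i) := by
          rw [div_lt_iff₀ hN0]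
          linarith
        linarith [Int.fract_nonneg (t - v i)]
    · intro i _
      rw [hE]
      exact mE65 _ _ _
    · intro i _
      rw [hE]
      exact E_fin65 _ _ _
  rw [Finset.sum_congr rfl fun i _ => h0 i, Finset.sum_const, nsmul_eq_mul] at h1
  have h2 : (s' - s) / N * (gp v N s' : ℝ) = volume.real (⋃ i ∈ G, E i) := by
    rw [h1, mul_comm]
    unfold gp
    rw [← hG]
  rw [h2]
  apply measureReal_mono _ (measure_ne_top_of_subset Set.sdiff_subset (V_fin65 v N s))
  intro t ht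
  simp only [Set.mem_iUnion] at ht
  obtain ⟨i, hi, hti⟩ := ht
  rw [hE] at hti
  obtain ⟨hiN, hi2⟩ := hGm i hi
  obtain ⟨a0, a1, a2⟩ := hti
  have hpos : 0 ≤ s / N := by positivity
  refine ⟨⟨a0, fun l hl hcon => ?_⟩, fun hcon => hcon.2 i hiN ⟨by linarith, a2⟩⟩
  have hli : l ≠ i := by
    rintro rfl
    linarith [hcon.2]
  have h3 := hi2 l hl hli
  rw [fr65 t (v i) (v l) (by linarith [hcon.2])] at h3
  have h4 : s' / N < Int.fract (t - v i) - Int.fract (t - v l) := by
    rw [div_lt_iff₀ hN0]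
    linarith
  linarith [hcon.1]

/-- the number of the indices with a later partner at the same place -/
private lemma partner65 (v : ℕ → ℝ) (N : ℕ) :
    (((range N).filter (fun i => (∀ l < i, Int.fract (v l - v i) ≠ 0) ∧
      ∃ l < N, i < l ∧ Int.fract (v l - v i) = 0)).card : ℝ) ≤ N - dp v N := by
  classical
  obtain ⟨A, hA⟩ : ∃ A, A = (range N).filter (fun i => (∀ l < i, Int.fract (v l - v i) ≠ 0) ∧
      ∃ l < N, i < l ∧ Int.fract (v l - v i) = 0) := ⟨_, rfl⟩
  obtain ⟨D, hD⟩ : ∃ D, D = (range N).filter (fun i => ∀ l < i, Int.fract (v l - v i) ≠ 0) :=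
    ⟨_, rfl⟩
  have hdp : dp v N = D.card := by
    rw [hD]
    rfl
  rw [← hA, hdp]
  have hDr : D ⊆ range N := by
    rw [hD]
    exact filter_subset _ _
  have h1 : (range N \ D).card = N - D.card := by
    rw [card_sdiff_of_subset hDr, card_range]
  have h2 : D.card ≤ N := by
    have := card_le_card hDr
    rwa [card_range] at this
  rw [← Nat.cast_sub h2, ← h1]
  have hAm : ∀ i ∈ A, i < N ∧ (∀ l < i, Int.fract (v l - v i) ≠ 0) ∧
      ∃ l < N, i < l ∧ Int.fract (v l - v i) = 0 := by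
    intro i hi
    rw [hA, mem_filter, mem_range] at hi
    exact hi
  have hch : ∀ i, ∃ l, i ∈ A → l < N ∧ i < l ∧ Int.fract (v l - v i) = 0 := by
    intro i
    by_cases hi : i ∈ A
    · obtain ⟨l, hl⟩ := (hAm i hi).2.2
      exact ⟨l, fun _ => hl⟩
    · exact ⟨0, fun h => absurd h hi⟩
  choose F hF using hch
  norm_cast
  apply card_le_card_of_injOn F
  · intro i hi
    obtain ⟨f1, f2, f3⟩ := hF i hi
    rw [mem_coe, mem_sdiff, mem_range]
    refine ⟨f1, fun hc => ?_⟩
    rw [hD, mem_filter] at hc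
    exact hc.2 i f2 (fr0_symm65 f3)
  · intro i hi l hl hil
    obtain ⟨f1, f2, f3⟩ := hF i hi
    obtain ⟨g1, g2, g3⟩ := hF l hl
    rw [← hil] at g3
    have h3 : Int.fract (v i - v l) = 0 := fr0_trans65 (fr0_symm65 f3) g3
    rcases lt_trichotomy i l with h | h | h
    · exact absurd h3 ((hAm l hl).2.1 i h)
    · exact h
    · exact absurd (fr0_symm65 h3) ((hAm i hi).2.1 l h)

theorem void_le (v : ℕ → ℝ) (N : ℕ) (s s' : ℝ) (hs : 0 ≤ s) (hss : s ≤ s') (hN : s' < N) :
    vd v N s - vd v N s' ≤ (s' - s) / N * (gp v N s + (N - dp v N)) := by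
  classical
  have hN0 : (0 : ℝ) < N := by linarith
  rw [vd_sub65 v N s s' hss]
  obtain ⟨E, hE⟩ : ∃ E : ℕ → Set ℝ, ∀ i, E i = {t : ℝ | t ∈ Set.Ico (0 : ℝ) 1 ∧
    s / N < Int.fract (t - v i) ∧ Int.fract (t - v i) ≤ s' / N} := ⟨_, fun _ => rfl⟩
  obtain ⟨G, hG⟩ : ∃ G : Finset ℕ, G = (range N).filter
    (fun i => ∀ l < N, l ≠ i → s < N * Int.fract (v l - v i)) := ⟨_, rfl⟩
  obtain ⟨A, hA⟩ : ∃ A, A = (range N).filter (fun i => (∀ l < i, Int.fract (v l - v i) ≠ 0) ∧
      ∃ l < N, i < l ∧ Int.fract (v l - v i) = 0) := ⟨_, rfl⟩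
  have hAc := partner65 v N
  rw [← hA] at hAc
  have h0 : ∀ i, volume.real (E i) = (s' - s) / N := by
    intro i
    rw [hE, vol_arc (v i) (s / N) (s' / N) (by positivity)
      (div_le_div_of_nonneg_right hss hN0.le) (by rw [div_lt_one hN0]; exact hN)]
    ring
  have hsub : V65 v N s \ V65 v N s' ⊆ ⋃ i ∈ G ∪ A, E i := by
    rintro t ⟨⟨t0, t1⟩, t2⟩
    have hex : ∃ i, i < N ∧ 0 < Int.fract (t - v i) ∧ Int.fract (t - v i) ≤ s' / N := by
      by_contra hcon
      apply t2
      refine ⟨t0, fun i hi h => hcon ⟨i, hi, h⟩⟩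
    -- the nearest point
    obtain ⟨Q, hQ⟩ : ∃ Q, Q = (range N).filter (fun i => 0 < Int.fract (t - v i)) := ⟨_, rfl⟩
    have hQne : Q.Nonempty := by
      obtain ⟨i, hi, hi1, -⟩ := hex
      exact ⟨i, by rw [hQ, mem_filter, mem_range]; exact ⟨hi, hi1⟩⟩
    obtain ⟨i0, hi0, hmin⟩ := Q.exists_min_image (fun i => Int.fract (t - v i)) hQne
    -- the smallest index
    have hex2 : ∃ i, i < N ∧ 0 < Int.fract (t - v i) ∧
        Int.fract (t - v i) = Int.fract (t - v i0) := by
      rw [hQ, mem_filter, mem_range] at hi0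
      exact ⟨i0, hi0.1, hi0.2, rfl⟩
    obtain ⟨i, hi, himin⟩ : ∃ i, (i < N ∧ 0 < Int.fract (t - v i) ∧
        Int.fract (t - v i) = Int.fract (t - v i0)) ∧ ∀ l < i, ¬ (l < N ∧ 0 < Int.fract (t - v l) ∧
        Int.fract (t - v l) = Int.fract (t - v i0)) :=
      ⟨Nat.find hex2, Nat.find_spec hex2, fun l hl => Nat.find_min hex2 hl⟩
    obtain ⟨hiN, hipos, hieq⟩ := hi
    have hmin' : ∀ l < N, 0 < Int.fract (t - v l) → Int.fract (t - v i) ≤ Int.fract (t - v l) := by
      intro l hl hlp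
      rw [hieq]
      exact hmin l (by rw [hQ, mem_filter, mem_range]; exact ⟨hl, hlp⟩)
    have hile : Int.fract (t - v i) ≤ s' / N := by
      obtain ⟨l, hl, hl1, hl2⟩ := hex
      exact (hmin' l hl hl1).trans hl2
    have higt : s / N < Int.fract (t - v i) := by
      by_contra hcon
      exact t1 i hiN ⟨hipos, not_lt.1 hcon⟩
    simp only [Set.mem_iUnion]
    refine ⟨i, ?_, by rw [hE]; exact ⟨t0, higt, hile⟩⟩
    rw [mem_union]
    by_cases hg : ∀ l < N, l ≠ i → s < N * Int.fract (v l - v i)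
    · left
      rw [hG, mem_filter, mem_range]
      exact ⟨hiN, hg⟩
    · right
      push Not at hg
      obtain ⟨l, hl, hli, hls⟩ := hg
      have hls' : Int.fract (v l - v i) ≤ s / N := by
        rw [le_div_iff₀ hN0]
        linarith
      have hd : ∀ l < i, Int.fract (v l - v i) ≠ 0 := by
        intro l hl h
        apply himin l hl
        have h1 := fr65' t (v i) (v l) (by rw [h]; exact hipos.le)
        rw [h, sub_zero] at h1
        exact ⟨hl.trans hiN, by rw [h1]; exact hipos, by rw [h1]; exact hieq⟩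
      have hf0 : Int.fract (v l - v i) = 0 := by
        by_contra hne
        have hpos : 0 < Int.fract (v l - v i) := lt_of_le_of_ne (Int.fract_nonneg _) (Ne.symm hne)
        have h1 := fr65' t (v i) (v l) (by linarith)
        have h2 := hmin' l hl (by rw [h1]; linarith)
        rw [h1] at h2
        linarith
      rw [hA, mem_filter, mem_range]
      refine ⟨hiN, hd, l, hl, ?_, hf0⟩
      rcases lt_trichotomy l i with h | h | h
      · exact absurd hf0 (hd l h)
      · exact absurd h hli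
      · exact h
  have hfin : volume (⋃ i ∈ G ∪ A, E i) ≠ ⊤ := by
    refine measure_ne_top_of_subset (show _ ⊆ Set.Ico (0 : ℝ) 1 from ?_) ?_
    · intro t ht
      simp only [Set.mem_iUnion] at ht
      obtain ⟨i, -, hti⟩ := ht
      rw [hE] at hti
      exact hti.1
    · rw [Real.volume_Ico]
      exact ENNReal.ofReal_ne_top
  refine (measureReal_mono hsub hfin).trans ((measureReal_biUnion_finset_le _ _).trans ?_)
  rw [Finset.sum_congr rfl fun i _ => h0 i, Finset.sum_const, nsmul_eq_mul, mul_comm]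
  apply mul_le_mul_of_nonneg_left _ (div_nonneg (by linarith) hN0.le)
  have h1 : ((G ∪ A).card : ℝ) ≤ G.card + A.card := by exact_mod_cast card_union_le G A
  have h2 : (gp v N s : ℝ) = G.card := by
    rw [hG]
    rfl
  rw [h2]
  linarith

theorem dp_ge (v : ℕ → ℝ) (N : ℕ) (s : ℝ) (hs : 0 ≤ s) (hN : s < N) :
    1 - vd v N s ≤ dp v N * (s / N) := by
  classical
  have hN0 : (0 : ℝ) < N := by linarith
  obtain ⟨E, hE⟩ : ∃ E : ℕ → Set ℝ, ∀ i, E i = {t : ℝ | t ∈ Set.Ico (0 : ℝ) 1 ∧
    0 < Int.fract (t - v i) ∧ Int.fract (t - v i) ≤ s / N} := ⟨_, fun _ => rfl⟩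
  obtain ⟨D, hD⟩ : ∃ D, D = (range N).filter (fun i => ∀ l < i, Int.fract (v l - v i) ≠ 0) :=
    ⟨_, rfl⟩
  have h0 : ∀ i, volume.real (E i) = s / N := by
    intro i
    rw [hE, vol_arc (v i) 0 (s / N) le_rfl (by positivity) (by rw [div_lt_one hN0]; exact hN)]
    ring
  have h1 := measureReal_inter_add_sdiff (μ := volume) (s := Set.Ico (0 : ℝ) 1) (mV65 v N s)
    (by rw [Real.volume_Ico]; exact ENNReal.ofReal_ne_top)
  have h2 : Set.Ico (0 : ℝ) 1 ∩ V65 v N s = V65 v N s :=
    Set.inter_eq_self_of_subset_right fun t ht => ht.1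
  rw [h2, Real.volume_real_Ico_of_le zero_le_one, sub_zero] at h1
  have h3 : vd v N s = volume.real (V65 v N s) := rfl
  rw [← h3] at h1
  have hsub : Set.Ico (0 : ℝ) 1 \ V65 v N s ⊆ ⋃ i ∈ D, E i := by
    rintro t ⟨t0, t2⟩
    have hex : ∃ i, i < N ∧ 0 < Int.fract (t - v i) ∧ Int.fract (t - v i) ≤ s / N := by
      by_contra hcon
      apply t2
      refine ⟨t0, fun i hi h => hcon ⟨i, hi, h⟩⟩
    obtain ⟨i, hi, himin⟩ : ∃ i, (i < N ∧ 0 < Int.fract (t - v i) ∧ Int.fract (t - v i) ≤ s / N) ∧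
        ∀ l < i, ¬ (l < N ∧ 0 < Int.fract (t - v l) ∧ Int.fract (t - v l) ≤ s / N) :=
      ⟨Nat.find hex, Nat.find_spec hex, fun l hl => Nat.find_min hex hl⟩
    simp only [Set.mem_iUnion]
    refine ⟨i, ?_, by rw [hE]; exact ⟨t0, hi.2⟩⟩
    rw [hD, mem_filter, mem_range]
    refine ⟨hi.1, fun l hl h => ?_⟩
    apply himin l hl
    have h1 := fr65' t (v i) (v l) (by rw [h]; exact hi.2.1.le)
    rw [h, sub_zero] at h1
    rw [h1]
    exact ⟨hl.trans hi.1, hi.2⟩
  have hfin : volume (⋃ i ∈ D, E i) ≠ ⊤ := by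
    refine measure_ne_top_of_subset (show _ ⊆ Set.Ico (0 : ℝ) 1 from ?_) ?_
    · intro t ht
      simp only [Set.mem_iUnion] at ht
      obtain ⟨i, -, hti⟩ := ht
      rw [hE] at hti
      exact hti.1
    · rw [Real.volume_Ico]
      exact ENNReal.ofReal_ne_top
  have h4 := (measureReal_mono hsub hfin).trans (measureReal_biUnion_finset_le (μ := volume) D E)
  rw [Finset.sum_congr rfl fun i _ => h0 i, Finset.sum_const, nsmul_eq_mul] at h4
  have h5 : (dp v N : ℝ) = D.card := by
    rw [hD]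
    rfl
  rw [h5]
  linarith

end Pool.Agent.Helper59.PP
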