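import Pool.Agent.Helper59.PP.GapA

/-!
# Block PP-GAPB: the law of the gaps

PROOF.  For `s > 0` `Poiss v` with `r = 1`, `α = -s`, `β = 0`, `j = 0` gives `vd v N s → exp (-s)`: `InU` for `v i - t`: `-s ≤ N (v i - t + m) < 0` for an integer `m` iff
`0 < t - v i - m ≤ s / N`, and for `s < N` this is `0 < fract (t - v i) ≤ s / N`; `cntS = 0` iff there is no such `i < N`.  `vd v N 0 = 1`.
1. `dp v N / N → 1`: `dp v N ≤ N`, and by `dp_ge` `dp v N / N ≥ (1 - vd v N s) / s → (1 - exp (-s)) / s` for every `s > 0`, which tends to `1` as `s → 0`.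
2. For `0 ≤ s < s'`: `limsup gp v N s' / N ≤ (exp (-s) - exp (-s')) / (s' - s)` by `gap_le`, and `liminf gp v N s / N ≥ (exp (-s) - exp (-s')) / (s' - s)` by `void_le` and 1.
   The difference quotients tend to `exp (-s')` as `s → s'` and to `exp (-s)` as `s' → s` (derivative of `exp (-x)`; or the explicit bounds
   `exp (-s') ≤ (exp (-s) - exp (-s')) / (s' - s) ≤ exp (-s)`).  For `s = 0` the upper bound is `gp v N 0 ≤ N`.
So `gp v N s / N → exp (-s)`: for every `ε > 0` eventually within `ε`.
-/

namespace Pool.Agent.Helper59.PP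

open Finset MeasureTheory Filter
open scoped Topology

private lemma inU_iff93 {s : ℝ} {N : ℕ} (hN : s < N) (hN0 : (0 : ℝ) < N) (x t : ℝ) :
    InU (fun _ : Fin 1 => -s) (fun _ => (0 : ℝ)) N (x - t) ↔
      0 < Int.fract (t - x) ∧ Int.fract (t - x) ≤ s / N := by
  constructor
  · rintro ⟨l, m, h1, h2⟩
    simp only at h1 h2
    have h3 : 0 < t - x - m := by
      by_contra hcon
      have : 0 ≤ x - t + m := by linarith
      have := mul_nonneg hN0.le this
      linarith
    have h4 : t - x - m ≤ s / N := by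
      rw [le_div_iff₀ hN0]
      linarith
    have h5 : s / N < 1 := by rw [div_lt_one hN0]; exact hN
    have h6 : Int.fract (t - x) = t - x - m := by
      rw [Int.fract_eq_iff]
      exact ⟨h3.le, by linarith, m, by ring⟩
    rw [h6]
    exact ⟨h3, h4⟩
  · rintro ⟨h1, h2⟩
    refine ⟨0, ⌊t - x⌋, ?_, ?_⟩
    · rw [le_div_iff₀ hN0] at h2
      have h3 := Int.floor_add_fract (t - x)
      have h4 : x - t + (⌊t - x⌋ : ℝ) = -Int.fract (t - x) := by linarith
      rw [h4]
      linarith
    · have h3 := Int.floor_add_fract (t - x)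
      have h4 : x - t + (⌊t - x⌋ : ℝ) = -Int.fract (t - x) := by linarith
      rw [h4]
      have := mul_pos hN0 h1
      linarith

private lemma vd_lim93 {v : ℕ → ℝ} (h : Poiss v) {s : ℝ} (hs : 0 ≤ s) :
    Tendsto (fun N : ℕ => vd v N s) atTop (𝓝 (Real.exp (-s))) := by
  classical
  rcases hs.eq_or_lt with rfl | hs
  · have h1 : ∀ N : ℕ, vd v N 0 = 1 := by
      intro N
      unfold vd
      have h2 : {t : ℝ | t ∈ Set.Ico (0 : ℝ) 1 ∧
          ∀ i < N, ¬ (0 < Int.fract (t - v i) ∧ Int.fract (t - v i) ≤ 0 / N)} = Set.Ico (0 : ℝ) 1 := by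
        ext t
        constructor
        · exact fun ht => ht.1
        · intro ht
          refine ⟨ht, fun i _ h => ?_⟩
          rw [zero_div] at h
          exact absurd h.1 (not_lt.2 h.2)
      rw [h2, Real.volume_real_Ico_of_le zero_le_one, sub_zero]
    rw [funext h1, neg_zero, Real.exp_zero]
    exact tendsto_const_nhds
  · have h1 := h 1 (fun _ => -s) (fun _ => 0) (fun _ => by simpa using hs)
      (fun l l' hl => absurd (Subsingleton.elim l l') hl) 0
    have h2 : Real.exp (-∑ l : Fin 1, ((0 : ℝ) - -s)) * (∑ l : Fin 1, ((0 : ℝ) - -s)) ^ 0 / (Nat.factorial 0 : ℝ) =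
        Real.exp (-s) := by simp
    rw [h2] at h1
    refine h1.congr' ?_
    obtain ⟨N0, hN0⟩ := exists_nat_gt s
    filter_upwards [eventually_ge_atTop N0, eventually_ge_atTop 1] with N hN hN1
    have hNs : s < N := hN0.trans_le (by exact_mod_cast hN)
    have hNp : (0 : ℝ) < N := by exact_mod_cast hN1
    unfold vd
    congr 1
    ext t
    simp only [Set.mem_ofPred_eq]
    refine and_congr_right fun _ => ?_
    unfold cntS
    rw [card_eq_zero, filter_eq_empty_iff]
    constructor
    · intro h3 i hi h4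
      exact h3 (mem_range.2 hi) ((inU_iff93 hNs hNp _ _).2 h4)
    · intro h3 i hi h4
      exact h3 i (mem_range.1 hi) ((inU_iff93 hNs hNp _ _).1 h4)

private lemma gp_le93 (v : ℕ → ℝ) (N : ℕ) (s : ℝ) : gp v N s ≤ N := by
  unfold gp
  exact (card_filter_le _ _).trans (card_range N).le

private lemma dp_le93 (v : ℕ → ℝ) (N : ℕ) : dp v N ≤ N := by
  unfold dp
  exact (card_filter_le _ _).trans (card_range N).le

private lemma dp_lim93 {v : ℕ → ℝ} (h : Poiss v) :
    Tendsto (fun N : ℕ => (dp v N : ℝ) / N) atTop (𝓝 1) := by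
  rw [tendsto_order]
  constructor
  · intro a ha
    -- choose `s` with `a < 1 / (1 + s)`
    obtain ⟨s, hs0, hs⟩ : ∃ s : ℝ, 0 < s ∧ a < 1 / (1 + s) := by
      have hc : Tendsto (fun s : ℝ => 1 / (1 + s)) (𝓝[>] 0) (𝓝 (1 / (1 + 0))) := by
        have : ContinuousAt (fun s : ℝ => 1 / (1 + s)) 0 := by
          apply ContinuousAt.div continuousAt_const (by fun_prop) (by norm_num)
        exact this.tendsto.mono_left nhdsWithin_le_nhds
      have h1 : a < 1 / (1 + 0) := by simpa using ha
      obtain ⟨s, h2, h3⟩ := ((hc.eventually (lt_mem_nhds h1)).and self_mem_nhdsWithin).exists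
      exact ⟨s, h3, h2⟩
    have h1 : Tendsto (fun N : ℕ => (1 - vd v N s) / s) atTop (𝓝 ((1 - Real.exp (-s)) / s)) :=
      (tendsto_const_nhds.sub (vd_lim93 h hs0.le)).div_const s
    have h2 : a < (1 - Real.exp (-s)) / s := by
      refine hs.trans_le ?_
      rw [div_le_div_iff₀ (by linarith) hs0]
      have h3 := Real.add_one_le_exp s
      have h4 : Real.exp (-s) * Real.exp s = 1 := by
        rw [← Real.exp_add]
        simp
      have h5 := Real.exp_pos (-s)
      nlinarith
    obtain ⟨N0, hN0⟩ := exists_nat_gt s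
    filter_upwards [h1.eventually (lt_mem_nhds h2), eventually_ge_atTop N0] with N h3 hN
    have hNs : s < N := hN0.trans_le (by exact_mod_cast hN)
    have hNp : (0 : ℝ) < N := hs0.trans hNs
    refine h3.trans_le ?_
    have h4 := dp_ge v N s hs0.le hNs
    rw [div_le_div_iff₀ hs0 hNp]
    have h5 : (dp v N : ℝ) * (s / N) * N = dp v N * s := by
      field_simp
    nlinarith
  · intro a ha
    filter_upwards [eventually_ge_atTop 1] with N hN
    have hNp : (0 : ℝ) < N := by exact_mod_cast hN
    refine lt_of_le_of_lt ?_ ha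
    rw [div_le_one hNp]
    exact_mod_cast dp_le93 v N

theorem gap_law (v : ℕ → ℝ) (h : Poiss v) : GapLaw v := by
  intro s hs
  change Tendsto (fun N : ℕ => (gp v N s : ℝ) / N) atTop (𝓝 (Real.exp (-s)))
  have hcont : Continuous fun x : ℝ => Real.exp (-x) := by fun_prop
  rw [tendsto_order]
  constructor
  · intro a ha
    obtain ⟨s', hs'a, hs'⟩ : ∃ s' : ℝ, a < Real.exp (-s') ∧ s < s' := by
      have h1 := ((hcont.tendsto s).mono_left (nhdsWithin_le_nhds (s := Set.Ioi s))).eventually (lt_mem_nhds ha)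
      obtain ⟨s', h2, h3⟩ := (h1.and self_mem_nhdsWithin).exists
      exact ⟨s', h2, h3⟩
    have hd : 0 < s' - s := by linarith
    have h1 : Tendsto (fun N : ℕ => (vd v N s - vd v N s') / (s' - s) - (1 - (dp v N : ℝ) / N)) atTop
        (𝓝 ((Real.exp (-s) - Real.exp (-s')) / (s' - s) - (1 - 1))) :=
      (((vd_lim93 h hs).sub (vd_lim93 h (hs.trans hs'.le))).div_const _).sub
        (tendsto_const_nhds.sub (dp_lim93 h))
    have h2 : a < (Real.exp (-s) - Real.exp (-s')) / (s' - s) - (1 - 1) := by
      rw [sub_self, sub_zero]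
      refine hs'a.trans_le ?_
      rw [le_div_iff₀ hd]
      have h3 : Real.exp (-s) = Real.exp (-s') * Real.exp (s' - s) := by
        rw [← Real.exp_add]
        congr 1
        ring
      have h4 := Real.add_one_le_exp (s' - s)
      have h5 := Real.exp_pos (-s')
      rw [h3]
      nlinarith
    obtain ⟨N0, hN0⟩ := exists_nat_gt s'
    filter_upwards [h1.eventually (lt_mem_nhds h2), eventually_ge_atTop N0] with N h3 hN
    have hNs : s' < N := hN0.trans_le (by exact_mod_cast hN)
    have hNp : (0 : ℝ) < N := by linarith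
    refine h3.trans_le ?_
    have h4 := void_le v N s s' hs hs'.le hNs
    have h5 : (vd v N s - vd v N s') / (s' - s) ≤ (gp v N s + (N - dp v N)) / N := by
      rw [div_le_div_iff₀ hd hNp]
      have h6 : (s' - s) / N * ((gp v N s : ℝ) + (N - dp v N)) * N = (s' - s) * (gp v N s + (N - dp v N)) := by
        field_simp
      nlinarith
    have h7 : ((gp v N s : ℝ) + (N - dp v N)) / N = gp v N s / N + (1 - dp v N / N) := by
      field_simp
    rw [h7] at h5
    linarith
  · intro a ha
    rcases hs.eq_or_lt with hs0 | hs0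
    · filter_upwards [eventually_ge_atTop 1] with N hN
      have hNp : (0 : ℝ) < N := by exact_mod_cast hN
      refine lt_of_le_of_lt ?_ ha
      rw [← hs0, neg_zero, Real.exp_zero, div_le_one hNp]
      exact_mod_cast gp_le93 v N 0
    · obtain ⟨s', hs'a, hs', hs'0⟩ : ∃ s' : ℝ, Real.exp (-s') < a ∧ s' < s ∧ 0 < s' := by
        have h1 := ((hcont.tendsto s).mono_left (nhdsWithin_le_nhds (s := Set.Iio s))).eventually (gt_mem_nhds ha)
        have h4 : ∀ᶠ x in 𝓝[<] s, 0 < x := nhdsWithin_le_nhds (lt_mem_nhds hs0)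
        obtain ⟨s', ⟨h2, h5⟩, h3⟩ := ((h1.and h4).and self_mem_nhdsWithin).exists
        exact ⟨s', h2, h3, h5⟩
      have hd : 0 < s - s' := by linarith
      have h1 : Tendsto (fun N : ℕ => (vd v N s' - vd v N s) / (s - s')) atTop
          (𝓝 ((Real.exp (-s') - Real.exp (-s)) / (s - s'))) :=
        ((vd_lim93 h hs'0.le).sub (vd_lim93 h hs)).div_const _
      have h2 : (Real.exp (-s') - Real.exp (-s)) / (s - s') < a := by
        refine lt_of_le_of_lt ?_ hs'a
        rw [div_le_iff₀ hd]
        have h3 : Real.exp (-s) = Real.exp (-s') * Real.exp (-(s - s')) := by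
          rw [← Real.exp_add]
          congr 1
          ring
        have h4 := Real.add_one_le_exp (-(s - s'))
        have h5 := Real.exp_pos (-s')
        rw [h3]
        nlinarith
      obtain ⟨N0, hN0⟩ := exists_nat_gt s
      filter_upwards [h1.eventually (gt_mem_nhds h2), eventually_ge_atTop N0] with N h3 hN
      have hNs : s < N := hN0.trans_le (by exact_mod_cast hN)
      have hNp : (0 : ℝ) < N := by linarith
      refine lt_of_le_of_lt ?_ h3
      have h4 := gap_le v N s' s hs'0.le hs'.le hNs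
      rw [div_le_div_iff₀ hNp hd]
      have h6 : (s - s') / N * (gp v N s : ℝ) * N = (s - s') * gp v N s := by
        field_simp
      nlinarith

end Pool.Agent.Helper59.PP
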