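import Pool.Agent.Helper59.PP.Cnt

/-!
# Block PP-INTER: from the squares to all N, and from rational to real intervals

PROOF.  Notation `D N α β t = cntS v α β (range N) N t`, `Λ = ∑ (β l - α l)`, `F_λ(j) = ∑_(m ≤ j) e^(-λ) λ^m / m!`.
* `cnt_mono`: if `S ⊆ S'` and for all `l` `α' l / N' ≤ α l / N` and `β l / N ≤ β' l / N'` then `cntS v α β S N t ≤ cntS v α' β' S' N' t` (`InU α β N x → InU α' β' N' x`: the
  same `l`, `m`).
* `inter`: given `α, β` and `η > 0` small choose rationals `α⁺ l ∈ (α l - η, α l)`, `β⁺ l ∈ (β l, β l + η)`, `α⁻ l ∈ (α l, α l + η)`, `β⁻ l ∈ (β l - η, β l)`, with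
  `α⁻ l < β⁻ l` and both families still separated (`η` small).  For `N` large let `i = Nat.sqrt N`, so `i² ≤ N < (i+1)²`, and `(i+1)² / i² → 1`.  `cnt_mono` gives
  `D (i²) α⁻ β⁻ t ≤ D N α β t ≤ D ((i+1)²) α⁺ β⁺ t` for `N` large (the inequalities `α⁺ l ≤ α l (i+1)² / N`, `β l (i+1)² / N ≤ β⁺ l`,
  `α l i² / N ≤ α⁻ l`, `β⁻ l ≤ β l i² / N` hold for `N` large, whatever the signs).
  So `vol {D⁺ ≤ j} ≤ vol {D N ≤ j} ≤ vol {D⁻ ≤ j}`, and by hypothesis (finite sums over `m ≤ j`) the two sides tend to `F_(Λ⁺)(j)`, `F_(Λ⁻)(j)`, with `|Λ^± - Λ| ≤ 2 r η`.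
  `F_λ(j)` is continuous in `λ`; `η → 0`: `vol {D N ≤ j} → F_Λ(j)`; finally `vol {D N = j} = vol {D N ≤ j} - vol {D N ≤ j - 1}` (`j ≥ 1`).
-/

namespace Pool.Agent.Helper59.PP

open Finset MeasureTheory Filter
open scoped Topology

/-- The Poisson property along the squares, for rational intervals. -/
def PoissQ (v : ℕ → ℝ) : Prop :=
  ∀ (r : ℕ) (α β : Fin r → ℚ), (∀ l, α l < β l) → (∀ l l', l ≠ l' → β l < α l' ∨ β l' < α l) →
    ∀ j : ℕ, Tendsto (fun i : ℕ => volume.real {t : ℝ | t ∈ Set.Ico (0 : ℝ) 1 ∧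
      cntS v (fun l => (α l : ℝ)) (fun l => (β l : ℝ)) (range (i ^ 2)) (i ^ 2) t = j}) atTop
      (𝓝 (Real.exp (-∑ l, ((β l : ℝ) - α l)) * (∑ l, ((β l : ℝ) - α l)) ^ j / j.factorial))

theorem cnt_mono {r : ℕ} (v : ℕ → ℝ) (α β α' β' : Fin r → ℝ) (S S' : Finset ℕ) (hS : S ⊆ S')
    (N N' : ℕ) (hN : 1 ≤ N) (hN' : 1 ≤ N') (hα : ∀ l, α' l / N' ≤ α l / N)
    (hβ : ∀ l, β l / N ≤ β' l / N') (t : ℝ) :
    cntS v α β S N t ≤ cntS v α' β' S' N' t := by
  classical
  have hN0 : (0 : ℝ) < N := by exact_mod_cast hN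
  have hN0' : (0 : ℝ) < N' := by exact_mod_cast hN'
  unfold cntS
  refine Finset.card_le_card fun i hi => ?_
  obtain ⟨hi1, l, m, h1, h2⟩ := Finset.mem_filter.1 hi
  refine Finset.mem_filter.2 ⟨hS hi1, l, m, ?_, ?_⟩
  · have h3 : α l / N ≤ v i - t + m := by
      rw [div_le_iff₀ hN0]
      linarith
    have h4 := (hα l).trans h3
    rw [div_le_iff₀ hN0'] at h4
    linarith
  · have h3 : v i - t + m < β l / N := by
      rw [lt_div_iff₀ hN0]
      linarith
    have h4 := h3.trans_le (hβ l)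
    rw [lt_div_iff₀ hN0'] at h4
    linarith

private theorem cum68 {D : ℝ → ℕ} (hD : Measurable D) (j : ℕ) :
    volume.real {t : ℝ | t ∈ Set.Ico (0 : ℝ) 1 ∧ D t ≤ j} =
      ∑ m ∈ range (j + 1), volume.real {t : ℝ | t ∈ Set.Ico (0 : ℝ) 1 ∧ D t = m} := by
  have e1 : {t : ℝ | t ∈ Set.Ico (0 : ℝ) 1 ∧ D t ≤ j} =
      ⋃ m ∈ range (j + 1), {t : ℝ | t ∈ Set.Ico (0 : ℝ) 1 ∧ D t = m} := by
    ext t
    rw [Set.mem_iUnion₂]
    constructor
    · rintro ⟨h1, h2⟩
      exact ⟨D t, Finset.mem_range.2 (by omega), h1, rfl⟩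
    · rintro ⟨m, hm, h1, h2⟩
      have h3 := Finset.mem_range.1 hm
      exact ⟨h1, by omega⟩
  rw [e1]
  refine measureReal_biUnion_finset ?_ ?_ ?_
  · intro m _ m' _ hmm
    exact Set.disjoint_left.2 fun t h1 h2 => hmm (h1.2.symm.trans h2.2)
  · intro m _
    exact measurableSet_Ico.inter (hD (measurableSet_singleton m))
  · intro m _
    refine ne_top_of_le_ne_top (b := volume (Set.Ico (0 : ℝ) 1)) (by simp) ?_
    exact measure_mono fun t ht => ht.1

private theorem mono68 {D D' : ℝ → ℕ} (h : ∀ t, D t ≤ D' t) (j : ℕ) :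
    volume.real {t : ℝ | t ∈ Set.Ico (0 : ℝ) 1 ∧ D' t ≤ j} ≤
      volume.real {t : ℝ | t ∈ Set.Ico (0 : ℝ) 1 ∧ D t ≤ j} := by
  refine measureReal_mono (fun t ht => ⟨ht.1, (h t).trans ht.2⟩) ?_
  refine ne_top_of_le_ne_top (b := volume (Set.Ico (0 : ℝ) 1)) (by simp) ?_
  exact measure_mono fun t ht => ht.1

private theorem sqrt_tends68 : Tendsto Nat.sqrt atTop atTop := by
  rw [tendsto_atTop]
  intro b
  filter_upwards [eventually_ge_atTop (b * b)] with N hN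
  exact Nat.le_sqrt.2 hN

private theorem inv_tends68 : Tendsto (fun N : ℕ => (3 : ℝ) / (Nat.sqrt N : ℝ)) atTop (𝓝 0) :=
  (tendsto_const_nhds.div_atTop tendsto_natCast_atTop_atTop).comp sqrt_tends68

private theorem ratio1_68 :
    Tendsto (fun N : ℕ => (Nat.sqrt N : ℝ) ^ 2 / N) atTop (𝓝 1) := by
  have h0 : Tendsto (fun N : ℕ => 1 - (3 : ℝ) / (Nat.sqrt N : ℝ)) atTop (𝓝 (1 - 0)) :=
    tendsto_const_nhds.sub inv_tends68
  rw [sub_zero] at h0
  refine tendsto_of_tendsto_of_tendsto_of_le_of_le' h0 tendsto_const_nhds ?_ ?_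
  · filter_upwards [eventually_ge_atTop 1] with N hN
    have hs : 1 ≤ Nat.sqrt N := Nat.le_sqrt.2 (by simpa using hN)
    have hs' : (1 : ℝ) ≤ Nat.sqrt N := by exact_mod_cast hs
    have hN' : (1 : ℝ) ≤ N := by exact_mod_cast hN
    have h1 : Nat.sqrt N * Nat.sqrt N ≤ N := Nat.sqrt_le N
    have h2 : N ≤ Nat.sqrt N * Nat.sqrt N + Nat.sqrt N + Nat.sqrt N := Nat.sqrt_le_add N
    have h1' : (Nat.sqrt N : ℝ) * Nat.sqrt N ≤ N := by exact_mod_cast h1
    have h2' : (N : ℝ) ≤ (Nat.sqrt N : ℝ) * Nat.sqrt N + Nat.sqrt N + Nat.sqrt N := by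
      exact_mod_cast h2
    have h3 : (3 : ℝ) / Nat.sqrt N ≥ (2 * Nat.sqrt N) / N := by
      rw [ge_iff_le, div_le_div_iff₀ (by linarith) (by linarith)]
      nlinarith
    have h4 : 1 - (2 * (Nat.sqrt N : ℝ)) / N ≤ (Nat.sqrt N : ℝ) ^ 2 / N := by
      rw [sub_le_iff_le_add, ← add_div, le_div_iff₀ (by linarith)]
      nlinarith
    linarith
  · filter_upwards [eventually_ge_atTop 1] with N hN
    have hN' : (1 : ℝ) ≤ N := by exact_mod_cast hN
    have h1 : Nat.sqrt N * Nat.sqrt N ≤ N := Nat.sqrt_le N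
    have h1' : (Nat.sqrt N : ℝ) * Nat.sqrt N ≤ N := by exact_mod_cast h1
    rw [div_le_one (by linarith)]
    nlinarith

private theorem ratio2_68 :
    Tendsto (fun N : ℕ => ((Nat.sqrt N : ℝ) + 1) ^ 2 / N) atTop (𝓝 1) := by
  have h0 : Tendsto (fun N : ℕ => 1 + (3 : ℝ) / (Nat.sqrt N : ℝ)) atTop (𝓝 (1 + 0)) :=
    tendsto_const_nhds.add inv_tends68
  rw [add_zero] at h0
  refine tendsto_of_tendsto_of_tendsto_of_le_of_le' tendsto_const_nhds h0 ?_ ?_
  · filter_upwards [eventually_ge_atTop 1] with N hN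
    have hN' : (1 : ℝ) ≤ N := by exact_mod_cast hN
    have h2 : N ≤ Nat.sqrt N * Nat.sqrt N + Nat.sqrt N + Nat.sqrt N := Nat.sqrt_le_add N
    have h2' : (N : ℝ) ≤ (Nat.sqrt N : ℝ) * Nat.sqrt N + Nat.sqrt N + Nat.sqrt N := by
      exact_mod_cast h2
    rw [one_le_div (by linarith)]
    nlinarith
  · filter_upwards [eventually_ge_atTop 1] with N hN
    have hs : 1 ≤ Nat.sqrt N := Nat.le_sqrt.2 (by simpa using hN)
    have hs' : (1 : ℝ) ≤ Nat.sqrt N := by exact_mod_cast hs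
    have hN' : (1 : ℝ) ≤ N := by exact_mod_cast hN
    have h1 : Nat.sqrt N * Nat.sqrt N ≤ N := Nat.sqrt_le N
    have h1' : (Nat.sqrt N : ℝ) * Nat.sqrt N ≤ N := by exact_mod_cast h1
    have h3 : (3 * (Nat.sqrt N : ℝ)) / N ≤ (3 : ℝ) / Nat.sqrt N := by
      rw [div_le_div_iff₀ (by linarith) (by linarith)]
      nlinarith
    have h4 : ((Nat.sqrt N : ℝ) + 1) ^ 2 / N ≤ 1 + (3 * (Nat.sqrt N : ℝ)) / N := by
      rw [← sub_le_iff_le_add, ← sub_div, div_le_one (by linarith)]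
      nlinarith
    linarith

private theorem lim68 (v : ℕ → ℝ) (h : PoissQ v) (r : ℕ) (α β : Fin r → ℝ)
    (hαβ : ∀ l, α l < β l) (hsep : ∀ l l', l ≠ l' → β l < α l' ∨ β l' < α l) (j : ℕ) :
    Tendsto (fun N : ℕ => volume.real {t : ℝ | t ∈ Set.Ico (0 : ℝ) 1 ∧
      cntS v α β (range N) N t ≤ j}) atTop
      (𝓝 (∑ m ∈ range (j + 1), Real.exp (-∑ l, (β l - α l)) * (∑ l, (β l - α l)) ^ m /
        m.factorial)) := by
  obtain ⟨F, hF⟩ : ∃ F : ℝ → ℝ, F = fun x => ∑ m ∈ range (j + 1), Real.exp (-x) * x ^ m /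
    m.factorial := ⟨_, rfl⟩
  have hFc : Continuous F := by
    rw [hF]
    fun_prop
  obtain ⟨Λ, hΛ⟩ : ∃ Λ, Λ = ∑ l, (β l - α l) := ⟨_, rfl⟩
  have hFΛ : ∑ m ∈ range (j + 1), Real.exp (-∑ l, (β l - α l)) * (∑ l, (β l - α l)) ^ m /
        m.factorial = F Λ := by
    rw [hF, hΛ]
  rw [hFΛ, Metric.tendsto_nhds]
  intro ε hε
  obtain ⟨δ, hδ, hFδ⟩ := Metric.continuous_iff.1 hFc Λ (ε / 2) (by linarith)
  have ht : ∀ a b : ℝ, Tendsto (fun η : ℝ => a + b * η) (𝓝[>] 0) (𝓝 a) := by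
    intro a b
    have h1 : Continuous fun η : ℝ => a + b * η := by fun_prop
    have h2 := h1.tendsto 0
    simp only [mul_zero, add_zero] at h2
    exact h2.mono_left nhdsWithin_le_nhds
  obtain ⟨η, hη, hη1, hη2, hη3⟩ : ∃ η : ℝ, 0 < η ∧ 0 + (2 * r) * η < δ ∧
      (∀ l, α l + 2 * η < β l) ∧
      (∀ l l', l ≠ l' → β l + 2 * η < α l' ∨ β l' + 2 * η < α l) := by
    have ha : ∀ᶠ η : ℝ in 𝓝[>] 0, 0 + (2 * r) * η < δ := (ht 0 (2 * r)).eventually_lt_const hδ
    have hb : ∀ᶠ η : ℝ in 𝓝[>] 0, ∀ l, α l + 2 * η < β l :=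
      eventually_all.2 fun l => (ht (α l) 2).eventually_lt_const (hαβ l)
    have hc : ∀ᶠ η : ℝ in 𝓝[>] 0, ∀ l l', l ≠ l' →
        β l + 2 * η < α l' ∨ β l' + 2 * η < α l := by
      refine eventually_all.2 fun l => eventually_all.2 fun l' => ?_
      by_cases hl : l = l'
      · exact Eventually.of_forall fun η hne => absurd hl hne
      · rcases hsep l l' hl with h1 | h1
        · filter_upwards [(ht (β l) 2).eventually_lt_const h1] with η hη _ using Or.inl hη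
        · filter_upwards [(ht (β l') 2).eventually_lt_const h1] with η hη _ using Or.inr hη
    obtain ⟨η, ⟨h1, h2⟩, h3, h4⟩ :=
      ((ha.and hb).and (hc.and (self_mem_nhdsWithin : ∀ᶠ η : ℝ in 𝓝[>] 0, η ∈ Set.Ioi 0))).exists
    exact ⟨η, h4, h1, h2, h3⟩
  choose αp hαp1 hαp2 using fun l => exists_rat_btwn (show α l - η < α l by linarith)
  choose βp hβp1 hβp2 using fun l => exists_rat_btwn (show β l < β l + η by linarith)
  choose αm hαm1 hαm2 using fun l => exists_rat_btwn (show α l < α l + η by linarith)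
  choose βm hβm1 hβm2 using fun l => exists_rat_btwn (show β l - η < β l by linarith)
  have hp := h r αp βp (fun l => by
    have : (αp l : ℝ) < βp l := by linarith [hαp2 l, hαβ l, hβp1 l]
    exact_mod_cast this) (fun l l' hl => by
    rcases hη3 l l' hl with h1 | h1
    · left
      have : (βp l : ℝ) < αp l' := by linarith [hβp2 l, hαp1 l']
      exact_mod_cast this
    · right
      have : (βp l' : ℝ) < αp l := by linarith [hβp2 l', hαp1 l]
      exact_mod_cast this)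
  have hm := h r αm βm (fun l => by
    have : (αm l : ℝ) < βm l := by linarith [hαm2 l, hη2 l, hβm1 l]
    exact_mod_cast this) (fun l l' hl => by
    rcases hsep l l' hl with h1 | h1
    · left
      have : (βm l : ℝ) < αm l' := by linarith [hβm2 l, hαm1 l']
      exact_mod_cast this
    · right
      have : (βm l' : ℝ) < αm l := by linarith [hβm2 l', hαm1 l]
      exact_mod_cast this)
  obtain ⟨Λp, hΛp⟩ : ∃ x, x = ∑ l, ((βp l : ℝ) - αp l) := ⟨_, rfl⟩
  obtain ⟨Λm, hΛm⟩ : ∃ x, x = ∑ l, ((βm l : ℝ) - αm l) := ⟨_, rfl⟩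
  have hsumη : ∑ _l : Fin r, 2 * η = 2 * r * η := by
    rw [sum_const, card_univ, Fintype.card_fin, nsmul_eq_mul]
    ring
  have hΛp1 : dist Λp Λ < δ := by
    have h1 : Λ ≤ Λp := by
      rw [hΛ, hΛp]
      exact sum_le_sum fun l _ => by linarith [hαp2 l, hβp1 l]
    have h2 : Λp ≤ Λ + 2 * r * η := by
      rw [hΛ, hΛp, ← hsumη, ← sum_add_distrib]
      exact sum_le_sum fun l _ => by linarith [hαp1 l, hβp2 l]
    rw [Real.dist_eq, abs_of_nonneg (by linarith)]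
    linarith
  have hΛm1 : dist Λm Λ < δ := by
    have h1 : Λm ≤ Λ := by
      rw [hΛ, hΛm]
      exact sum_le_sum fun l _ => by linarith [hαm1 l, hβm2 l]
    have h2 : Λ ≤ Λm + 2 * r * η := by
      rw [hΛ, hΛm, ← hsumη, ← sum_add_distrib]
      exact sum_le_sum fun l _ => by linarith [hαm2 l, hβm1 l]
    rw [Real.dist_eq, abs_of_nonpos (by linarith)]
    linarith
  have hFp := hFδ Λp hΛp1
  have hFm := hFδ Λm hΛm1
  rw [Real.dist_eq, abs_lt] at hFp hFm
  have hCp : Tendsto (fun i : ℕ => volume.real {t : ℝ | t ∈ Set.Ico (0 : ℝ) 1 ∧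
      cntS v (fun l => (αp l : ℝ)) (fun l => (βp l : ℝ)) (range (i ^ 2)) (i ^ 2) t ≤ j}) atTop
      (𝓝 (F Λp)) := by
    simp only [cum68 (meas_cnt v _ _ _ _)]
    rw [hF, hΛp]
    exact tendsto_finsetSum _ fun m _ => hp m
  have hCm : Tendsto (fun i : ℕ => volume.real {t : ℝ | t ∈ Set.Ico (0 : ℝ) 1 ∧
      cntS v (fun l => (αm l : ℝ)) (fun l => (βm l : ℝ)) (range (i ^ 2)) (i ^ 2) t ≤ j}) atTop
      (𝓝 (F Λm)) := by
    simp only [cum68 (meas_cnt v _ _ _ _)]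
    rw [hF, hΛm]
    exact tendsto_finsetSum _ fun m _ => hm m
  have hCp' := (hCp.comp ((tendsto_add_atTop_nat 1).comp sqrt_tends68)).eventually_const_lt
    (show F Λ - ε < F Λp by linarith [hFp.1])
  have hCm' := (hCm.comp sqrt_tends68).eventually_lt_const
    (show F Λm < F Λ + ε by linarith [hFm.2])
  have r1 : ∀ l, ∀ᶠ N : ℕ in atTop, α l * ((Nat.sqrt N : ℝ) ^ 2 / N) < αm l := fun l => by
    have h1 := ratio1_68.const_mul (α l)
    rw [mul_one] at h1
    exact h1.eventually_lt_const (hαm1 l)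
  have r2 : ∀ l, ∀ᶠ N : ℕ in atTop, βm l < β l * ((Nat.sqrt N : ℝ) ^ 2 / N) := fun l => by
    have h1 := ratio1_68.const_mul (β l)
    rw [mul_one] at h1
    exact h1.eventually_const_lt (hβm2 l)
  have r3 : ∀ l, ∀ᶠ N : ℕ in atTop, αp l < α l * (((Nat.sqrt N : ℝ) + 1) ^ 2 / N) := fun l => by
    have h1 := ratio2_68.const_mul (α l)
    rw [mul_one] at h1
    exact h1.eventually_const_lt (hαp2 l)
  have r4 : ∀ l, ∀ᶠ N : ℕ in atTop, β l * (((Nat.sqrt N : ℝ) + 1) ^ 2 / N) < βp l := fun l => by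
    have h1 := ratio2_68.const_mul (β l)
    rw [mul_one] at h1
    exact h1.eventually_lt_const (hβp1 l)
  filter_upwards [hCp', hCm', eventually_all.2 r1, eventually_all.2 r2, eventually_all.2 r3,
    eventually_all.2 r4, eventually_ge_atTop 1] with N g1 g2 q1 q2 q3 q4 hN
  have hN0 : (0 : ℝ) < N := by exact_mod_cast hN
  have hs : 1 ≤ Nat.sqrt N := Nat.le_sqrt.2 (by simpa using hN)
  have hs0 : (0 : ℝ) < (Nat.sqrt N : ℝ) ^ 2 := by
    have : (1 : ℝ) ≤ Nat.sqrt N := by exact_mod_cast hs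
    positivity
  have hs1 : (0 : ℝ) < ((Nat.sqrt N : ℝ) + 1) ^ 2 := by positivity
  have hle1 : Nat.sqrt N ^ 2 ≤ N := by
    rw [pow_two]
    exact Nat.sqrt_le N
  have hle2 : N ≤ (Nat.sqrt N + 1) ^ 2 := by
    have h1 := Nat.sqrt_le_add N
    nlinarith
  have m1 : ∀ t, cntS v (fun l => (αm l : ℝ)) (fun l => (βm l : ℝ)) (range (Nat.sqrt N ^ 2))
      (Nat.sqrt N ^ 2) t ≤ cntS v α β (range N) N t := by
    intro t
    refine cnt_mono v _ _ α β _ _ (range_subset_range.2 hle1) _ _ (Nat.one_le_pow _ _ hs) hN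
      (fun l => ?_) (fun l => ?_) t
    · push_cast
      rw [div_le_div_iff₀ hN0 hs0]
      have h1 := q1 l
      rw [mul_div_assoc', div_lt_iff₀ hN0] at h1
      exact h1.le
    · push_cast
      rw [div_le_div_iff₀ hs0 hN0]
      have h1 := q2 l
      rw [mul_div_assoc', lt_div_iff₀ hN0] at h1
      exact h1.le
  have m2 : ∀ t, cntS v α β (range N) N t ≤ cntS v (fun l => (αp l : ℝ)) (fun l => (βp l : ℝ))
      (range ((Nat.sqrt N + 1) ^ 2)) ((Nat.sqrt N + 1) ^ 2) t := by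
    intro t
    refine cnt_mono v α β _ _ _ _ (range_subset_range.2 hle2) _ _ hN
      (Nat.one_le_pow _ _ (by omega)) (fun l => ?_) (fun l => ?_) t
    · push_cast
      rw [div_le_div_iff₀ hs1 hN0]
      have h1 := q3 l
      rw [mul_div_assoc', lt_div_iff₀ hN0] at h1
      exact h1.le
    · push_cast
      rw [div_le_div_iff₀ hN0 hs1]
      have h1 := q4 l
      rw [mul_div_assoc', div_lt_iff₀ hN0] at h1
      exact h1.le
  have k1 := mono68 m1 j
  have k2 := mono68 m2 j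
  simp only [Function.comp_apply] at g1 g2
  rw [Real.dist_eq, abs_lt]
  constructor
  · linarith
  · linarith

theorem inter (v : ℕ → ℝ) (h : PoissQ v) : Poiss v := by
  intro r α β hαβ hsep j
  have hc := fun j N => cum68 (meas_cnt v α β (range N) N) j
  cases j with
  | zero =>
    have h1 := lim68 v h r α β hαβ hsep 0
    simp only [hc, zero_add, sum_range_one] at h1
    exact h1
  | succ j =>
    have h1 := (lim68 v h r α β hαβ hsep (j + 1)).sub (lim68 v h r α β hαβ hsep j)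
    simp only [hc, sum_range_succ _ (j + 1), add_sub_cancel_left] at h1
    exact h1

end Pool.Agent.Helper59.PP
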