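import Pool.Agent.Helper59.PP.El

/-!
# Block PP-OFF: different terms are decorrelated

PROOF.
* `wv_nz`: for `B` with `p` elements and `h` with nonzero entries `wv B h n ≠ 0 ↔ n ∈ B` (`el_mem`, `el_inj`, `el_surj`; the sum has exactly one nonzero term), and
  `wv B h (el B l) = h l`.
* `off`: for `x ≠ x'` the vector `w = wv x.1 x.2 - wv x'.1 x'.2` is not zero: otherwise `x.1 = x'.1` by `wv_nz` (supports) and then `x.2 = x'.2` (`wv_el`).
  Let `n` be the largest index with `w n ≠ 0` (all such indices are in `SN N = Ico (sqrt N) N`, so `Nat.sqrt N ≤ n < N`).  Then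
  `∑_l x.2 l u (el x.1 l) - ∑_l x'.2 l u (el x'.1 l) = ∑_(l ∈ range (n + 1)) w l u l` (both sides are `∑_(l ∈ range N) w l u l`), `w` has at most `2 p` nonzero entries,
  `|w l| ≤ 2 N^k` and `N < (n + 1)² ≤ 4 n²`, so `2 N^k ≤ 2 (4 n²)^k ≤ n^(3 k + 1)` for `n ≥ 4`, and `N^(2p+1) ≤ (4 n²)^(2p+1) ≤ n^(3 (2p+1))`.
  `Decor` with `B = 3 (2 p + 1) + 3 k + 1 + 2 p`; `N₀ = (max n₀ 4 + 1)²`.
-/

namespace Pool.Agent.Helper59.PP

open Finset MeasureTheory
open Pool.Agent.Helper59.RE (e)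

/-- The integer vector with the entries `h l` at the elements of `B`. -/
noncomputable def wv {p : ℕ} (B : Finset ℕ) (h : Fin p → ℤ) (n : ℕ) : ℤ :=
  ∑ l : Fin p, if el B l = n then h l else 0

theorem wv_el {p : ℕ} {B : Finset ℕ} (hB : B.card = p) (h : Fin p → ℤ) (l : Fin p) :
    wv B h (el B l) = h l := by
  unfold wv
  rw [Finset.sum_eq_single l]
  · rw [if_pos rfl]
  · intro b _ hb
    rw [if_neg fun h' => hb (el_inj hB b l h')]
  · intro hcon
    exact absurd (Finset.mem_univ l) hcon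

theorem wv_nz {p : ℕ} {B : Finset ℕ} (hB : B.card = p) (h : Fin p → ℤ) (h0 : ∀ l, h l ≠ 0)
    (n : ℕ) : wv B h n ≠ 0 ↔ n ∈ B := by
  constructor
  · intro hn
    by_contra hcon
    refine hn ?_
    unfold wv
    refine Finset.sum_eq_zero fun l _ => ?_
    rw [if_neg]
    intro h'
    exact hcon (h' ▸ el_mem hB l)
  · intro hn
    obtain ⟨l, rfl⟩ := el_surj hB n hn
    rw [wv_el hB]
    exact h0 l

private theorem wv_out82 {p : ℕ} {B : Finset ℕ} (hB : B.card = p) (h : Fin p → ℤ) {n : ℕ}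
    (hn : n ∉ B) : wv B h n = 0 := by
  unfold wv
  refine Finset.sum_eq_zero fun l _ => ?_
  rw [if_neg]
  intro h'
  exact hn (h' ▸ el_mem hB l)

private theorem wv_bd82 {p : ℕ} {B : Finset ℕ} (hB : B.card = p) {h : Fin p → ℤ} {H : ℝ}
    (hH : 0 ≤ H) (hh : ∀ l, |(h l : ℝ)| ≤ H) (n : ℕ) : |(wv B h n : ℝ)| ≤ H := by
  by_cases hn : n ∈ B
  · obtain ⟨l, rfl⟩ := el_surj hB n hn
    rw [wv_el hB]
    exact hh l
  · rw [wv_out82 hB h hn]
    simpa using hH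

private theorem sum_wv82 {p : ℕ} {B : Finset ℕ} (hB : B.card = p) (h : Fin p → ℤ) {N : ℕ}
    (hN : B ⊆ range N) (f : ℕ → ℝ) :
    ∑ l, (h l : ℝ) * f (el B l) = ∑ m ∈ range N, (wv B h m : ℝ) * f m := by
  have h1 : ∀ m, (wv B h m : ℝ) * f m = ∑ l : Fin p, if el B l = m then (h l : ℝ) * f m else 0 := by
    intro m
    unfold wv
    push_cast
    rw [Finset.sum_mul]
    refine Finset.sum_congr rfl fun l _ => ?_
    split_ifs
    · rfl
    · exact zero_mul _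
  simp only [h1]
  rw [Finset.sum_comm]
  refine Finset.sum_congr rfl fun l _ => ?_
  rw [Finset.sum_ite_eq (range N) (el B l) (fun m => (h l : ℝ) * f m),
    if_pos (hN (el_mem hB l))]

theorem off {Ω : Type*} [MeasurableSpace Ω] (μ : Measure Ω) [IsProbabilityMeasure μ]
    (u : ℕ → Ω → ℝ) (hd : Decor μ u) (p k : ℕ) :
    ∃ N₀ : ℕ, ∀ N : ℕ, N₀ ≤ N → ∀ x ∈ powersetCard p (SN N) ×ˢ hz (N ^ k) p,
      ∀ x' ∈ powersetCard p (SN N) ×ˢ hz (N ^ k) p, x ≠ x' →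
      ‖∫ ω, e (∑ l, (x.2 l : ℝ) * u (el x.1 l) ω - ∑ l, (x'.2 l : ℝ) * u (el x'.1 l) ω) ∂μ‖ ≤
        1 / (N : ℝ) ^ (2 * p + 1) := by
  classical
  obtain ⟨Bc, hBc⟩ : ∃ Bc, Bc = 3 * (2 * p + 1) + (3 * k + 1) + 2 * p := ⟨_, rfl⟩
  obtain ⟨n₀, hn₀⟩ := hd Bc
  refine ⟨(max n₀ 4 + 1) ^ 2, fun N hN x hx x' hx' hne => ?_⟩
  have hsq : max n₀ 4 + 1 ≤ Nat.sqrt N := by
    rw [Nat.le_sqrt']
    exact hN
  rw [mem_product, mem_powersetCard] at hx hx'
  obtain ⟨⟨hxs, hxc⟩, hxh⟩ := hx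
  obtain ⟨⟨hxs', hxc'⟩, hxh'⟩ := hx'
  -- bounds and non-vanishing of the frequencies
  have hfr : ∀ {h : Fin p → ℤ}, h ∈ hz (N ^ k) p → ∀ l, h l ≠ 0 ∧ |(h l : ℝ)| ≤ (N : ℝ) ^ k := by
    intro h hh l
    unfold hz at hh
    rw [mem_filter, Fintype.mem_piFinset] at hh
    have h1 := hh.1 l
    unfold hs at h1
    rw [mem_erase, mem_Icc] at h1
    refine ⟨h1.1, ?_⟩
    rw [abs_le]
    constructor
    · have h2 : ((-((N ^ k : ℕ) : ℤ) : ℤ) : ℝ) ≤ (h l : ℝ) := by exact_mod_cast h1.2.1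
      push_cast at h2
      exact h2
    · have h2 : (h l : ℝ) ≤ (((N ^ k : ℕ) : ℤ) : ℝ) := by exact_mod_cast h1.2.2
      push_cast at h2
      exact h2
  obtain ⟨w, hw⟩ : ∃ w : ℕ → ℤ, ∀ n, w n = wv x.1 x.2 n - wv x'.1 x'.2 n := ⟨_, fun _ => rfl⟩
  have hwsupp : ∀ n, w n ≠ 0 → n ∈ x.1 ∪ x'.1 := by
    intro n hn
    by_contra hcon
    rw [mem_union, not_or] at hcon
    refine hn ?_
    rw [hw, wv_out82 hxc _ hcon.1, wv_out82 hxc' _ hcon.2, sub_zero]
  have hex : ∃ n, w n ≠ 0 := by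
    by_contra hcon
    push Not at hcon
    have h1 : ∀ n, wv x.1 x.2 n = wv x'.1 x'.2 n := by
      intro n
      have := hcon n
      rw [hw] at this
      omega
    have h2 : x.1 = x'.1 := by
      ext n
      rw [← wv_nz hxc x.2 (fun l => (hfr hxh l).1) n,
        ← wv_nz hxc' x'.2 (fun l => (hfr hxh' l).1) n, h1]
    refine hne (Prod.ext h2 (funext fun l => ?_))
    rw [← wv_el hxc x.2 l, h1, h2, wv_el hxc' x'.2 l]
  have hSN : ∀ n, w n ≠ 0 → Nat.sqrt N ≤ n ∧ n < N := by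
    intro n hn
    have h1 := hwsupp n hn
    have h2 : n ∈ SN N := by
      rcases mem_union.1 h1 with h3 | h3
      · exact hxs h3
      · exact hxs' h3
    unfold SN at h2
    rw [mem_Ico] at h2
    exact h2
  -- the last index
  obtain ⟨n, hn, hmax⟩ : ∃ n, w n ≠ 0 ∧ ∀ m, n < m → w m = 0 := by
    obtain ⟨m₀, hm₀⟩ := hex
    have hT : ((range N).filter fun m => w m ≠ 0).Nonempty :=
      ⟨m₀, mem_filter.2 ⟨mem_range.2 (hSN m₀ hm₀).2, hm₀⟩⟩
    refine ⟨_, (mem_filter.1 (max'_mem _ hT)).2, fun m hm => ?_⟩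
    by_contra hcon
    have h1 : m ∈ (range N).filter fun m => w m ≠ 0 :=
      mem_filter.2 ⟨mem_range.2 (hSN m hcon).2, hcon⟩
    exact absurd (le_max' _ m h1) (not_le.2 hm)
  obtain ⟨hn1, hn2⟩ := hSN n hn
  have hn4 : 4 ≤ n := by
    have := le_max_right n₀ 4
    omega
  have hnn : n₀ ≤ n := by
    have := le_max_left n₀ 4
    omega
  have hn4' : (4 : ℝ) ≤ n := by exact_mod_cast hn4
  have hn1' : (1 : ℝ) ≤ n := by linarith
  have hNn : (N : ℝ) ≤ (n : ℝ) ^ 3 := by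
    have h1 : N < (Nat.sqrt N + 1) ^ 2 := by
      rw [pow_two]
      exact Nat.lt_succ_sqrt N
    have h2 : (Nat.sqrt N + 1) ^ 2 ≤ (n + 1) ^ 2 := Nat.pow_le_pow_left (by omega) 2
    have h3 : (N : ℝ) ≤ ((n : ℝ) + 1) ^ 2 := by exact_mod_cast (h1.trans_le h2).le
    nlinarith
  have hNpos : 0 < N := by omega
  have hNpos' : (0 : ℝ) < N := by exact_mod_cast hNpos
  -- the sum
  have hR : ∀ {B : Finset ℕ}, B ⊆ SN N → B ⊆ range N := by
    intro B hB m hm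
    have := hB hm
    unfold SN at this
    rw [mem_Ico] at this
    exact mem_range.2 this.2
  have hsum : ∀ ω, (∑ l, (x.2 l : ℝ) * u (el x.1 l) ω - ∑ l, (x'.2 l : ℝ) * u (el x'.1 l) ω) =
      ∑ l ∈ range (n + 1), (w l : ℝ) * u l ω := by
    intro ω
    rw [sum_wv82 hxc x.2 (hR hxs) (fun m => u m ω), sum_wv82 hxc' x'.2 (hR hxs') (fun m => u m ω),
      ← Finset.sum_sub_distrib]
    symm
    rw [← Finset.sum_subset (range_subset_range.2 (show n + 1 ≤ N by omega))]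
    · refine Finset.sum_congr rfl fun m _ => ?_
      rw [hw]
      push_cast
      ring
    · intro m _ hm
      rw [mem_range, not_lt] at hm
      have h1 := hmax m (by omega)
      rw [hw] at h1
      have h2 : (wv x.1 x.2 m : ℝ) - wv x'.1 x'.2 m = 0 := by exact_mod_cast h1
      rw [← sub_mul, h2, zero_mul]
  simp only [hsum]
  have hmain := hn₀ n hnn w hn ?_ ?_
  · refine hmain.trans ?_
    refine one_div_le_one_div_of_le (pow_pos hNpos' _) ?_
    calc (N : ℝ) ^ (2 * p + 1) ≤ ((n : ℝ) ^ 3) ^ (2 * p + 1) :=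
          pow_le_pow_left₀ hNpos'.le hNn _
      _ = (n : ℝ) ^ (3 * (2 * p + 1)) := by rw [← pow_mul]
      _ ≤ (n : ℝ) ^ Bc := pow_le_pow_right₀ hn1' (by omega)
  · have h1 : ((range (n + 1)).filter (fun l => w l ≠ 0)) ⊆ x.1 ∪ x'.1 := by
      intro m hm
      exact hwsupp m (mem_filter.1 hm).2
    have h2 := (card_le_card h1).trans (card_union_le _ _)
    rw [hxc, hxc'] at h2
    omega
  · intro l
    have h1 := wv_bd82 hxc (pow_nonneg hNpos'.le k) (fun l => (hfr hxh l).2) l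
    have h2 := wv_bd82 hxc' (pow_nonneg hNpos'.le k) (fun l => (hfr hxh' l).2) l
    have h3 : |(w l : ℝ)| ≤ 2 * (N : ℝ) ^ k := by
      rw [hw]
      push_cast
      refine (abs_sub _ _).trans ?_
      linarith
    refine h3.trans ?_
    calc 2 * (N : ℝ) ^ k ≤ (n : ℝ) * ((n : ℝ) ^ 3) ^ k := by
          refine mul_le_mul (by linarith) (pow_le_pow_left₀ hNpos'.le hNn _)
            (pow_nonneg hNpos'.le k) (by linarith)
      _ = (n : ℝ) ^ (3 * k + 1) := by rw [← pow_mul]; ring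
      _ ≤ (n : ℝ) ^ Bc := pow_le_pow_right₀ hn1' (by omega)

end Pool.Agent.Helper59.PP
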