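import Pool.Agent.Helper59.PP.CntLim
import Pool.Agent.Helper59.PP.Inter
import Pool.Agent.Helper59.PP.GapB

/-!
# Block PP-PMAIN: decorrelated sequences are Poissonian

PROOF.  Almost surely, for all `r` and all rational `α, β : Fin r → ℚ` (countably many), `cnt_pois` and `cnt_full` hold; this is `PoissQ` (`ae_all_iff`; if the conditions on `α, β` fail there is
nothing to prove).  Then `inter` and `gap_law`.
-/

namespace Pool.Agent.Helper59.PP

open Finset MeasureTheory Filter

theorem pmain {Ω : Type*} [MeasurableSpace Ω] (μ : Measure Ω) [IsProbabilityMeasure μ]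
    (u : ℕ → Ω → ℝ) (hu : ∀ n, Measurable (u n)) (hd : Decor μ u) :
    ∀ᵐ ω ∂μ, Poiss (fun n => u n ω) ∧ GapLaw (fun n => u n ω) := by
  have h1 : ∀ᵐ ω ∂μ, PoissQ (fun n => u n ω) := by
    unfold PoissQ
    rw [ae_all_iff]
    intro r
    rw [ae_all_iff]
    intro α
    rw [ae_all_iff]
    intro β
    by_cases hc : (∀ l, α l < β l) ∧ (∀ l l', l ≠ l' → β l < α l' ∨ β l' < α l)
    · obtain ⟨hαβ, hsep⟩ := hc
      have hαβ' : ∀ l, (α l : ℝ) < β l := fun l => by exact_mod_cast hαβ l
      have hsep' : ∀ l l', l ≠ l' → (β l : ℝ) < α l' ∨ (β l' : ℝ) < α l := fun l l' h =>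
        (hsep l l' h).imp (fun h => by exact_mod_cast h) (fun h => by exact_mod_cast h)
      filter_upwards [cnt_pois μ u hu hd r (fun l => (α l : ℝ)) (fun l => (β l : ℝ)) hαβ' hsep']
        with ω hω _ _ j
      exact cnt_full _ r _ _ hαβ' j _ (hω j)
    · exact Eventually.of_forall fun ω h2 h3 => absurd ⟨h2, h3⟩ hc
  filter_upwards [h1] with ω hω
  have h2 := inter _ hω
  exact ⟨h2, gap_law _ h2⟩

end Pool.Agent.Helper59.PP
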