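import Pool.Agent.Helper59.PP.Defs

/-!
# Block PP-TRAPA: the trapezoid, values

`tz a b η` is the function of period `1` which is `1` on `[a, b]`, `0` outside `[a - η, b + η]` and linear in between, written with the periodic Bernoulli function
`Bt x = ({x}² - {x} + 1/6) / 2` (`Bt'' = 1 - δ`).

PROOF.  `tz_eq`: put `y = fract (x - (a - η))` and `L = b - a`.  Then `fract (x - a) = fract (y - η)` is `y - η` if `y ≥ η` and `y - η + 1` otherwise, the same for
`fract (x - b) = fract (y - η - L)` and `fract (x - (b + η)) = fract (y - 2 η - L)` (`Int.fract_eq_iff`).  In the four cases `y < η`, `η ≤ y < η + L`,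
`η + L ≤ y < 2 η + L`, `2 η + L ≤ y` the formula gives `y / η`, `1`, `(2 η + L - y) / η`, `0` (`field_simp; ring`).
The rest follows from `tz_eq`: `min`, `max`; for `tz_one`: `a ≤ x + m ≤ b` gives `y = x + m - a + η` if this is `< 1` (it is `≤ L + η < 1`); for `tz_supp`: `tz ≠ 0` gives
`0 < y < 2 η + L`, and `x + m = y + a - η` for an integer `m`.
-/

namespace Pool.Agent.Helper59.PP

/-- The periodic Bernoulli function of degree 2, divided by 2. -/
noncomputable def Bt (x : ℝ) : ℝ := (Int.fract x ^ 2 - Int.fract x + 1 / 6) / 2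

/-- The trapezoid. -/
noncomputable def tz (a b η x : ℝ) : ℝ :=
  (b - a + η) - (Bt (x - (a - η)) - Bt (x - a) - Bt (x - b) + Bt (x - (b + η))) / η

private lemma tz_fract_h17 (z s : ℝ) (h0 : 0 ≤ s) (h1 : s ≤ 1) :
    Int.fract (z - s) = if s ≤ Int.fract z then Int.fract z - s else Int.fract z - s + 1 := by
  have h2 := Int.fract_nonneg z
  have h3 := Int.fract_lt_one z
  have h4 := Int.floor_add_fract z
  split_ifs with h
  · rw [Int.fract_eq_iff]
    refine ⟨by linarith, by linarith, ⌊z⌋, ?_⟩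
    linarith
  · rw [not_le] at h
    rw [Int.fract_eq_iff]
    refine ⟨by linarith, by linarith, ⌊z⌋ - 1, ?_⟩
    push_cast
    linarith

private lemma tz_val_h17 (L η y f1 f2 f3 e1 e2 e3 : ℝ) (hη : 0 < η) (h1 : f1 = y - η + e1) (h2 : f2 = y - (η + L) + e2)
    (h3 : f3 = y - (2 * η + L) + e3) (he1 : e1 * (e1 - 1) = 0) (he2 : e2 * (e2 - 1) = 0) (he3 : e3 * (e3 - 1) = 0) :
    (L + η) - ((y ^ 2 - y + 1 / 6) / 2 - (f1 ^ 2 - f1 + 1 / 6) / 2 - (f2 ^ 2 - f2 + 1 / 6) / 2 +
      (f3 ^ 2 - f3 + 1 / 6) / 2) / η =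
      (e1 * (y - η) + e2 * (y - (η + L)) - e3 * (y - (2 * η + L))) / η := by
  rw [h1, h2, h3]
  field_simp
  linear_combination 6 * he1 + 6 * he2 - 6 * he3

theorem tz_eq (a b η : ℝ) (hab : a ≤ b) (hη : 0 < η) (h1 : b - a + 2 * η ≤ 1) (x : ℝ) :
    tz a b η x = max 0 (min 1 (min (Int.fract (x - (a - η)) / η)
      ((2 * η + (b - a) - Int.fract (x - (a - η))) / η))) := by
  obtain ⟨z, hz⟩ : ∃ z, z = x - (a - η) := ⟨_, rfl⟩
  obtain ⟨L, hL⟩ : ∃ L, L = b - a := ⟨_, rfl⟩
  have hL0 : 0 ≤ L := by linarith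
  have e1 : x - a = z - η := by rw [hz]; ring
  have e2 : x - b = z - (η + L) := by rw [hz, hL]; ring
  have e3 : x - (b + η) = z - (2 * η + L) := by rw [hz, hL]; ring
  unfold tz Bt
  rw [← hz, ← hL, e1, e2, e3, tz_fract_h17 z η hη.le (by linarith), tz_fract_h17 z (η + L) (by linarith) (by linarith),
    tz_fract_h17 z (2 * η + L) (by linarith) (by linarith)]
  obtain ⟨y, hy⟩ : ∃ y, y = Int.fract z := ⟨_, rfl⟩
  have hy0 : 0 ≤ y := hy ▸ Int.fract_nonneg z
  have hy1 : y < 1 := hy ▸ Int.fract_lt_one z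
  rw [← hy]
  rcases lt_or_ge y η with h | h
  · rw [if_neg (by linarith), if_neg (by linarith), if_neg (by linarith),
      tz_val_h17 L η y _ _ _ 1 1 1 hη rfl rfl rfl (by norm_num) (by norm_num) (by norm_num)]
    have h2 : y / η ≤ (2 * η + L - y) / η := by
      apply div_le_div_of_nonneg_right _ hη.le
      linarith
    have h3 : y / η ≤ 1 := by rw [div_le_one hη]; linarith
    have h4 : 0 ≤ y / η := by positivity
    rw [min_eq_left h2, min_eq_right h3, max_eq_right h4]
    congr 1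
    ring
  rcases lt_or_ge y (η + L) with h' | h'
  · rw [if_pos h, if_neg (by linarith), if_neg (by linarith),
      tz_val_h17 L η y _ _ _ 0 1 1 hη (by ring) rfl rfl (by norm_num) (by norm_num) (by norm_num)]
    have h2 : 1 ≤ (2 * η + L - y) / η := by rw [le_div_iff₀ hη]; linarith
    have h3 : 1 ≤ y / η := by rw [le_div_iff₀ hη]; linarith
    rw [min_eq_left (le_min h3 h2), max_eq_right (by norm_num)]
    rw [div_eq_iff hη.ne']
    ring
  rcases lt_or_ge y (2 * η + L) with h'' | h''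
  · rw [if_pos h, if_pos h', if_neg (by linarith),
      tz_val_h17 L η y _ _ _ 0 0 1 hη (by ring) (by ring) rfl (by norm_num) (by norm_num) (by norm_num)]
    have h2 : (2 * η + L - y) / η ≤ 1 := by rw [div_le_one hη]; linarith
    have h3 : (2 * η + L - y) / η ≤ y / η := by
      apply div_le_div_of_nonneg_right _ hη.le
      linarith
    have h4 : 0 ≤ (2 * η + L - y) / η := div_nonneg (by linarith) hη.le
    rw [min_eq_right h3, min_eq_right h2, max_eq_right h4]
    congr 1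
    ring
  · rw [if_pos h, if_pos h', if_pos h'',
      tz_val_h17 L η y _ _ _ 0 0 0 hη (by ring) (by ring) (by ring) (by norm_num) (by norm_num) (by norm_num)]
    have h2 : (2 * η + L - y) / η ≤ 0 := div_nonpos_of_nonpos_of_nonneg (by linarith) hη.le
    rw [max_eq_left ((min_le_right _ _).trans ((min_le_right _ _).trans h2))]
    simp

theorem tz_nn (a b η : ℝ) (hab : a ≤ b) (hη : 0 < η) (h1 : b - a + 2 * η ≤ 1) (x : ℝ) :
    0 ≤ tz a b η x ∧ tz a b η x ≤ 1 := by
  rw [tz_eq a b η hab hη h1]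
  exact ⟨le_max_left _ _, max_le zero_le_one (min_le_left _ _)⟩

theorem tz_one (a b η : ℝ) (hab : a ≤ b) (hη : 0 < η) (h1 : b - a + 2 * η ≤ 1) (x : ℝ) (m : ℤ)
    (h2 : a ≤ x + m) (h3 : x + m ≤ b) : tz a b η x = 1 := by
  have h4 : Int.fract (x - (a - η)) = x + m - a + η := by
    rw [Int.fract_eq_iff]
    refine ⟨by linarith, by linarith, -m, ?_⟩
    push_cast
    ring
  rw [tz_eq a b η hab hη h1, h4]
  have h5 : 1 ≤ (x + m - a + η) / η := by rw [le_div_iff₀ hη]; linarith
  have h6 : 1 ≤ (2 * η + (b - a) - (x + m - a + η)) / η := by rw [le_div_iff₀ hη]; linarith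
  rw [min_eq_left (le_min h5 h6), max_eq_right (by norm_num)]

theorem tz_supp (a b η : ℝ) (hab : a ≤ b) (hη : 0 < η) (h1 : b - a + 2 * η ≤ 1) (x : ℝ)
    (h : tz a b η x ≠ 0) : ∃ m : ℤ, a - η < x + m ∧ x + m < b + η := by
  rw [tz_eq a b η hab hη h1] at h
  obtain ⟨y, hy⟩ : ∃ y, y = Int.fract (x - (a - η)) := ⟨_, rfl⟩
  rw [← hy] at h
  have h2 : 0 < min 1 (min (y / η) ((2 * η + (b - a) - y) / η)) := by
    by_contra hc
    exact h (max_eq_left (not_lt.1 hc))
  have h3 : 0 < y / η := (lt_min_iff.1 (lt_min_iff.1 h2).2).1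
  have h4 : 0 < (2 * η + (b - a) - y) / η := (lt_min_iff.1 (lt_min_iff.1 h2).2).2
  rw [lt_div_iff₀ hη, zero_mul] at h3 h4
  have h5 := Int.floor_add_fract (x - (a - η))
  refine ⟨-⌊x - (a - η)⌋, ?_, ?_⟩
  · push_cast
    linarith
  · push_cast
    linarith

end Pool.Agent.Helper59.PP
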