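import Pool.Agent.Helper59.PP.El

/-!
# Block PP-VEQ: the oscillating part as an exponential sum

PROOF.  `es S p (..) = ∑_(B ∈ powersetCard p S) ∏_(i ∈ B) ∑_(h ∈ hs H) c h e (h (v i - t))`.  For `B` with `p` elements `el_prod` gives `∏_(l : Fin p)`, and
`Finset.prod_univ_sum` expands it: `∑_(h ∈ piFinset (fun _ => hs H)) ∏_l (c (h l) e (h l (v (el B l) - t)))`
`= ∑_h (∏_l c (h l)) e (∑_l h l v (el B l)) e (- (∑_l h l) t)` (`RE.e_add` and induction, or `Complex.exp_sum`).
`∫_0^1 e (- n t) dt = 1` if the integer `n = 0`, and `0` otherwise (`integral_exp_mul_complex` or `fourier` orthogonality; `e` of an integer is `1`).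
`Finset.sum_filter`, `Finset.sum_product`, `intervalIntegral.integral_finsetSum` (continuous functions).
-/

namespace Pool.Agent.Helper59.PP

open Finset MeasureTheory
open Pool.Agent.Helper59.RE (e)

private theorem e_sum61 {ι : Type*} (s : Finset ι) (f : ι → ℝ) :
    ∏ i ∈ s, e (f i) = e (∑ i ∈ s, f i) := by
  classical
  induction s using Finset.induction_on with
  | empty => rw [Finset.prod_empty, Finset.sum_empty, RE.e_zero]
  | insert a s ha ih => rw [Finset.prod_insert ha, Finset.sum_insert ha, ih, RE.e_add]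

private theorem int_e61 (n : ℤ) :
    ∫ t in (0 : ℝ)..1, e (-((n : ℝ) * t)) = if n = 0 then 1 else 0 := by
  by_cases hn : n = 0
  · rw [if_pos hn, hn]
    simp [RE.e_zero]
  · rw [if_neg hn]
    have h1 : ∀ t : ℝ, e (-((n : ℝ) * t)) =
        Complex.exp ((2 * Real.pi * Complex.I * (-(n : ℂ))) * (t : ℂ)) := by
      intro t
      unfold RE.e
      congr 1
      push_cast
      ring
    have h2 : (2 * Real.pi * Complex.I * (-(n : ℂ))) ≠ 0 := by
      have h3 : (n : ℂ) ≠ 0 := by exact_mod_cast hn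
      have h4 : (Real.pi : ℂ) ≠ 0 := by exact_mod_cast Real.pi_ne_zero
      exact mul_ne_zero (mul_ne_zero (mul_ne_zero two_ne_zero h4) Complex.I_ne_zero)
        (neg_ne_zero.2 h3)
    rw [intervalIntegral.integral_congr (g := fun t : ℝ =>
      Complex.exp ((2 * Real.pi * Complex.I * (-(n : ℂ))) * (t : ℂ))) (fun t _ => h1 t),
      integral_exp_mul_complex h2]
    have h5 : Complex.exp ((2 * Real.pi * Complex.I * (-(n : ℂ))) * ((1 : ℝ) : ℂ)) = 1 := by
      rw [Complex.exp_eq_one_iff]
      exact ⟨-n, by push_cast; ring⟩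
    rw [h5, Complex.ofReal_zero, mul_zero, Complex.exp_zero, sub_self, zero_div]

private theorem pt61 (c : ℤ → ℂ) (H : ℕ) {p : ℕ} (v : ℕ → ℝ) {B : Finset ℕ} (hB : B.card = p)
    (t : ℝ) :
    ∏ i ∈ B, ∑ h ∈ hs H, c h * e (h * (v i - t)) =
      ∑ h ∈ Fintype.piFinset (fun _ : Fin p => hs H),
        ((∏ l, c (h l)) * e (∑ l, (h l : ℝ) * v (el B l))) *
          e (-(((∑ l, h l : ℤ) : ℝ) * t)) := by
  rw [el_prod hB, Finset.prod_univ_sum]
  refine Finset.sum_congr rfl fun h _ => ?_
  rw [Finset.prod_mul_distrib, e_sum61, mul_assoc, ← RE.e_add]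
  congr 2
  rw [Int.cast_sum, Finset.sum_mul, ← Finset.sum_neg_distrib, ← Finset.sum_add_distrib]
  refine Finset.sum_congr rfl fun l _ => ?_
  ring

theorem V_eq (c : ℤ → ℂ) (H : ℕ) (S : Finset ℕ) (p : ℕ) (v : ℕ → ℝ) :
    V c H S p v = ∑ x ∈ powersetCard p S ×ˢ hz H p,
      (∏ l, c (x.2 l)) * e (∑ l, (x.2 l : ℝ) * v (el x.1 l)) := by
  classical
  unfold V es
  have h1 : ∀ t : ℝ, (∑ B ∈ powersetCard p S, ∏ i ∈ B, ∑ h ∈ hs H, c h * e (h * (v i - t))) =
      ∑ B ∈ powersetCard p S, ∑ h ∈ Fintype.piFinset (fun _ : Fin p => hs H),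
        ((∏ l, c (h l)) * e (∑ l, (h l : ℝ) * v (el B l))) *
          e (-(((∑ l, h l : ℤ) : ℝ) * t)) := by
    intro t
    refine Finset.sum_congr rfl fun B hB => ?_
    exact pt61 c H v (Finset.mem_powersetCard.1 hB).2 t
  have hc : ∀ (a : ℂ) (n : ℝ), Continuous fun t : ℝ => a * e (-(n * t)) := by
    intro a n
    exact continuous_const.mul (RE.continuous_e.comp (by fun_prop))
  rw [intervalIntegral.integral_congr (fun t _ => h1 t), intervalIntegral.integral_finsetSum,
    Finset.sum_product]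
  · refine Finset.sum_congr rfl fun B _ => ?_
    rw [intervalIntegral.integral_finsetSum]
    · unfold hz
      rw [Finset.sum_filter]
      refine Finset.sum_congr rfl fun h _ => ?_
      rw [intervalIntegral.integral_const_mul, int_e61]
      by_cases hh : ∑ l, h l = 0
      · rw [if_pos hh, if_pos hh, mul_one]
      · rw [if_neg hh, if_neg hh, mul_zero]
    · intro h _
      exact (hc _ _).intervalIntegrable _ _
  · intro B _
    refine Continuous.intervalIntegrable ?_ _ _
    exact continuous_finsetSum _ fun h _ => hc _ _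

end Pool.Agent.Helper59.PP
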