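import Pool.Agent.Helper59.PP.VEq
import Pool.Agent.Helper59.PP.Sq
import Pool.Agent.Helper59.PP.Zs
import Pool.Agent.Helper59.PP.Off

/-!
# Block PP-VSQ: the mean square of the oscillating parts

PROOF.  `V_eq` and `sq_bound` with `T = powersetCard p (SN N) ×ˢ hz (N^k) p`, coefficients `∏_l c (h l)`, `X x ω = ∑_l h l u (el B l) ω`, `ρ = 1 / N^(2p+1)` (`off`).
`p = q + 1`.  `∑_(x ∈ T) ‖∏ c‖ = #(powersetCard) ∑_(h ∈ hz) ∏ ‖c (h l)‖ ≤ N^p (C / N) (4 C)^q` (`Finset.sum_product`, `card_powersetCard`, `Nat.choose_le_pow`, `zs`, `fs1`);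
`∑ ‖∏ c‖² ≤ (C / N)^p ∑ ‖∏ c‖ ≤ C^p (C / N) (4 C)^q`.  So the bound is `(C^(p+1) (4C)^q + (C (4C)^q)^2) / N` (`(N^p / N)² / N^(2p+1) ≤ 1 / N`).
* `V_meas`: `ω ↦ V ..` is measurable by `V_eq`; it is bounded, so the square of the norm is integrable.
-/

namespace Pool.Agent.Helper59.PP

open Finset MeasureTheory
open Pool.Agent.Helper59.RE (e)

theorem V_int {Ω : Type*} [MeasurableSpace Ω] (μ : Measure Ω) [IsProbabilityMeasure μ]
    (u : ℕ → Ω → ℝ) (hu : ∀ n, Measurable (u n)) (c : ℤ → ℂ) (H : ℕ) (S : Finset ℕ) (p : ℕ) :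
    Integrable (fun ω => ‖V c H S p (fun i => u i ω)‖ ^ 2) μ := by
  have hm : Measurable (fun ω => V c H S p (fun i => u i ω)) := by
    simp_rw [V_eq]
    refine Finset.measurable_sum _ fun x _ => ?_
    refine Measurable.const_mul ?_ _
    exact Pool.Agent.Helper59.RE.continuous_e.measurable.comp
      (Finset.measurable_sum _ fun l _ => (hu _).const_mul _)
  refine Integrable.of_bound (hm.norm.pow_const 2).aestronglyMeasurable
    ((∑ x ∈ powersetCard p S ×ˢ hz H p, ‖∏ l, c (x.2 l)‖) ^ 2) (Filter.Eventually.of_forall fun ω => ?_)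
  rw [Real.norm_of_nonneg (by positivity)]
  refine pow_le_pow_left₀ (norm_nonneg _) ?_ 2
  rw [V_eq]
  refine (norm_sum_le _ _).trans (Finset.sum_le_sum fun x _ => ?_)
  rw [norm_mul, Pool.Agent.Helper59.RE.norm_e, mul_one]

theorem V_sq {Ω : Type*} [MeasurableSpace Ω] (μ : Measure Ω) [IsProbabilityMeasure μ]
    (u : ℕ → Ω → ℝ) (hu : ∀ n, Measurable (u n)) (hd : Decor μ u) (p k : ℕ) (hp : 1 ≤ p) (C : ℝ)
    (hC : 0 ≤ C) :
    ∃ (K : ℝ) (N₀ : ℕ), ∀ N : ℕ, N₀ ≤ N → ∀ c : ℤ → ℂ, (∀ h, ‖c h‖ ≤ C / N) →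
      (∀ h : ℤ, h ≠ 0 → ‖c h‖ ≤ C * N / (h : ℝ) ^ 2) →
      ∫ ω, ‖V c (N ^ k) (SN N) p (fun i => u i ω)‖ ^ 2 ∂μ ≤ K / N := by
  obtain ⟨q, rfl⟩ : ∃ q, p = q + 1 := ⟨p - 1, by omega⟩
  obtain ⟨N₁, hN₁⟩ := off μ u hd (q + 1) k
  refine ⟨C ^ (q + 1) * C * (4 * C) ^ q + (C * (4 * C) ^ q) ^ 2, max N₁ 1, ?_⟩
  intro N hN c hb hcd
  have hN1 : 1 ≤ N := (le_max_right _ _).trans hN
  have hNR : (1 : ℝ) ≤ N := by exact_mod_cast hN1
  have hN0 : (0 : ℝ) < N := by linarith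
  have hoff := hN₁ N ((le_max_left _ _).trans hN)
  have hCN : 0 ≤ C / N := by positivity
  have hD : 0 ≤ (4 * C) ^ q := by positivity
  set T := powersetCard (q + 1) (SN N) ×ˢ hz (N ^ k) (q + 1) with hT
  have h1 := sq_bound μ T (fun x => ∏ l, c (x.2 l)) (fun x ω => ∑ l, (x.2 l : ℝ) * u (el x.1 l) ω)
    (fun x => Finset.measurable_sum _ fun l _ => (hu _).const_mul _)
    (1 / (N : ℝ) ^ (2 * (q + 1) + 1)) (by positivity) hoff
  have hZ : ∑ h ∈ hz (N ^ k) (q + 1), ∏ l, ‖c (h l)‖ ≤ C / N * (4 * C) ^ q := by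
    refine (zs (N ^ k) q (fun h => ‖c h‖) (fun h => norm_nonneg _) (C / N) hb).trans ?_
    refine mul_le_mul_of_nonneg_left ?_ hCN
    exact pow_le_pow_left₀ (Finset.sum_nonneg fun _ _ => norm_nonneg _)
      (fs1 C hC N (N ^ k) hN1 c hb hcd) q
  have hZ0 : 0 ≤ ∑ h ∈ hz (N ^ k) (q + 1), ∏ l, ‖c (h l)‖ :=
    Finset.sum_nonneg fun _ _ => Finset.prod_nonneg fun _ _ => norm_nonneg _
  have hcard : ((powersetCard (q + 1) (SN N)).card : ℝ) ≤ (N : ℝ) ^ (q + 1) := by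
    rw [Finset.card_powersetCard]
    have e1 : (SN N).card ≤ N := by
      unfold SN
      rw [Nat.card_Ico]
      exact Nat.sub_le _ _
    have e2 : (SN N).card.choose (q + 1) ≤ N ^ (q + 1) :=
      (Nat.choose_le_pow _ _).trans (Nat.pow_le_pow_left e1 _)
    exact_mod_cast e2
  have hS1 : ∑ x ∈ T, ‖∏ l, c (x.2 l)‖ ≤ (N : ℝ) ^ (q + 1) * (C / N * (4 * C) ^ q) := by
    rw [hT, Finset.sum_product]
    simp_rw [norm_prod]
    rw [Finset.sum_const, nsmul_eq_mul]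
    exact mul_le_mul hcard hZ hZ0 (by positivity)
  have hS10 : 0 ≤ ∑ x ∈ T, ‖∏ l, c (x.2 l)‖ := Finset.sum_nonneg fun _ _ => norm_nonneg _
  have hS2 : ∑ x ∈ T, ‖∏ l, c (x.2 l)‖ ^ 2 ≤ C ^ (q + 1) * C * (4 * C) ^ q / N := by
    have e1 : ∀ x ∈ T, ‖∏ l, c (x.2 l)‖ ^ 2 ≤ (C / N) ^ (q + 1) * ‖∏ l, c (x.2 l)‖ := by
      intro x _
      rw [sq]
      refine mul_le_mul_of_nonneg_right ?_ (norm_nonneg _)
      rw [norm_prod]
      refine (Finset.prod_le_prod (fun _ _ => norm_nonneg _) (fun l _ => hb (x.2 l))).trans ?_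
      rw [Finset.prod_const, Finset.card_univ, Fintype.card_fin]
    calc ∑ x ∈ T, ‖∏ l, c (x.2 l)‖ ^ 2 ≤ ∑ x ∈ T, (C / N) ^ (q + 1) * ‖∏ l, c (x.2 l)‖ :=
          Finset.sum_le_sum e1
      _ = (C / N) ^ (q + 1) * ∑ x ∈ T, ‖∏ l, c (x.2 l)‖ := by rw [Finset.mul_sum]
      _ ≤ (C / N) ^ (q + 1) * ((N : ℝ) ^ (q + 1) * (C / N * (4 * C) ^ q)) :=
          mul_le_mul_of_nonneg_left hS1 (by positivity)
      _ = C ^ (q + 1) * C * (4 * C) ^ q / N := by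
          rw [div_pow]
          field_simp
  have hS3 : (∑ x ∈ T, ‖∏ l, c (x.2 l)‖) ^ 2 * (1 / (N : ℝ) ^ (2 * (q + 1) + 1)) ≤
      (C * (4 * C) ^ q) ^ 2 / N := by
    calc (∑ x ∈ T, ‖∏ l, c (x.2 l)‖) ^ 2 * (1 / (N : ℝ) ^ (2 * (q + 1) + 1))
        ≤ ((N : ℝ) ^ (q + 1) * (C / N * (4 * C) ^ q)) ^ 2 * (1 / (N : ℝ) ^ (2 * (q + 1) + 1)) := by
          gcongr
      _ = (C * (4 * C) ^ q) ^ 2 / (N : ℝ) ^ 3 := by
          have e1 : (N : ℝ) ^ (2 * (q + 1) + 1) = ((N : ℝ) ^ (q + 1)) ^ 2 * N := by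
            rw [← pow_mul, pow_succ, mul_comm 2]
          rw [e1]
          have e2 : (N : ℝ) ^ (q + 1) ≠ 0 := by positivity
          field_simp
      _ ≤ (C * (4 * C) ^ q) ^ 2 / N := by
          apply div_le_div_of_nonneg_left (by positivity) hN0
          exact le_self_pow₀ hNR (by norm_num)
  simp_rw [V_eq]
  rw [add_div]
  exact h1.trans (add_le_add hS2 hS3)

end Pool.Agent.Helper59.PP
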